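import Mathlib

/-!
# Parseval for power series on circles
-/

set_option autoImplicit false

open Complex Metric MeasureTheory Filter Topology Set
open scoped Real ComplexConjugate

namespace Pool.Agent.Pa5725d

lemma integral_exp_int (k : ℤ) :
    ∫ θ in (0 : ℝ)..2 * π, cexp (k * θ * I) = if k = 0 then ((2 * π : ℝ) : ℂ) else 0 := by
  split_ifs with h
  · subst h; simp
  · have h1 : ∀ θ : ℝ, cexp (k * θ * I) = cexp ((k * I) * θ) := by
      intro θ; congr 1; ring
    simp_rw [h1]
    have hk : (k : ℂ) * I ≠ 0 := mul_ne_zero (by exact_mod_cast h) I_ne_zero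
    rw [integral_exp_mul_complex hk]
    have : cexp ((k * I) * ((2 * π : ℝ) : ℂ)) = 1 := by
      have := Complex.exp_int_mul_two_pi_mul_I k
      rw [← this]
      congr 1
      push_cast
      ring
    rw [this]
    simp

/-- Fourier coefficients of an absolutely convergent power series on a circle. -/
lemma integral_powerSeries_mul_exp (a : ℕ → ℂ) (r : ℝ) (hr : 0 ≤ r)
    (ha : Summable fun n => ‖a n‖ * r ^ n) (m : ℕ) :
    ∫ θ in (0 : ℝ)..2 * π, (∑' n, a n * (r * cexp (θ * I)) ^ n) * cexp (-(m * θ * I)) =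
      2 * π * (a m * r ^ m) := by
  have h1 : ∀ θ : ℝ, (∑' n, a n * (r * cexp (θ * I)) ^ n) * cexp (-(m * θ * I)) =
      ∑' n, a n * r ^ n * cexp (((n - m : ℤ) : ℂ) * θ * I) := by
    intro θ
    rw [← tsum_mul_right]
    congr 1
    funext n
    have h0 : cexp (((n - m : ℤ) : ℂ) * θ * I) = cexp (n * (θ * I)) * cexp (-(m * θ * I)) := by
      rw [← Complex.exp_add]
      congr 1
      push_cast
      ring
    rw [mul_pow, ← Complex.exp_nat_mul, h0]
    ring
  simp_rw [h1]
  have h2 : HasSum (fun n : ℕ => ∫ θ in (0 : ℝ)..2 * π,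
      a n * r ^ n * cexp (((n - m : ℤ) : ℂ) * θ * I))
      (∫ θ in (0 : ℝ)..2 * π, ∑' n : ℕ, a n * r ^ n * cexp (((n - m : ℤ) : ℂ) * θ * I)) := by
    refine intervalIntegral.hasSum_integral_of_dominated_convergence
      (fun n _ => ‖a n‖ * r ^ n) ?_ ?_ ?_ ?_ ?_
    · intro n
      exact Continuous.aestronglyMeasurable (by fun_prop)
    · intro n
      refine Eventually.of_forall (fun θ _ => ?_)
      rw [norm_mul, norm_mul]
      have : ‖cexp (((n - m : ℤ) : ℂ) * θ * I)‖ = 1 := by
        have : (((n - m : ℤ) : ℂ) * θ * I) = ((((n - m : ℤ) : ℝ) * θ : ℝ) : ℂ) * I := by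
          push_cast; ring
        rw [this, Complex.norm_exp_ofReal_mul_I]
      rw [this, norm_pow, Complex.norm_real, Real.norm_eq_abs, abs_of_nonneg hr, mul_one]
    · exact Eventually.of_forall (fun θ _ => ha)
    · exact intervalIntegrable_const
    · refine Eventually.of_forall (fun θ _ => ?_)
      refine (Summable.hasSum ?_)
      refine Summable.of_norm_bounded ha (fun n => ?_)
      rw [norm_mul, norm_mul]
      have : ‖cexp (((n - m : ℤ) : ℂ) * θ * I)‖ = 1 := by
        have : (((n - m : ℤ) : ℂ) * θ * I) = ((((n - m : ℤ) : ℝ) * θ : ℝ) : ℂ) * I := by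
          push_cast; ring
        rw [this, Complex.norm_exp_ofReal_mul_I]
      rw [this, norm_pow, Complex.norm_real, Real.norm_eq_abs, abs_of_nonneg hr, mul_one]
  rw [← h2.tsum_eq]
  have h3 : ∀ n : ℕ, ∫ θ in (0 : ℝ)..2 * π, a n * r ^ n * cexp (((n - m : ℤ) : ℂ) * θ * I) =
      if n = m then 2 * π * (a m * r ^ m) else 0 := by
    intro n
    rw [intervalIntegral.integral_const_mul, integral_exp_int]
    split_ifs with h4 h5 h5
    · subst h5; push_cast; ring
    · exfalso; apply h5; omega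
    · exfalso; apply h4; omega
    · simp
  simp_rw [h3]
  rw [tsum_ite_eq]

lemma continuous_powerSeries_circle (a : ℕ → ℂ) (r : ℝ) (hr : 0 ≤ r)
    (ha : Summable fun n => ‖a n‖ * r ^ n) :
    Continuous fun θ : ℝ => ∑' n, a n * (r * cexp (θ * I)) ^ n := by
  refine continuous_tsum (fun n => by fun_prop) ha (fun n θ => ?_)
  rw [norm_mul, norm_pow, norm_mul, Complex.norm_exp_ofReal_mul_I, Complex.norm_real,
    Real.norm_eq_abs, abs_of_nonneg hr, mul_one]

/-- **Parseval's identity** for power series on circles. -/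
theorem parseval (a : ℕ → ℂ) (r : ℝ) (hr : 0 ≤ r) (ha : Summable fun n => ‖a n‖ * r ^ n) :
    HasSum (fun n => ‖a n‖ ^ 2 * r ^ (2 * n))
      ((2 * π)⁻¹ * ∫ θ in (0 : ℝ)..2 * π, ‖∑' n, a n * (r * cexp (θ * I)) ^ n‖ ^ 2) := by
  set g : ℝ → ℂ := fun θ => ∑' n, a n * (r * cexp (θ * I)) ^ n with hg
  have hgc : Continuous g := continuous_powerSeries_circle a r hr ha
  -- bound of g
  have hgb : ∀ θ, ‖g θ‖ ≤ ∑' n, ‖a n‖ * r ^ n := by
    intro θ
    refine tsum_of_norm_bounded ha.hasSum (fun n => ?_)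
    rw [norm_mul, norm_pow, norm_mul, Complex.norm_exp_ofReal_mul_I, Complex.norm_real,
      Real.norm_eq_abs, abs_of_nonneg hr, mul_one]
  set G := ∑' n, ‖a n‖ * r ^ n with hG
  have hterm : ∀ (n : ℕ) (θ : ℝ), ‖conj (a n) * r ^ n * (g θ * cexp (-(n * θ * I)))‖ ≤
      (‖a n‖ * r ^ n) * G := by
    intro n θ
    rw [norm_mul, norm_mul, norm_mul, RCLike.norm_conj, norm_pow, Complex.norm_real,
      Real.norm_eq_abs, abs_of_nonneg hr]
    have : ‖cexp (-(n * θ * I))‖ = 1 := by
      have : (-((n : ℂ) * θ * I)) = ((-((n : ℝ) * θ) : ℝ) : ℂ) * I := by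
        push_cast; ring
      rw [this, Complex.norm_exp_ofReal_mul_I]
    rw [this, mul_one]
    gcongr
    exact hgb θ
  have h2 : HasSum (fun n : ℕ => ∫ θ in (0 : ℝ)..2 * π,
      conj (a n) * r ^ n * (g θ * cexp (-(n * θ * I))))
      (∫ θ in (0 : ℝ)..2 * π, ((‖g θ‖ ^ 2 : ℝ) : ℂ)) := by
    refine intervalIntegral.hasSum_integral_of_dominated_convergence
      (fun n _ => (‖a n‖ * r ^ n) * G) ?_ ?_ ?_ ?_ ?_
    · intro n
      exact Continuous.aestronglyMeasurable (by fun_prop)
    · intro n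
      exact Eventually.of_forall (fun θ _ => hterm n θ)
    · exact Eventually.of_forall (fun θ _ => ha.mul_right G)
    · exact intervalIntegrable_const
    · refine Eventually.of_forall (fun θ _ => ?_)
      have h3 : HasSum (fun n => a n * (r * cexp (θ * I)) ^ n) (g θ) := by
        refine Summable.hasSum (Summable.of_norm_bounded ha (fun n => ?_))
        rw [norm_mul, norm_pow, norm_mul, Complex.norm_exp_ofReal_mul_I, Complex.norm_real,
          Real.norm_eq_abs, abs_of_nonneg hr, mul_one]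
      have h4 := (h3.map (starRingEnd ℂ) Complex.continuous_conj).mul_left (g θ)
      have h5 : g θ * conj (g θ) = ((‖g θ‖ ^ 2 : ℝ) : ℂ) := by
        rw [Complex.mul_conj, Complex.normSq_eq_norm_sq]
      rw [h5] at h4
      refine h4.congr_fun (fun n => ?_)
      simp only [Function.comp_apply, map_mul, map_pow, Complex.conj_ofReal]
      rw [← Complex.exp_conj, mul_pow, ← Complex.exp_nat_mul]
      simp only [map_mul, Complex.conj_ofReal, conj_I]
      have : -((n : ℂ) * θ * I) = n * (θ * -I) := by ring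
      rw [this]
      ring
  have h3 : ∀ n : ℕ, ∫ θ in (0 : ℝ)..2 * π,
      conj (a n) * r ^ n * (g θ * cexp (-(n * θ * I))) =
      ((2 * π * (‖a n‖ ^ 2 * r ^ (2 * n)) : ℝ) : ℂ) := by
    intro n
    rw [intervalIntegral.integral_const_mul, integral_powerSeries_mul_exp a r hr ha n]
    have : conj (a n) * a n = ((‖a n‖ ^ 2 : ℝ) : ℂ) := by
      rw [mul_comm, Complex.mul_conj, Complex.normSq_eq_norm_sq]
    push_cast at this ⊢
    rw [← this]
    ring
  simp_rw [h3] at h2
  rw [intervalIntegral.integral_ofReal] at h2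
  have h4 := (Complex.hasSum_ofReal.1 h2).mul_left ((2 * π)⁻¹)
  refine h4.congr_fun (fun n => ?_)
  have : (2 * π) ≠ 0 := by positivity
  field_simp

end Pool.Agent.Pa5725d
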