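import Mathlib
import Pool.Agent.Lib.Pa5725d.Parseval

/-!
# The Hardy space `H²` of the unit disc
-/

set_option autoImplicit false

open Complex Metric MeasureTheory Filter Topology Set
open scoped Real ComplexConjugate InnerProductSpace ENNReal

namespace Pool.Agent.Pa5725d

/-- The Hardy space `H²` of the unit disc, realised as the space of square summable sequences
of Taylor coefficients, with `‖f‖² = ∑ |f n|²`. -/
abbrev H2 : Type := lp (fun _ : ℕ => ℂ) 2

/-- The value `f(z) = ∑ f_n z^n` of `f ∈ H²` at a point `z` of the unit disc. -/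
noncomputable def ev (f : H2) (z : ℂ) : ℂ := ∑' n, f n * z ^ n

lemma norm_coeff_le (f : H2) (n : ℕ) : ‖f n‖ ≤ ‖f‖ := lp.norm_apply_le_norm (by norm_num) f n

lemma summable_norm_sq (f : H2) : Summable fun n => ‖f n‖ ^ 2 := by
  have := (lp.memℓp f).summable (by norm_num)
  simpa using this

lemma norm_sq_eq_tsum (f : H2) : ‖f‖ ^ 2 = ∑' n, ‖f n‖ ^ 2 := by
  have := lp.norm_rpow_eq_tsum (p := 2) (by norm_num) f
  simpa using this

/-- Element of `H²` with given coefficients. -/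
noncomputable def ofCoeff (a : ℕ → ℂ) (h : Summable fun n => ‖a n‖ ^ 2) : H2 :=
  ⟨a, memℓp_gen (by simpa using h)⟩

@[simp] lemma ofCoeff_apply (a : ℕ → ℂ) (h : Summable fun n => ‖a n‖ ^ 2) (n : ℕ) :
    (ofCoeff a h) n = a n := rfl

lemma summable_coeff_mul_pow (f : H2) {r : ℝ} (hr0 : 0 ≤ r) (hr1 : r < 1) :
    Summable fun n => ‖f n‖ * r ^ n := by
  refine Summable.of_nonneg_of_le (fun n => by positivity) (fun n => ?_)
    ((summable_geometric_of_lt_one hr0 hr1).mul_left ‖f‖)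
  gcongr
  exact norm_coeff_le f n

lemma hasSum_ev (f : H2) {z : ℂ} (hz : ‖z‖ < 1) : HasSum (fun n => f n * z ^ n) (ev f z) := by
  refine Summable.hasSum (Summable.of_norm_bounded
    (summable_coeff_mul_pow f (norm_nonneg z) hz) (fun n => ?_))
  rw [norm_mul, norm_pow]

lemma ev_add (f g : H2) {z : ℂ} (hz : ‖z‖ < 1) : ev (f + g) z = ev f z + ev g z := by
  have := (hasSum_ev f hz).add (hasSum_ev g hz)
  refine HasSum.unique (hasSum_ev (f + g) hz) (this.congr_fun (fun n => ?_))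
  rw [lp.coeFn_add]
  simp only [Pi.add_apply]
  ring

lemma ev_smul (c : ℂ) (f : H2) {z : ℂ} (hz : ‖z‖ < 1) : ev (c • f) z = c * ev f z := by
  have := (hasSum_ev f hz).mul_left c
  refine HasSum.unique (hasSum_ev (c • f) hz) (this.congr_fun (fun n => ?_))
  rw [lp.coeFn_smul]
  simp only [Pi.smul_apply, smul_eq_mul]
  ring

/-- `ev f` is holomorphic on the disc. -/
lemma differentiableOn_ev (f : H2) : DifferentiableOn ℂ (ev f) (ball 0 1) := by
  intro z hz
  rw [mem_ball_zero_iff] at hz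
  obtain ⟨r, hzr, hr1⟩ := exists_between hz
  have hr0 : 0 ≤ r := (norm_nonneg z).trans hzr.le
  have : DifferentiableOn ℂ (ev f) (ball 0 r) := by
    refine differentiableOn_tsum_of_summable_norm (summable_coeff_mul_pow f hr0 hr1)
      (fun n => by fun_prop) isOpen_ball (fun n w hw => ?_)
    rw [norm_mul, norm_pow]
    rw [mem_ball_zero_iff] at hw
    gcongr
  exact (this.differentiableAt (isOpen_ball.mem_nhds (by simpa using hzr))).differentiableWithinAt

/-- Parseval for `H²`. -/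
lemma hasSum_parseval (f : H2) {r : ℝ} (hr0 : 0 ≤ r) (hr1 : r < 1) :
    HasSum (fun n => ‖f n‖ ^ 2 * r ^ (2 * n))
      ((2 * π)⁻¹ * ∫ θ in (0 : ℝ)..2 * π, ‖ev f (r * cexp (θ * I))‖ ^ 2) :=
  parseval (fun n => f n) r hr0 (summable_coeff_mul_pow f hr0 hr1)

lemma integral_norm_ev_sq_le (f : H2) {r : ℝ} (hr0 : 0 ≤ r) (hr1 : r < 1) :
    (2 * π)⁻¹ * ∫ θ in (0 : ℝ)..2 * π, ‖ev f (r * cexp (θ * I))‖ ^ 2 ≤ ‖f‖ ^ 2 := by
  rw [norm_sq_eq_tsum]
  refine hasSum_le (fun n => ?_) (hasSum_parseval f hr0 hr1) (summable_norm_sq f).hasSum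
  have : r ^ (2 * n) ≤ 1 := pow_le_one₀ hr0 hr1.le
  nlinarith [sq_nonneg ‖f n‖]

/-- A function in `H²` is determined by its values. -/
lemma ev_injective {f g : H2} (h : ∀ z : ℂ, ‖z‖ < 1 → ev f z = ev g z) : f = g := by
  have h0 : ∀ z : ℂ, ‖z‖ < 1 → ev (f - g) z = 0 := by
    intro z hz
    have : f - g = f + (-1 : ℂ) • g := by simp [sub_eq_add_neg]
    rw [this, ev_add _ _ hz, ev_smul _ _ hz, h z hz]
    ring
  have h1 := hasSum_parseval (f - g) (r := 1 / 2) (by norm_num) (by norm_num)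
  have h2 : ∀ θ : ℝ, ‖ev (f - g) (((1 / 2 : ℝ) : ℂ) * cexp (θ * I))‖ ^ 2 = 0 := by
    intro θ
    rw [h0]
    · simp
    · rw [norm_mul, Complex.norm_exp_ofReal_mul_I, Complex.norm_real]
      norm_num
  simp_rw [h2] at h1
  simp only [intervalIntegral.integral_zero, mul_zero] at h1
  have h3 := (hasSum_zero_iff_of_nonneg (fun n => by positivity)).1 h1
  rw [← sub_eq_zero]
  apply lp.ext
  funext n
  have h4 := congrFun h3 n
  simp only [Pi.zero_apply, mul_eq_zero, pow_eq_zero_iff', norm_eq_zero] at h4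
  rcases h4 with h4 | h4
  · simpa using h4.1
  · norm_num at h4

/-- Membership in `H²` by bounded integral means. -/
theorem exists_H2_of_integral_le {g : ℂ → ℂ} (hg : DifferentiableOn ℂ g (ball 0 1)) {M : ℝ}
    (hM : ∀ r : ℝ, 0 ≤ r → r < 1 →
      (2 * π)⁻¹ * ∫ θ in (0 : ℝ)..2 * π, ‖g (r * cexp (θ * I))‖ ^ 2 ≤ M) :
    ∃ f : H2, (∀ z : ℂ, ‖z‖ < 1 → ev f z = g z) ∧ ‖f‖ ^ 2 ≤ M := by
  set a : ℕ → ℂ := fun n => (n.factorial : ℂ)⁻¹ * iteratedDeriv n g 0 with ha
  have hsum : ∀ z : ℂ, ‖z‖ < 1 → HasSum (fun n => a n * z ^ n) (g z) := by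
    intro z hz
    have := Complex.hasSum_taylorSeries_on_ball hg (z := z) (by simpa using hz)
    refine this.congr_fun (fun n => ?_)
    simp only [ha, sub_zero, smul_eq_mul]
    ring
  have hsummable : ∀ r : ℝ, 0 ≤ r → r < 1 → Summable fun n => ‖a n‖ * r ^ n := by
    intro r hr0 hr1
    have := (hsum (r : ℂ) (by rw [Complex.norm_real, Real.norm_eq_abs, abs_of_nonneg hr0]; exact hr1)).summable.norm
    refine this.congr (fun n => ?_)
    rw [norm_mul, norm_pow, Complex.norm_real, Real.norm_eq_abs, abs_of_nonneg hr0]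
  have hpars : ∀ r : ℝ, 0 ≤ r → r < 1 → ∀ K : ℕ,
      ∑ n ∈ Finset.range K, ‖a n‖ ^ 2 * r ^ (2 * n) ≤ M := by
    intro r hr0 hr1 K
    have h1 := parseval a r hr0 (hsummable r hr0 hr1)
    have h2 : ∀ θ : ℝ, ∑' n, a n * (r * cexp (θ * I)) ^ n = g (r * cexp (θ * I)) := by
      intro θ
      refine (hsum _ ?_).tsum_eq
      rw [norm_mul, Complex.norm_exp_ofReal_mul_I, Complex.norm_real, Real.norm_eq_abs,
        abs_of_nonneg hr0, mul_one]
      exact hr1
    simp_rw [h2] at h1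
    exact (sum_le_hasSum _ (fun n _ => by positivity) h1).trans (hM r hr0 hr1)
  have hpars1 : ∀ K : ℕ, ∑ n ∈ Finset.range K, ‖a n‖ ^ 2 ≤ M := by
    intro K
    have hc : Tendsto (fun r : ℝ => ∑ n ∈ Finset.range K, ‖a n‖ ^ 2 * r ^ (2 * n)) (𝓝[<] 1)
        (𝓝 (∑ n ∈ Finset.range K, ‖a n‖ ^ 2 * (1 : ℝ) ^ (2 * n))) := by
      refine Tendsto.mono_left ?_ nhdsWithin_le_nhds
      exact Continuous.tendsto (by fun_prop) 1
    simp only [one_pow, mul_one] at hc
    refine le_of_tendsto hc ?_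
    filter_upwards [Ioo_mem_nhdsLT (show (0 : ℝ) < 1 by norm_num)] with r hr
    exact hpars r hr.1.le hr.2 K
  have hsq : Summable fun n => ‖a n‖ ^ 2 :=
    summable_of_sum_range_le (fun n => by positivity) hpars1
  refine ⟨ofCoeff a hsq, ?_, ?_⟩
  · intro z hz
    exact (hsum z hz).tsum_eq
  · rw [norm_sq_eq_tsum]
    simp only [ofCoeff_apply]
    exact hsq.tsum_le_of_sum_range_le hpars1

end Pool.Agent.Pa5725d
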