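import Mathlib
import Pool.Agent.Lib.Pa5725d.Hardy

/-!
# The shift operator on `H²`
-/

set_option autoImplicit false

open Complex Metric MeasureTheory Filter Topology Set
open scoped Real ComplexConjugate InnerProductSpace ENNReal

namespace Pool.Agent.Pa5725d

/-- Taylor coefficients of `z f(z)`. -/
def shiftFun (a : ℕ → ℂ) : ℕ → ℂ
  | 0 => 0
  | n + 1 => a n

lemma summable_shiftFun (f : H2) : Summable fun n => ‖shiftFun f n‖ ^ 2 := by
  rw [← summable_nat_add_iff 1]
  exact summable_norm_sq f

/-- Multiplication by `z` on `H²`, in terms of Taylor coefficients. -/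
noncomputable def Mz : H2 →L[ℂ] H2 :=
  LinearMap.mkContinuous
    { toFun := fun f => ofCoeff (shiftFun f) (summable_shiftFun f)
      map_add' := by
        intro f g
        apply lp.ext
        funext n
        cases n <;> simp [shiftFun]
      map_smul' := by
        intro c f
        apply lp.ext
        funext n
        cases n <;> simp [shiftFun] } 1 (by
    intro f
    rw [one_mul]
    refine le_of_sq_le_sq ?_ (norm_nonneg _)
    simp only [LinearMap.coe_mk, AddHom.coe_mk]
    rw [norm_sq_eq_tsum, norm_sq_eq_tsum]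
    simp only [ofCoeff_apply]
    rw [(summable_shiftFun f).tsum_eq_zero_add]
    simp [shiftFun])

lemma Mz_zero (f : H2) : (Mz f) 0 = 0 := rfl

lemma Mz_succ (f : H2) (n : ℕ) : (Mz f) (n + 1) = f n := rfl

/-- `M_z` is multiplication by `z`. -/
lemma ev_Mz (f : H2) {z : ℂ} (hz : ‖z‖ < 1) : ev (Mz f) z = z * ev f z := by
  have h1 := (hasSum_ev (Mz f) hz)
  have h2 : HasSum (fun n => (Mz f) (n + 1) * z ^ (n + 1)) (z * ev f z) := by
    refine ((hasSum_ev f hz).mul_left z).congr_fun (fun n => ?_)
    rw [Mz_succ]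
    ring
  have h3 := (hasSum_nat_add_iff' (f := fun n => (Mz f) n * z ^ n) 1).2 h1
  simp only [Finset.range_one, Finset.sum_singleton, Mz_zero, zero_mul, sub_zero] at h3
  exact h3.unique h2

/-- basis vectors `z ^ k` -/
noncomputable def mono (k : ℕ) : H2 := lp.single 2 k (1 : ℂ)

lemma mono_apply (k n : ℕ) : (mono k) n = if n = k then 1 else 0 := by
  unfold mono
  rw [lp.single_apply]
  by_cases h : n = k
  · subst h; simp
  · simp [h]

lemma inner_mono (k : ℕ) (f : H2) : ⟪mono k, f⟫_ℂ = f k := by
  unfold mono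
  rw [lp.inner_single_left]
  simp

lemma ev_mono (k : ℕ) {z : ℂ} (hz : ‖z‖ < 1) : ev (mono k) z = z ^ k := by
  refine (hasSum_ev (mono k) hz).unique ?_
  have : (fun n => (mono k) n * z ^ n) = fun n => if n = k then z ^ k else 0 := by
    funext n
    rw [mono_apply]
    split_ifs with h
    · subst h; simp
    · simp
  rw [this]
  exact hasSum_ite_eq k _

lemma norm_mono (k : ℕ) : ‖mono k‖ = 1 := by
  unfold mono
  rw [lp.norm_single (by norm_num)]
  simp

lemma Mz_mono (k : ℕ) : Mz (mono k) = mono (k + 1) := by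
  apply lp.ext
  funext n
  cases n with
  | zero => rw [Mz_zero, mono_apply]; simp
  | succ n => rw [Mz_succ, mono_apply, mono_apply]; simp

lemma Mz_pow_mono (n k : ℕ) : (Mz ^ n) (mono k) = mono (n + k) := by
  induction n with
  | zero => simp
  | succ n ih =>
    rw [pow_succ', mul_apply_eq_comp, ih, Mz_mono, show n + k + 1 = n + 1 + k by ring]

lemma adjoint_Mz_apply (f : H2) (n : ℕ) : (ContinuousLinearMap.adjoint Mz f) n = f (n + 1) := by
  rw [← inner_mono, ContinuousLinearMap.adjoint_inner_right, Mz_mono, inner_mono]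

lemma adjoint_Mz_pow_apply (f : H2) (m n : ℕ) :
    (((ContinuousLinearMap.adjoint Mz) ^ m) f) n = f (n + m) := by
  induction m generalizing n with
  | zero => simp
  | succ m ih =>
    rw [pow_succ', mul_apply_eq_comp, adjoint_Mz_apply, ih, show n + 1 + m = n + (m + 1) by ring]

/-- polynomials are dense -/
lemma dense_span_mono : (Submodule.span ℂ (Set.range mono)).topologicalClosure = ⊤ := by
  rw [Submodule.topologicalClosure_eq_top_iff, Submodule.eq_bot_iff]
  intro f hf
  apply lp.ext
  funext n
  rw [← inner_mono]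
  simpa using (Submodule.mem_orthogonal _ f).1 hf (mono n) (Submodule.subset_span ⟨n, rfl⟩)

lemma norm_Mz_le : ‖Mz‖ ≤ 1 := LinearMap.mkContinuous_norm_le _ zero_le_one _

end Pool.Agent.Pa5725d
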