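import Mathlib
import Pool.Agent.Lib.Pa5725d.Shift

/-!
# Littlewood's subordination theorem: composition operators are bounded on `H²`
-/

set_option autoImplicit false

open Complex Metric MeasureTheory Filter Topology Set
open scoped Real ComplexConjugate InnerProductSpace ENNReal

namespace Pool.Agent.Pa5725d

lemma poissonKernel_nonneg {w ζ : ℂ} {ρ : ℝ} (hw : ‖w‖ < ρ) (hζ : ‖ζ‖ = ρ) :
    0 ≤ poissonKernel 0 w ζ := by
  rw [poissonKernel_def]
  simp only [sub_zero]
  apply div_nonneg _ (by positivity)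
  rw [hζ]
  have := norm_nonneg w
  nlinarith

lemma continuousOn_poissonKernel {w : ℂ} {ρ : ℝ} (hw : ‖w‖ < ρ) :
    ContinuousOn (poissonKernel 0 w) (sphere 0 |ρ|) := by
  rw [poissonKernel_eq_re_herglotzRieszKernel]
  exact Complex.continuous_re.comp_continuousOn
    (continuousOn_herglotzRieszKernel_sphere (by simpa using hw))

/-- subharmonicity of `|f|²` -/
lemma norm_sq_le_poisson {f : ℂ → ℂ} {ρ : ℝ} (hρ : 0 < ρ)
    (hf : DiffContOnCl ℂ f (ball 0 ρ)) {w : ℂ} (hw : ‖w‖ < ρ) :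
    ‖f w‖ ^ 2 ≤ Real.circleAverage (fun ζ => poissonKernel 0 w ζ * ‖f ζ‖ ^ 2) 0 ρ := by
  have h1 : DiffContOnCl ℂ (fun z => f z ^ 2) (ball 0 ρ) := by
    have := hf.smul hf
    simpa [sq, smul_eq_mul, Pi.mul_def] using this
  have h2 := h1.circleAverage_poissonKernel_smul (w := w) (by simpa using hw)
  have h3 : ‖f w‖ ^ 2 = ‖f w ^ 2‖ := by rw [norm_pow]
  rw [h3, ← h2]
  unfold Real.circleAverage
  rw [norm_smul, Real.norm_eq_abs, abs_of_pos (by positivity), smul_eq_mul]
  gcongr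
  refine (intervalIntegral.norm_integral_le_integral_norm (by positivity)).trans ?_
  apply le_of_eq
  congr 1
  funext θ
  simp only [Pi.smul_apply']
  rw [norm_smul, norm_pow, Real.norm_eq_abs, abs_of_nonneg]
  exact poissonKernel_nonneg hw (by simp [abs_of_pos hρ])

lemma circleMap_zero_eq (r θ : ℝ) : circleMap 0 r θ = r * cexp (θ * I) := by
  simp [circleMap]

lemma circleAverage_eq' (g : ℂ → ℝ) (r : ℝ) :
    Real.circleAverage g 0 r = (2 * π)⁻¹ * ∫ θ in (0 : ℝ)..2 * π, g (r * cexp (θ * I)) := by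
  rw [Real.circleAverage_def, smul_eq_mul]
  simp_rw [circleMap_zero_eq]

theorem littlewood_bound (f : H2) {φ : ℂ → ℂ} (hφ : DifferentiableOn ℂ φ (ball 0 1))
    (hmaps : MapsTo φ (ball 0 1) (ball 0 1)) {r : ℝ} (hr0 : 0 ≤ r) (hr1 : r < 1) :
    (2 * π)⁻¹ * ∫ θ in (0 : ℝ)..2 * π, ‖ev f (φ (r * cexp (θ * I)))‖ ^ 2 ≤
      (2 * (1 + ‖φ 0‖) / (1 - ‖φ 0‖)) * ‖f‖ ^ 2 := by
  have ha : ‖φ 0‖ < 1 := by simpa using hmaps (show (0 : ℂ) ∈ ball 0 1 by simp)
  have hsub : closedBall (0 : ℂ) r ⊆ ball 0 1 := closedBall_subset_ball hr1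
  -- compactness of the image
  obtain ⟨ρ₀, hρ₀, hρ₀'⟩ : ∃ ρ₀ < 1, ∀ z ∈ closedBall (0 : ℂ) r, ‖φ z‖ ≤ ρ₀ := by
    obtain ⟨z₀, hz₀, hmax⟩ := (isCompact_closedBall (0 : ℂ) r).exists_isMaxOn
      ⟨0, by simp [hr0]⟩ ((hφ.continuousOn.mono hsub).norm)
    exact ⟨‖φ z₀‖, by simpa using hmaps (hsub hz₀), fun z hz => hmax hz⟩
  set ρ : ℝ := max ((1 + ρ₀) / 2) ((1 + ‖φ 0‖) / 2) with hρdef
  have hρ1 : ρ < 1 := by
    rw [hρdef, max_lt_iff]; constructor <;> linarith
  have hρ0 : 0 < ρ := lt_of_lt_of_le (by positivity) (le_max_right _ _)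
  have hρρ₀ : ρ₀ < ρ := lt_of_lt_of_le (by linarith) (le_max_left _ _)
  have hρa : (1 + ‖φ 0‖) / 2 ≤ ρ := le_max_right _ _
  have haρ : ‖φ 0‖ < ρ := by linarith
  have hf : DiffContOnCl ℂ (ev f) (ball 0 ρ) := by
    apply DifferentiableOn.diffContOnCl
    rw [closure_ball _ hρ0.ne']
    exact (differentiableOn_ev f).mono (closedBall_subset_ball hρ1)
  have hfc : ContinuousOn (fun ζ => ‖ev f ζ‖ ^ 2) (sphere 0 ρ) := by
    have := ((differentiableOn_ev f).continuousOn.mono (closedBall_subset_ball hρ1)).mono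
      (sphere_subset_closedBall)
    exact this.norm.pow 2
  have hci : CircleIntegrable (fun ζ => ‖ev f ζ‖ ^ 2) 0 ρ := hfc.circleIntegrable hρ0.le
  have hciC : CircleIntegrable (fun ζ => ((‖ev f ζ‖ ^ 2 : ℝ) : ℂ)) 0 ρ := by
    refine ContinuousOn.circleIntegrable hρ0.le ?_
    exact Complex.continuous_ofReal.comp_continuousOn hfc
  set V : ℂ → ℂ := fun w => Real.circleAverage
    (fun ζ => herglotzRieszKernel 0 w ζ • ((‖ev f ζ‖ ^ 2 : ℝ) : ℂ)) 0 ρ with hV
  have hVd : DifferentiableOn ℂ V (ball 0 ρ) :=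
    differentiableOn_circleAverage_herglotzRieszKernel_smul hciC
  have hVre : ∀ w ∈ ball (0 : ℂ) ρ, (V w).re =
      Real.circleAverage (fun ζ => poissonKernel 0 w ζ * ‖ev f ζ‖ ^ 2) 0 ρ := by
    intro w hw
    rw [hV]
    simp only
    rw [re_circleAverage_herglotzRieszKernel_smul hci hw, poissonKernel_eq_re_herglotzRieszKernel]
    rfl
  -- the composition
  have hmapsr : MapsTo φ (closedBall 0 r) (ball 0 ρ) := by
    intro z hz
    rw [mem_ball_zero_iff]
    exact (hρ₀' z hz).trans_lt hρρ₀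
  have hcompd : DifferentiableOn ℂ (V ∘ φ) (closedBall 0 r) :=
    hVd.comp (hφ.mono hsub) hmapsr
  have hcomp : DiffContOnCl ℂ (V ∘ φ) (ball 0 |r|) := by
    apply DifferentiableOn.diffContOnCl
    refine hcompd.mono ?_
    rw [abs_of_nonneg hr0]
    exact closure_ball_subset_closedBall
  have hmean : Real.circleAverage (V ∘ φ) 0 r = V (φ 0) := hcomp.circleAverage
  have hcompci : CircleIntegrable (V ∘ φ) 0 r := by
    refine ContinuousOn.circleIntegrable hr0 ?_
    exact hcompd.continuousOn.mono sphere_subset_closedBall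
  have hmean_re : Real.circleAverage (fun z => (V (φ z)).re) 0 r = (V (φ 0)).re := by
    rw [← hmean]
    exact Complex.reCLM.circleAverage_comp_comm hcompci
  have h1 : Real.circleAverage (fun z => ‖ev f (φ z)‖ ^ 2) 0 r ≤
      Real.circleAverage (fun z => (V (φ z)).re) 0 r := by
    refine Real.circleAverage_mono ?_ ?_ ?_
    · refine ContinuousOn.circleIntegrable hr0 ?_
      have : ContinuousOn (fun z => ev f (φ z)) (closedBall 0 r) :=
        (differentiableOn_ev f).continuousOn.comp (hφ.continuousOn.mono hsub)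
          (fun z hz => hmaps (hsub hz))
      exact (this.mono sphere_subset_closedBall).norm.pow 2
    · refine ContinuousOn.circleIntegrable hr0 ?_
      exact Complex.continuous_re.comp_continuousOn
        (hcompd.continuousOn.mono sphere_subset_closedBall)
    · intro z hz
      have hz' : z ∈ closedBall (0 : ℂ) r := by
        rw [abs_of_nonneg hr0] at hz
        exact sphere_subset_closedBall hz
      rw [hVre _ (hmapsr hz')]
      exact norm_sq_le_poisson hρ0 hf (by simpa using hmapsr hz')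
  have h2 : (V (φ 0)).re ≤ ((ρ + ‖φ 0‖) / (ρ - ‖φ 0‖)) *
      Real.circleAverage (fun ζ => ‖ev f ζ‖ ^ 2) 0 ρ := by
    rw [hVre _ (by simpa using haρ), ← smul_eq_mul, ← Real.circleAverage_fun_smul]
    refine Real.circleAverage_mono ?_ ?_ ?_
    · refine ContinuousOn.circleIntegrable hρ0.le ?_
      refine ContinuousOn.mul ?_ hfc
      have := continuousOn_poissonKernel haρ
      rwa [abs_of_pos hρ0] at this
    · refine ContinuousOn.circleIntegrable hρ0.le ?_
      simp only [smul_eq_mul]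
      exact continuousOn_const.mul hfc
    · intro ζ hζ
      rw [abs_of_pos hρ0] at hζ
      rw [smul_eq_mul]
      gcongr
      have := re_herglotzRieszKernel_le hζ (w := φ 0) (by simpa using haρ)
      rw [poissonKernel_eq_re_herglotzRieszKernel, Function.comp_apply, herglotzRieszKernel_def]
      simpa using this
  have h3 : Real.circleAverage (fun ζ => ‖ev f ζ‖ ^ 2) 0 ρ ≤ ‖f‖ ^ 2 := by
    rw [circleAverage_eq']
    exact integral_norm_ev_sq_le f hρ0.le hρ1
  have h4 : (ρ + ‖φ 0‖) / (ρ - ‖φ 0‖) ≤ 2 * (1 + ‖φ 0‖) / (1 - ‖φ 0‖) := by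
    rw [div_le_div_iff₀ (by linarith) (by linarith)]
    have := norm_nonneg (φ 0)
    nlinarith
  rw [circleAverage_eq'] at h1
  calc _ ≤ _ := h1
    _ = (V (φ 0)).re := hmean_re
    _ ≤ _ := h2
    _ ≤ (2 * (1 + ‖φ 0‖) / (1 - ‖φ 0‖)) * ‖f‖ ^ 2 := by
      have : 0 ≤ Real.circleAverage (fun ζ => ‖ev f ζ‖ ^ 2) 0 ρ :=
        Real.circleAverage_nonneg_of_nonneg (fun _ _ => by positivity)
      have h5 : 0 ≤ 2 * (1 + ‖φ 0‖) / (1 - ‖φ 0‖) := by
        apply div_nonneg
        · positivity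
        · linarith
      exact mul_le_mul h4 h3 this h5

/-- **Littlewood**: for a holomorphic self-map `φ` of the disc there is a bounded operator `C` of
`H²` with `(C f)(z) = f (φ z)`. -/
theorem exists_compOp {φ : ℂ → ℂ} (hφ : DifferentiableOn ℂ φ (ball 0 1))
    (hmaps : MapsTo φ (ball 0 1) (ball 0 1)) :
    ∃ C : H2 →L[ℂ] H2, ∀ (f : H2) (z : ℂ), ‖z‖ < 1 → ev (C f) z = ev f (φ z) := by
  have ha : ‖φ 0‖ < 1 := by simpa using hmaps (show (0 : ℂ) ∈ ball 0 1 by simp)
  set M : ℝ := 2 * (1 + ‖φ 0‖) / (1 - ‖φ 0‖) with hM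
  have hM0 : 0 ≤ M := by
    apply div_nonneg
    · positivity
    · linarith
  have hex : ∀ f : H2, ∃ g : H2, (∀ z : ℂ, ‖z‖ < 1 → ev g z = ev f (φ z)) ∧
      ‖g‖ ^ 2 ≤ M * ‖f‖ ^ 2 := by
    intro f
    refine exists_H2_of_integral_le (g := fun z => ev f (φ z)) ?_ ?_
    · exact (differentiableOn_ev f).comp hφ hmaps
    · intro r hr0 hr1
      exact littlewood_bound f hφ hmaps hr0 hr1
  choose g hg1 hg2 using hex
  have hmapsn : ∀ z : ℂ, ‖z‖ < 1 → ‖φ z‖ < 1 := by
    intro z hz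
    simpa using hmaps (show z ∈ ball 0 1 by simpa using hz)
  let L : H2 →ₗ[ℂ] H2 :=
    { toFun := g
      map_add' := by
        intro f₁ f₂
        apply ev_injective
        intro z hz
        rw [hg1 _ z hz, ev_add _ _ hz, hg1 _ z hz, hg1 _ z hz, ev_add _ _ (hmapsn z hz)]
      map_smul' := by
        intro c f
        apply ev_injective
        intro z hz
        simp only [RingHom.id_apply]
        rw [hg1 _ z hz, ev_smul _ _ hz, hg1 _ z hz, ev_smul _ _ (hmapsn z hz)] }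
  refine ⟨L.mkContinuous (Real.sqrt M) ?_, ?_⟩
  · intro f
    refine le_of_sq_le_sq ?_ (by positivity)
    rw [mul_pow, Real.sq_sqrt hM0]
    exact hg2 f
  · intro f z hz
    exact hg1 f z hz

end Pool.Agent.Pa5725d
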