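import Mathlib

/-!
# The Schwarz-Pick inequality and the radial Julia quotient
-/

set_option autoImplicit false

open Complex Metric MeasureTheory Filter Topology Set
open scoped Real ComplexConjugate

namespace Pool.Agent.Pa5725d

lemma normSq_identity (b y : ℂ) :
    ‖1 - conj b * y‖ ^ 2 - ‖y - b‖ ^ 2 = (1 - ‖b‖ ^ 2) * (1 - ‖y‖ ^ 2) := by
  simp only [← Complex.normSq_eq_norm_sq, Complex.normSq_apply]
  simp
  ring

lemma one_sub_conj_mul_ne_zero {b y : ℂ} (hb : ‖b‖ < 1) (hy : ‖y‖ < 1) : 1 - conj b * y ≠ 0 := by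
  intro h
  have h1 : conj b * y = 1 := (sub_eq_zero.1 h).symm
  have h2 : ‖conj b * y‖ = 1 := by rw [h1]; simp
  rw [norm_mul, RCLike.norm_conj] at h2
  have := mul_lt_one_of_nonneg_of_lt_one_left (norm_nonneg b) hb hy.le
  linarith

lemma norm_moebius_lt_one {b y : ℂ} (hb : ‖b‖ < 1) (hy : ‖y‖ < 1) :
    ‖(y - b) / (1 - conj b * y)‖ < 1 := by
  rw [norm_div, div_lt_one (norm_pos_iff.2 (one_sub_conj_mul_ne_zero hb hy))]
  have h := normSq_identity b y
  have h1 : 0 < (1 - ‖b‖ ^ 2) * (1 - ‖y‖ ^ 2) := by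
    apply mul_pos <;> nlinarith [norm_nonneg b, norm_nonneg y]
  exact lt_of_pow_lt_pow_left₀ 2 (norm_nonneg _) (by linarith)

/-- **Schwarz-Pick** -/
theorem schwarz_pick {φ : ℂ → ℂ} (hφ : DifferentiableOn ℂ φ (ball 0 1))
    (hmaps : MapsTo φ (ball 0 1) (ball 0 1)) {z w : ℂ} (hz : ‖z‖ < 1) (hw : ‖w‖ < 1) :
    (1 - ‖w‖ ^ 2) * (1 - ‖z‖ ^ 2) * ‖1 - conj (φ w) * φ z‖ ^ 2 ≤
      (1 - ‖φ w‖ ^ 2) * (1 - ‖φ z‖ ^ 2) * ‖1 - conj w * z‖ ^ 2 := by
  have hφz : ‖φ z‖ < 1 := by simpa using hmaps (show z ∈ ball 0 1 by simpa using hz)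
  have hφw : ‖φ w‖ < 1 := by simpa using hmaps (show w ∈ ball 0 1 by simpa using hw)
  set τ : ℂ → ℂ := fun x => (x - (-w)) / (1 - conj (-w) * x) with hτ
  set σ : ℂ → ℂ := fun y => (y - φ w) / (1 - conj (φ w) * y) with hσ
  have hnw : ‖-w‖ < 1 := by rwa [norm_neg]
  have hτm : MapsTo τ (ball 0 1) (ball 0 1) := by
    intro x hx
    rw [mem_ball_zero_iff] at hx ⊢
    exact norm_moebius_lt_one hnw hx
  have hσm : MapsTo σ (ball 0 1) (ball 0 1) := by
    intro x hx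
    rw [mem_ball_zero_iff] at hx ⊢
    exact norm_moebius_lt_one hφw hx
  have hτd : DifferentiableOn ℂ τ (ball 0 1) := by
    refine DifferentiableOn.div (by fun_prop) (by fun_prop) (fun x hx => ?_)
    exact one_sub_conj_mul_ne_zero hnw (by simpa using hx)
  have hσd : DifferentiableOn ℂ σ (ball 0 1) := by
    refine DifferentiableOn.div (by fun_prop) (by fun_prop) (fun x hx => ?_)
    exact one_sub_conj_mul_ne_zero hφw (by simpa using hx)
  have hτ0 : τ 0 = w := by simp [hτ]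
  have hψd : DifferentiableOn ℂ (σ ∘ φ ∘ τ) (ball 0 1) :=
    hσd.comp (hφ.comp hτd hτm) (hmaps.comp hτm)
  have hψm : MapsTo (σ ∘ φ ∘ τ) (ball 0 1) (ball 0 1) := hσm.comp (hmaps.comp hτm)
  have hψ0 : (σ ∘ φ ∘ τ) 0 = 0 := by simp [hτ0, hσ]
  set x : ℂ := (z - w) / (1 - conj w * z) with hx
  have hx1 : ‖x‖ < 1 := norm_moebius_lt_one hw hz
  have hd1 : 1 - conj w * z ≠ 0 := one_sub_conj_mul_ne_zero hw hz
  have hτx : τ x = z := by
    have h1 : 1 + conj w * x ≠ 0 := by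
      have := one_sub_conj_mul_ne_zero hnw hx1
      simpa using this
    have h2 : 1 + conj w * x = (1 - conj w * w) / (1 - conj w * z) := by
      rw [hx]; field_simp; ring
    have h3 : 1 - conj w * w ≠ 0 := one_sub_conj_mul_ne_zero hw hw
    have h4 : x + w = (z * (1 - conj w * w)) / (1 - conj w * z) := by
      rw [hx, eq_div_iff hd1, add_mul, div_mul_cancel₀ _ hd1]
      ring
    rw [hτ]
    simp only [sub_neg_eq_add, map_neg, neg_mul]
    rw [h2, h4, div_div_div_cancel_right₀ hd1, mul_div_assoc, div_self h3, mul_one]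
  have key := Complex.norm_le_norm_of_mapsTo_ball hψd (hψm.mono_right ball_subset_closedBall)
    hψ0 hx1
  simp only [Function.comp_apply, hτx] at key
  rw [hσ, hx] at key
  simp only at key
  rw [norm_div, norm_div] at key
  have hd2 : 1 - conj (φ w) * φ z ≠ 0 := one_sub_conj_mul_ne_zero hφw hφz
  have hp1 : 0 < ‖1 - conj w * z‖ := norm_pos_iff.2 hd1
  have hp2 : 0 < ‖1 - conj (φ w) * φ z‖ := norm_pos_iff.2 hd2
  rw [div_le_div_iff₀ hp2 hp1] at key
  have key2 := pow_le_pow_left₀ (by positivity) key 2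
  rw [mul_pow, mul_pow] at key2
  rw [← normSq_identity, ← normSq_identity]
  nlinarith

/-- The radial Julia quotient of `φ` at `ζ`. -/
noncomputable def Q (φ : ℂ → ℂ) (ζ : ℂ) (r : ℝ) : ℝ :=
  ((1 - ‖φ (r * ζ)‖) / (1 + ‖φ (r * ζ)‖)) * ((1 + r) / (1 - r))

lemma norm_ofReal_mul {r : ℝ} {ζ : ℂ} (hr : 0 ≤ r) (hζ : ‖ζ‖ = 1) : ‖(r : ℂ) * ζ‖ = r := by
  rw [norm_mul, hζ, Complex.norm_real, Real.norm_eq_abs, abs_of_nonneg hr, mul_one]

lemma Q_mono {φ : ℂ → ℂ} (hφ : DifferentiableOn ℂ φ (ball 0 1))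
    (hmaps : MapsTo φ (ball 0 1) (ball 0 1)) {ζ : ℂ} (hζ : ‖ζ‖ = 1) :
    MonotoneOn (Q φ ζ) (Ico 0 1) := by
  intro r hr s hs hrs
  have hmapsn : ∀ z : ℂ, ‖z‖ < 1 → ‖φ z‖ < 1 := by
    intro z hz
    simpa using hmaps (show z ∈ ball 0 1 by simpa using hz)
  have hnr : ‖(r : ℂ) * ζ‖ = r := norm_ofReal_mul hr.1 hζ
  have hns : ‖(s : ℂ) * ζ‖ = s := norm_ofReal_mul hs.1 hζ
  have hx1 := hmapsn (r * ζ) (by rw [hnr]; exact hr.2)
  have hy1 := hmapsn (s * ζ) (by rw [hns]; exact hs.2)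
  have h := schwarz_pick hφ hmaps (z := s * ζ) (w := r * ζ) (by rw [hns]; exact hs.2)
    (by rw [hnr]; exact hr.2)
  rw [hnr, hns] at h
  set x := ‖φ (r * ζ)‖ with hx
  set y := ‖φ (s * ζ)‖ with hy
  have hx0 : 0 ≤ x := norm_nonneg _
  have hy0 : 0 ≤ y := norm_nonneg _
  have h1 : ‖1 - conj ((r : ℂ) * ζ) * (s * ζ)‖ = 1 - r * s := by
    have : conj ((r : ℂ) * ζ) * (s * ζ) = ((r * s : ℝ) : ℂ) := by
      rw [map_mul, Complex.conj_ofReal]
      have : conj ζ * ζ = 1 := by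
        rw [mul_comm, Complex.mul_conj, Complex.normSq_eq_norm_sq, hζ]; simp
      calc (r : ℂ) * conj ζ * (s * ζ) = r * s * (conj ζ * ζ) := by ring
        _ = ((r * s : ℝ) : ℂ) := by rw [this]; push_cast; ring
    rw [this, show (1 : ℂ) - ((r * s : ℝ) : ℂ) = ((1 - r * s : ℝ) : ℂ) by push_cast; ring,
      Complex.norm_real, Real.norm_eq_abs, abs_of_nonneg]
    nlinarith [hr.1, hr.2, hs.1, hs.2]
  have h2 : 1 - x * y ≤ ‖1 - conj (φ (r * ζ)) * φ (s * ζ)‖ := by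
    have := norm_sub_norm_le (1 : ℂ) (conj (φ (r * ζ)) * φ (s * ζ))
    rw [norm_mul, RCLike.norm_conj, norm_one] at this
    exact this
  have hxy : 0 < 1 - x * y := by nlinarith
  rw [h1] at h
  have h3 : (1 - r ^ 2) * (1 - s ^ 2) * (1 - x * y) ^ 2 ≤
      (1 - x ^ 2) * (1 - y ^ 2) * (1 - r * s) ^ 2 := by
    refine le_trans ?_ h
    have h0 : 0 ≤ (1 - r ^ 2) * (1 - s ^ 2) := by
      apply mul_nonneg <;> nlinarith [hr.1, hr.2, hs.1, hs.2]
    gcongr
  unfold Q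
  rw [← hx, ← hy, div_mul_div_comm, div_mul_div_comm]
  have hr1 : 0 < 1 - r := by linarith [hr.2]
  have hs1 : 0 < 1 - s := by linarith [hs.2]
  rw [div_le_div_iff₀ (by positivity) (by positivity)]
  -- `A = (1-x)(1+y)`, `B = (1+x)(1-y)`, `a = (1+r)(1-s)`, `b = (1-r)(1+s)`
  set A := (1 - x) * (1 + y) with hA
  set B := (1 + x) * (1 - y) with hB
  set a := (1 + r) * (1 - s) with ha
  set b := (1 - r) * (1 + s) with hb
  have hA0 : 0 < A := mul_pos (by linarith) (by linarith)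
  have hB0 : 0 < B := mul_pos (by linarith) (by linarith)
  have ha0 : 0 < a := mul_pos (by linarith [hr.1]) (by linarith)
  have hb0 : 0 < b := mul_pos (by linarith) (by linarith [hs.1])
  have hab : a ≤ b := by rw [ha, hb]; nlinarith
  have h4 : (A * a - B * b) * (A * b - B * a) ≤ 0 := by
    have e : 4 * ((A * a - B * b) * (A * b - B * a)) =
      4 * (4 * ((1 - r ^ 2) * (1 - s ^ 2) * (1 - x * y) ^ 2 -
      (1 - x ^ 2) * (1 - y ^ 2) * (1 - r * s) ^ 2)) := by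
      rw [hA, hB, ha, hb]; ring
    nlinarith
  suffices A * a ≤ B * b by
    calc (1 - x) * (1 + r) * ((1 + y) * (1 - s)) = A * a := by rw [hA, ha]; ring
      _ ≤ B * b := this
      _ = (1 - y) * (1 + s) * ((1 + x) * (1 - r)) := by rw [hB, hb]; ring
  by_contra hcon
  push Not at hcon
  have h5 : A * b ≤ B * a := by
    by_contra h6
    push Not at h6
    have := mul_pos (sub_pos.2 hcon) (sub_pos.2 h6)
    linarith
  nlinarith

end Pool.Agent.Pa5725d
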