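import Mathlib
import Pool.Agent.Lib.Pa5725d.Littlewood
import Pool.Agent.Lib.Pa5725d.SchwarzPick

/-!
# Fatou's theorem for bounded holomorphic functions
-/

set_option autoImplicit false

open Complex Metric MeasureTheory Filter Topology Set
open scoped Real ComplexConjugate

namespace Pool.Agent.Pa5725d

/-- subharmonicity of `|f|` -/
lemma norm_le_poisson {f : ℂ → ℂ} {ρ : ℝ} (hρ : 0 < ρ)
    (hf : DiffContOnCl ℂ f (ball 0 ρ)) {w : ℂ} (hw : ‖w‖ < ρ) :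
    ‖f w‖ ≤ Real.circleAverage (fun ζ => poissonKernel 0 w ζ * ‖f ζ‖) 0 ρ := by
  have h2 := hf.circleAverage_poissonKernel_smul (w := w) (by simpa using hw)
  rw [← h2]
  unfold Real.circleAverage
  rw [norm_smul, Real.norm_eq_abs, abs_of_pos (by positivity), smul_eq_mul]
  gcongr
  refine (intervalIntegral.norm_integral_le_integral_norm (by positivity)).trans ?_
  apply le_of_eq
  congr 1
  funext θ
  simp only [Pi.smul_apply']
  rw [norm_smul, Real.norm_eq_abs, abs_of_nonneg]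
  exact poissonKernel_nonneg hw (by simp [abs_of_pos hρ])

/-- A holomorphic function dominated on the unit circle by the real part of a holomorphic function
is dominated inside. -/
lemma norm_le_re_of_sphere {f u : ℂ → ℂ} (hf : DiffContOnCl ℂ f (ball 0 1))
    (hu : DiffContOnCl ℂ u (ball 0 1)) (h : ∀ ζ : ℂ, ‖ζ‖ = 1 → ‖f ζ‖ ≤ (u ζ).re) {w : ℂ}
    (hw : ‖w‖ < 1) : ‖f w‖ ≤ (u w).re := by
  have hcl : closure (ball (0 : ℂ) 1) = closedBall 0 1 := closure_ball _ one_ne_zero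
  have hfc : ContinuousOn f (sphere 0 1) := by
    have := hf.continuousOn
    rw [hcl] at this
    exact this.mono sphere_subset_closedBall
  have huc : ContinuousOn u (sphere 0 1) := by
    have := hu.continuousOn
    rw [hcl] at this
    exact this.mono sphere_subset_closedBall
  have hP := continuousOn_poissonKernel (ρ := 1) hw
  rw [abs_one] at hP
  have h1 := norm_le_poisson one_pos hf hw
  have h2 := hu.circleAverage_poissonKernel_smul (w := w) (by simpa using hw)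
  have h3 : (u w).re = Real.circleAverage (fun ζ => poissonKernel 0 w ζ * (u ζ).re) 0 1 := by
    rw [← h2]
    have hci : CircleIntegrable (poissonKernel 0 w • u) 0 1 := by
      refine ContinuousOn.circleIntegrable zero_le_one ?_
      exact hP.smul huc
    rw [← Complex.reCLM_apply, ← Complex.reCLM.circleAverage_comp_comm hci]
    congr 1
    funext ζ
    simp
  rw [h3]
  refine h1.trans (Real.circleAverage_mono ?_ ?_ ?_)
  · refine ContinuousOn.circleIntegrable zero_le_one ?_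
    exact hP.mul hfc.norm
  · refine ContinuousOn.circleIntegrable zero_le_one ?_
    exact hP.mul (Complex.continuous_re.comp_continuousOn huc)
  · intro ζ hζ
    rw [abs_one, mem_sphere_zero_iff_norm] at hζ
    have := poissonKernel_nonneg hw hζ
    have := h ζ hζ
    gcongr

/-- Key estimate for Fatou's theorem. -/
lemma fatou_estimate {H : ℂ → ℂ} (hH : DiffContOnCl ℂ H (ball 0 1)) {ζ₀ : ℂ} (hζ₀ : ‖ζ₀‖ = 1)
    {ε δ L : ℝ} (hε : 0 ≤ ε) (hδ : 0 < δ) (hL : 0 ≤ L)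
    (h1 : ∀ ζ : ℂ, ‖ζ‖ = 1 → ‖ζ - ζ₀‖ < δ → ‖H ζ‖ ≤ ε * ‖ζ - ζ₀‖)
    (h2 : ∀ ζ : ℂ, ‖ζ‖ = 1 → ‖H ζ‖ ≤ L * ‖ζ - ζ₀‖) {z : ℂ} (hz : ‖z‖ < 1) :
    ‖H z‖ ≤ ‖z - ζ₀‖ * (ε + (2 * L / δ ^ 2) * ‖z - ζ₀‖) := by
  have hζ₀c : ζ₀ * conj ζ₀ = 1 := by
    rw [Complex.mul_conj, Complex.normSq_eq_norm_sq, hζ₀]; simp
  -- the majorant
  set u : ℂ → ℂ := fun ζ => ((ε : ℝ) : ℂ) + ((2 * L / δ ^ 2 : ℝ) : ℂ) * (1 - ζ * conj ζ₀) with hu
  have hud : DiffContOnCl ℂ u (ball 0 1) := by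
    apply Differentiable.diffContOnCl
    fun_prop
  have hure : ∀ ζ : ℂ, (u ζ).re = ε + (2 * L / δ ^ 2) * (1 - (ζ * conj ζ₀).re) := by
    intro ζ
    simp only [hu]
    rw [Complex.add_re, Complex.ofReal_re, Complex.re_ofReal_mul, Complex.sub_re, Complex.one_re]
  have hsq : ∀ ζ : ℂ, ‖ζ‖ = 1 → ‖ζ - ζ₀‖ ^ 2 = 2 * (1 - (ζ * conj ζ₀).re) := by
    intro ζ hζ
    rw [← Complex.normSq_eq_norm_sq, Complex.normSq_sub, Complex.normSq_eq_norm_sq,
      Complex.normSq_eq_norm_sq, hζ, hζ₀]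
    ring
  -- estimate for `t > 1`
  have key : ∀ t : ℝ, 1 < t → ‖H z‖ ≤ ‖z - t * ζ₀‖ * (u z).re := by
    intro t ht
    have htn : ∀ ζ : ℂ, ‖ζ‖ ≤ 1 → ζ - t * ζ₀ ≠ 0 := by
      intro ζ hζ h
      have h3 : ζ = t * ζ₀ := sub_eq_zero.1 h
      rw [h3, norm_ofReal_mul (by linarith) hζ₀] at hζ
      linarith
    have htge : ∀ ζ : ℂ, ‖ζ‖ = 1 → ‖ζ - ζ₀‖ ≤ ‖ζ - t * ζ₀‖ := by
      intro ζ hζ
      refine le_of_sq_le_sq ?_ (norm_nonneg _)
      rw [hsq ζ hζ, ← Complex.normSq_eq_norm_sq, Complex.normSq_sub, Complex.normSq_eq_norm_sq,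
        Complex.normSq_eq_norm_sq, hζ, norm_ofReal_mul (by linarith) hζ₀]
      have h4 : (ζ * conj ((t : ℂ) * ζ₀)).re = t * (ζ * conj ζ₀).re := by
        rw [map_mul, Complex.conj_ofReal, ← mul_assoc, mul_comm ζ (t : ℂ), mul_assoc,
          Complex.re_ofReal_mul]
      rw [h4]
      have h5 : (ζ * conj ζ₀).re ≤ 1 := by
        have := Complex.re_le_norm (ζ * conj ζ₀)
        rw [norm_mul, RCLike.norm_conj, hζ, hζ₀] at this
        linarith
      nlinarith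
    have hG : DiffContOnCl ℂ (fun ζ => H ζ / (ζ - t * ζ₀)) (ball 0 1) := by
      have h6 : DiffContOnCl ℂ (fun ζ : ℂ => (ζ - t * ζ₀)⁻¹) (ball 0 1) := by
        apply DifferentiableOn.diffContOnCl
        rw [closure_ball _ one_ne_zero]
        intro ζ hζ
        refine DifferentiableAt.differentiableWithinAt ?_
        exact (by fun_prop : DifferentiableAt ℂ (fun ζ : ℂ => ζ - t * ζ₀) ζ).inv
          (htn ζ (by simpa using hζ))
      have h7 := h6.smul hH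
      have e : (fun ζ => H ζ / (ζ - t * ζ₀)) = fun x => (x - (t : ℂ) * ζ₀)⁻¹ • H x := by
        funext x
        rw [smul_eq_mul, div_eq_inv_mul]
      rw [e]
      exact h7
    have h7 := norm_le_re_of_sphere hG hud (fun ζ hζ => ?_) hz
    · rw [norm_div, div_le_iff₀ (norm_pos_iff.2 (htn z hz.le))] at h7
      linarith
    · rw [norm_div, div_le_iff₀ (norm_pos_iff.2 (htn ζ hζ.le)), hure]
      have h8 := htge ζ hζ
      have h9 := hsq ζ hζ
      have h10 : (2 * L / δ ^ 2) * (1 - (ζ * conj ζ₀).re) = L / δ ^ 2 * ‖ζ - ζ₀‖ ^ 2 := by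
        rw [h9]; ring
      rw [h10]
      by_cases hc : ‖ζ - ζ₀‖ < δ
      · calc ‖H ζ‖ ≤ ε * ‖ζ - ζ₀‖ := h1 ζ hζ hc
          _ ≤ (ε + L / δ ^ 2 * ‖ζ - ζ₀‖ ^ 2) * ‖ζ - t * ζ₀‖ := by
            have : 0 ≤ L / δ ^ 2 * ‖ζ - ζ₀‖ ^ 2 := by positivity
            have := norm_nonneg (ζ - ζ₀)
            gcongr
            linarith
      · push Not at hc
        have h11 : L ≤ L / δ ^ 2 * ‖ζ - ζ₀‖ ^ 2 := by
          rw [div_mul_eq_mul_div, le_div_iff₀ (by positivity)]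
          gcongr
        calc ‖H ζ‖ ≤ L * ‖ζ - ζ₀‖ := h2 ζ hζ
          _ ≤ (ε + L / δ ^ 2 * ‖ζ - ζ₀‖ ^ 2) * ‖ζ - t * ζ₀‖ := by
            have := norm_nonneg (ζ - ζ₀)
            gcongr
            linarith
  -- let `t → 1`
  have hlim : Tendsto (fun t : ℝ => ‖z - t * ζ₀‖ * (u z).re) (𝓝[>] 1)
      (𝓝 (‖z - (1 : ℝ) * ζ₀‖ * (u z).re)) := by
    refine Tendsto.mono_left ?_ nhdsWithin_le_nhds
    exact Continuous.tendsto (by fun_prop) 1
  have h3 : ‖H z‖ ≤ ‖z - ζ₀‖ * (u z).re := by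
    have := ge_of_tendsto hlim (b := ‖H z‖) (by
      filter_upwards [self_mem_nhdsWithin] with t ht
      exact key t ht)
    simpa using this
  refine h3.trans ?_
  rw [hure]
  gcongr
  -- `1 - Re (z conj ζ₀) ≤ |z - ζ₀|`
  have h4 : 1 - (z * conj ζ₀).re = ((ζ₀ - z) * conj ζ₀).re := by
    rw [sub_mul, hζ₀c]; simp
  rw [h4]
  refine (Complex.re_le_norm _).trans ?_
  rw [norm_mul, RCLike.norm_conj, hζ₀, mul_one, norm_sub_rev]

/-- **Fatou's theorem** at a point of differentiability of the primitive. -/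
lemma fatou_at_point {f g : ℂ → ℂ} {K : NNReal} (hg : LipschitzWith K g)
    (hgd : ∀ z ∈ ball (0 : ℂ) 1, HasDerivAt g (f z) z) {θ₀ : ℝ}
    (hθ₀ : DifferentiableAt ℝ (fun θ : ℝ => g (cexp (θ * I))) θ₀) :
    ∃ w : ℂ, Tendsto (fun r : ℝ => f (r * cexp (θ₀ * I))) (𝓝[<] 1) (𝓝 w) := by
  set ζ₀ : ℂ := cexp (θ₀ * I) with hζ₀def
  have hζ₀ : ‖ζ₀‖ = 1 := Complex.norm_exp_ofReal_mul_I θ₀
  have hζ₀0 : ζ₀ ≠ 0 := by intro h; rw [h] at hζ₀; simp at hζ₀
  set G : ℝ → ℂ := fun θ => g (cexp (θ * I)) with hGdef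
  set c : ℂ := deriv G θ₀ / (I * ζ₀) with hc
  set H : ℂ → ℂ := fun z => g z - g ζ₀ - c * (z - ζ₀) with hH
  have hHd : ∀ z ∈ ball (0 : ℂ) 1, HasDerivAt H (f z - c) z := by
    intro z hz
    have h1 := ((hgd z hz).sub_const (g ζ₀)).sub (((hasDerivAt_id z).sub_const ζ₀).const_mul c)
    rw [mul_one] at h1
    exact h1
  have hHc : DiffContOnCl ℂ H (ball 0 1) := by
    refine ⟨fun z hz => (hHd z hz).differentiableAt.differentiableWithinAt, ?_⟩
    have : Continuous H := by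
      have := hg.continuous
      fun_prop
    exact this.continuousOn
  -- Lipschitz bound
  set L : ℝ := K + ‖c‖ with hL
  have hL0 : 0 ≤ L := by positivity
  have hHL : ∀ z : ℂ, ‖H z‖ ≤ L * ‖z - ζ₀‖ := by
    intro z
    have h1 : ‖g z - g ζ₀‖ ≤ K * ‖z - ζ₀‖ := by
      have := hg.dist_le_mul z ζ₀
      rwa [dist_eq_norm, dist_eq_norm] at this
    calc ‖H z‖ ≤ ‖g z - g ζ₀‖ + ‖c * (z - ζ₀)‖ := norm_sub_le _ _
      _ ≤ K * ‖z - ζ₀‖ + ‖c‖ * ‖z - ζ₀‖ := by rw [norm_mul]; gcongr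
      _ = L * ‖z - ζ₀‖ := by rw [hL]; ring
  -- smallness near `ζ₀` on the circle
  have hsmall : ∀ ε : ℝ, 0 < ε → ∃ δ > 0, ∀ ζ : ℂ, ‖ζ‖ = 1 → ‖ζ - ζ₀‖ < δ →
      ‖H ζ‖ ≤ ε * ‖ζ - ζ₀‖ := by
    intro ε hε
    -- `s ↦ H (exp (i s))` has derivative zero at `θ₀`
    have h1 : HasDerivAt (fun s : ℝ => H (cexp (s * I))) 0 θ₀ := by
      have h2 : HasDerivAt (fun s : ℝ => cexp (s * I)) (ζ₀ * I) θ₀ := by
        have h3 : HasDerivAt (fun s : ℝ => (s : ℂ) * I) (1 * I) θ₀ :=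
          (Complex.ofRealCLM.hasDerivAt (x := θ₀)).mul_const I
        have := h3.cexp
        simpa using this
      have h4 := (hθ₀.hasDerivAt.sub_const (g ζ₀)).sub ((h2.sub_const ζ₀).const_mul c)
      have h5 : deriv G θ₀ - c * (ζ₀ * I) = 0 := by
        rw [hc]
        field_simp
        simp
      rw [h5] at h4
      exact h4
    have hH0 : H ζ₀ = 0 := by simp [hH]
    have h6 := h1.isLittleO
    rw [Asymptotics.isLittleO_iff] at h6
    have h7 := h6 (show 0 < ε * (2 / π) by positivity)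
    rw [Metric.eventually_nhds_iff] at h7
    obtain ⟨η, hη, h7⟩ := h7
    refine ⟨η * (2 / π), by positivity, fun ζ hζ hd => ?_⟩
    have hζ0 : ζ ≠ 0 := by intro h; rw [h] at hζ; simp at hζ
    set s : ℝ := (ζ / ζ₀).arg with hs
    have hang : |s| ≤ π / 2 * ‖ζ - ζ₀‖ := by
      have := Complex.angle_le_mul_norm_sub hζ hζ₀
      rwa [Complex.angle_eq_abs_arg hζ0 hζ₀0] at this
    have hζeq : ζ = cexp (((θ₀ + s : ℝ) : ℂ) * I) := by
      have h8 : ‖ζ / ζ₀‖ = 1 := by rw [norm_div, hζ, hζ₀, div_one]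
      have h9 := Complex.norm_mul_exp_arg_mul_I (ζ / ζ₀)
      rw [h8, ← hs] at h9
      push_cast
      rw [add_mul, Complex.exp_add, ← hζ₀def]
      rw [Complex.ofReal_one, one_mul] at h9
      rw [h9]
      field_simp
    have h10 : dist (θ₀ + s) θ₀ < η := by
      rw [Real.dist_eq, add_sub_cancel_left]
      calc |s| ≤ π / 2 * ‖ζ - ζ₀‖ := hang
        _ < π / 2 * (η * (2 / π)) := by gcongr
        _ = η := by field_simp
    have h11 := h7 h10
    simp only [smul_zero, sub_zero] at h11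
    rw [← hζeq, ← hζ₀def, hH0, sub_zero, add_sub_cancel_left] at h11
    calc ‖H ζ‖ ≤ ε * (2 / π) * ‖s‖ := h11
      _ ≤ ε * (2 / π) * (π / 2 * ‖ζ - ζ₀‖) := by
        rw [Real.norm_eq_abs]; gcongr
      _ = ε * ‖ζ - ζ₀‖ := by field_simp
  refine ⟨c, ?_⟩
  rw [Metric.tendsto_nhdsWithin_nhds]
  intro ε hε
  obtain ⟨δ, hδ, hsm⟩ := hsmall (ε / 8) (by positivity)
  -- choose the radius
  obtain ⟨t, ht0, ht1, ht2⟩ : ∃ t > 0, t ≤ 1 ∧ (2 * L / δ ^ 2) * (3 / 2 * t) ≤ ε / 8 := by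
    refine ⟨min 1 (ε / (8 * (2 * L / δ ^ 2 * (3 / 2) + 1))), ?_, min_le_left _ _, ?_⟩
    · positivity
    · have h1 : min 1 (ε / (8 * (2 * L / δ ^ 2 * (3 / 2) + 1))) ≤
          ε / (8 * (2 * L / δ ^ 2 * (3 / 2) + 1)) := min_le_right _ _
      calc (2 * L / δ ^ 2) * (3 / 2 * min 1 (ε / (8 * (2 * L / δ ^ 2 * (3 / 2) + 1))))
          ≤ (2 * L / δ ^ 2) * (3 / 2 * (ε / (8 * (2 * L / δ ^ 2 * (3 / 2) + 1)))) := by gcongr
        _ = (ε / 8) * ((2 * L / δ ^ 2 * (3 / 2)) / (2 * L / δ ^ 2 * (3 / 2) + 1)) := by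
          field_simp
        _ ≤ (ε / 8) * 1 := by
          gcongr
          rw [div_le_one (by positivity)]
          linarith
        _ = ε / 8 := by ring
  refine ⟨t, ht0, fun r hr hrd => ?_⟩
  rw [mem_Iio] at hr
  rw [Real.dist_eq, abs_lt] at hrd
  have hr0 : 0 < r := by linarith [hrd.1]
  have hrt : 1 - r < t := by linarith [hrd.1]
  have h1r : 0 < 1 - r := by linarith
  have hwn : ‖(r : ℂ) * ζ₀‖ = r := norm_ofReal_mul hr0.le hζ₀
  have hwb : (r : ℂ) * ζ₀ ∈ ball (0 : ℂ) 1 := by rw [mem_ball_zero_iff, hwn]; exact hr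
  have hwζ : ‖(r : ℂ) * ζ₀ - ζ₀‖ = 1 - r := by
    have : (r : ℂ) * ζ₀ - ζ₀ = ((r - 1 : ℝ) : ℂ) * ζ₀ := by push_cast; ring
    rw [this, norm_mul, hζ₀, mul_one, Complex.norm_real, Real.norm_eq_abs, abs_of_neg (by linarith)]
    ring
  -- Cauchy estimate on the disc of radius `(1 - r)/2`
  have hball : closedBall ((r : ℂ) * ζ₀) ((1 - r) / 2) ⊆ ball 0 1 := by
    intro z hz
    rw [mem_closedBall, dist_eq_norm] at hz
    rw [mem_ball_zero_iff]
    calc ‖z‖ = ‖(z - r * ζ₀) + r * ζ₀‖ := by ring_nf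
      _ ≤ ‖z - r * ζ₀‖ + ‖(r : ℂ) * ζ₀‖ := norm_add_le _ _
      _ < 1 := by rw [hwn]; linarith
  have hderiv : deriv H (r * ζ₀) = f (r * ζ₀) - c := (hHd _ hwb).deriv
  have hest := Complex.norm_deriv_le_of_forall_mem_sphere_norm_le (c := (r : ℂ) * ζ₀)
    (R := (1 - r) / 2) (f := H) (C := (3 / 2 * (1 - r)) * (ε / 8 + ε / 8)) (by linarith)
    (by
      apply DifferentiableOn.diffContOnCl
      rw [closure_ball _ (by linarith : (1 - r) / 2 ≠ 0)]
      intro z hz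
      exact (hHd z (hball hz)).differentiableAt.differentiableWithinAt)
    (fun z hz => by
      have hzb := hball (sphere_subset_closedBall hz)
      rw [mem_ball_zero_iff] at hzb
      have hz1 : ‖z - ζ₀‖ ≤ 3 / 2 * (1 - r) := by
        rw [mem_sphere, dist_eq_norm] at hz
        calc ‖z - ζ₀‖ = ‖(z - r * ζ₀) + (r * ζ₀ - ζ₀)‖ := by ring_nf
          _ ≤ ‖z - r * ζ₀‖ + ‖(r : ℂ) * ζ₀ - ζ₀‖ := norm_add_le _ _
          _ = 3 / 2 * (1 - r) := by rw [hz, hwζ]; ring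
      have h1 := fatou_estimate hHc hζ₀ (ε := ε / 8) (by positivity) hδ hL0 hsm
        (fun ζ _ => hHL ζ) hzb
      have h2 : (2 * L / δ ^ 2) * ‖z - ζ₀‖ ≤ ε / 8 := by
        refine le_trans ?_ ht2
        have h3 : ‖z - ζ₀‖ ≤ 3 / 2 * t := hz1.trans (by linarith)
        gcongr
      refine h1.trans ?_
      have := norm_nonneg (z - ζ₀)
      gcongr)
  rw [hderiv] at hest
  rw [dist_eq_norm]
  refine hest.trans_lt ?_
  have : 3 / 2 * (1 - r) * (ε / 8 + ε / 8) / ((1 - r) / 2) = 3 / 4 * ε := by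
    field_simp
    ring
  rw [this]
  linarith

/-- **Fatou's theorem**: a bounded holomorphic function on the disc has radial limits almost
everywhere. -/
theorem fatou {f : ℂ → ℂ} (hf : DifferentiableOn ℂ f (ball 0 1)) {M : NNReal}
    (hM : ∀ z ∈ ball (0 : ℂ) 1, ‖f z‖ ≤ M) :
    ∀ᵐ θ : ℝ, ∃ w : ℂ, Tendsto (fun r : ℝ => f (r * cexp (θ * I))) (𝓝[<] 1) (𝓝 w) := by
  obtain ⟨F, hF⟩ := hf.isExactOn_ball
  have hFL : LipschitzOnWith M F (ball 0 1) := by
    refine (convex_ball (0 : ℂ) 1).lipschitzOnWith_of_nnnorm_hasDerivWithin_le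
      (fun z hz => (hF z hz).hasDerivWithinAt) (fun z hz => ?_)
    exact_mod_cast hM z hz
  obtain ⟨g, hg, hgF⟩ := hFL.extend_finite_dimension
  have hgd : ∀ z ∈ ball (0 : ℂ) 1, HasDerivAt g (f z) z := by
    intro z hz
    refine (hF z hz).congr_of_eventuallyEq ?_
    filter_upwards [isOpen_ball.mem_nhds hz] with w hw
    exact (hgF hw).symm
  have hexp : LipschitzWith 1 (fun θ : ℝ => cexp (θ * I)) := by
    refine lipschitzWith_of_nnnorm_deriv_le (fun θ => by fun_prop) (fun θ => ?_)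
    have h3 : HasDerivAt (fun s : ℝ => (s : ℂ) * I) (1 * I) θ :=
      (Complex.ofRealCLM.hasDerivAt (x := θ)).mul_const I
    have h4 := h3.cexp
    rw [h4.deriv]
    rw [← NNReal.coe_le_coe, coe_nnnorm, norm_mul, Complex.norm_exp_ofReal_mul_I]
    simp
  have hG : LipschitzWith (lipschitzExtensionConstant ℂ * M * 1)
      (fun θ : ℝ => g (cexp (θ * I))) := hg.comp hexp
  filter_upwards [hG.ae_differentiableAt] with θ hθ
  exact fatou_at_point hg hgd hθ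

end Pool.Agent.Pa5725d
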