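import Mathlib
import Pool.Agent.Lib.Pa5725d.SchwarzPick

/-!
# Radial limits of the Julia quotient and of powers
-/

set_option autoImplicit false

open Complex Metric MeasureTheory Filter Topology Set
open scoped Real ComplexConjugate

namespace Pool.Agent.Pa5725d

/-- `Y = exp (-2 D)` where `D ∈ (0, ∞]` is the radial limit of the Julia quotient. -/
noncomputable def Yf (φ : ℂ → ℂ) (ζ : ℂ) : ℝ :=
  sInf ((fun r => Real.exp (-2 * Q φ ζ r)) '' Ioo 0 1)

section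

variable {φ : ℂ → ℂ} (hφ : DifferentiableOn ℂ φ (ball 0 1))
    (hmaps : MapsTo φ (ball 0 1) (ball 0 1)) {ζ : ℂ} (hζ : ‖ζ‖ = 1)

include hmaps hζ in
lemma norm_phi_lt {r : ℝ} (hr0 : 0 ≤ r) (hr1 : r < 1) : ‖φ (r * ζ)‖ < 1 := by
  have : (r : ℂ) * ζ ∈ ball (0 : ℂ) 1 := by
    rw [mem_ball_zero_iff, norm_ofReal_mul hr0 hζ]; exact hr1
  simpa using hmaps this

include hmaps hζ in
lemma Q_pos {r : ℝ} (hr0 : 0 ≤ r) (hr1 : r < 1) : 0 < Q φ ζ r := by
  have := norm_phi_lt hmaps hζ hr0 hr1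
  unfold Q
  apply mul_pos
  · apply div_pos (by linarith) (by positivity)
  · apply div_pos (by linarith) (by linarith)

include hφ hmaps hζ in
lemma tendsto_Y : Tendsto (fun r => Real.exp (-2 * Q φ ζ r)) (𝓝[<] 1) (𝓝 (Yf φ ζ)) := by
  refine AntitoneOn.tendsto_nhdsWithin_Ioo_left (x := (1 : ℝ)) (y := 0) ⟨1 / 2, by norm_num⟩ ?_ ?_
  · intro r hr s hs hrs
    have := Q_mono hφ hmaps hζ ⟨hr.1.le, hr.2⟩ ⟨hs.1.le, hs.2⟩ hrs
    simp only [Real.exp_le_exp]
    linarith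
  · refine ⟨0, ?_⟩
    rintro _ ⟨r, _, rfl⟩
    positivity

include hφ hmaps hζ in
lemma Yf_le {r : ℝ} (hr0 : 0 ≤ r) (hr1 : r < 1) : Yf φ ζ ≤ Real.exp (-2 * Q φ ζ r) := by
  refine le_of_tendsto (tendsto_Y hφ hmaps hζ) ?_
  filter_upwards [Ioo_mem_nhdsLT hr1] with s hs
  have := Q_mono hφ hmaps hζ ⟨hr0, hr1⟩ ⟨hr0.trans hs.1.le, hs.2⟩ hs.1.le
  simp only [Real.exp_le_exp]
  linarith

include hφ hmaps hζ in
lemma Yf_nonneg : 0 ≤ Yf φ ζ :=
  ge_of_tendsto (tendsto_Y hφ hmaps hζ) (Eventually.of_forall (fun _ => by positivity))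

include hφ hmaps hζ in
lemma Yf_lt_one : Yf φ ζ < 1 := by
  refine (Yf_le hφ hmaps hζ le_rfl zero_lt_one).trans_lt ?_
  have := Q_pos hmaps hζ le_rfl zero_lt_one
  rw [Real.exp_lt_one_iff]
  linarith

include hφ hmaps hζ in
/-- If `Y > 0` then the quotient converges to `D = - (1/2) log Y`. -/
lemma tendsto_Q (hY : 0 < Yf φ ζ) :
    Tendsto (Q φ ζ) (𝓝[<] 1) (𝓝 (-(1 / 2) * Real.log (Yf φ ζ))) := by
  have h := ((Real.continuousAt_log hY.ne').tendsto.comp (tendsto_Y hφ hmaps hζ)).const_mul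
    (-(1 / 2))
  refine h.congr (fun r => ?_)
  simp only [Function.comp_apply, Real.log_exp]
  ring

include hφ hmaps hζ in
lemma Q_le_D (hY : 0 < Yf φ ζ) {r : ℝ} (hr0 : 0 ≤ r) (hr1 : r < 1) :
    Q φ ζ r ≤ -(1 / 2) * Real.log (Yf φ ζ) := by
  have h := Yf_le hφ hmaps hζ hr0 hr1
  have := Real.log_le_log hY h
  rw [Real.log_exp] at this
  linarith

lemma one_sub_eq {x r : ℝ} (hx : 0 ≤ x) (hr0 : 0 ≤ r) (hr1 : r < 1) :
    1 - x = ((1 - x) / (1 + x)) * ((1 + r) / (1 - r)) * ((1 + x) / (1 + r)) * (1 - r) := by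
  have h1 : 1 + x ≠ 0 := by positivity
  have h2 : 1 + r ≠ 0 := by positivity
  have h3 : 1 - r ≠ 0 := by linarith
  field_simp

lemma one_sub_norm_eq {φ : ℂ → ℂ} {ζ : ℂ} {r : ℝ} (hr0 : 0 ≤ r) (hr1 : r < 1) :
    1 - ‖φ (r * ζ)‖ = Q φ ζ r * ((1 + ‖φ (r * ζ)‖) / (1 + r)) * (1 - r) :=
  one_sub_eq (norm_nonneg _) hr0 hr1

include hφ hmaps hζ in
/-- If `Y > 0` then the radial limit has modulus one. -/
lemma tendsto_norm_one (hY : 0 < Yf φ ζ) :
    Tendsto (fun r : ℝ => ‖φ (r * ζ)‖) (𝓝[<] 1) (𝓝 1) := by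
  set D := -(1 / 2) * Real.log (Yf φ ζ)
  have h1 : Tendsto (fun r : ℝ => 1 - D * 2 * (1 - r)) (𝓝[<] 1) (𝓝 1) := by
    have : Tendsto (fun r : ℝ => 1 - D * 2 * (1 - r)) (𝓝[<] 1) (𝓝 (1 - D * 2 * (1 - 1))) := by
      refine Tendsto.mono_left ?_ nhdsWithin_le_nhds
      exact Continuous.tendsto (by fun_prop) 1
    simpa using this
  refine tendsto_of_tendsto_of_tendsto_of_le_of_le' h1 tendsto_const_nhds ?_ ?_
  · filter_upwards [Ioo_mem_nhdsLT (show (0 : ℝ) < 1 by norm_num)] with r hr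
    have h2 := one_sub_norm_eq (φ := φ) (ζ := ζ) hr.1.le hr.2
    have h3 := Q_le_D hφ hmaps hζ hY hr.1.le hr.2
    have h4 := Q_pos hmaps hζ hr.1.le hr.2
    have h5 := norm_phi_lt hmaps hζ hr.1.le hr.2
    have h6 : (1 + ‖φ (r * ζ)‖) / (1 + r) ≤ 2 := by
      rw [div_le_iff₀ (by linarith [hr.1])]
      linarith [hr.1]
    have h7 : Q φ ζ r * ((1 + ‖φ (r * ζ)‖) / (1 + r)) * (1 - r) ≤ D * 2 * (1 - r) := by
      have h8 : 0 ≤ 1 - r := by linarith [hr.2]
      have h9 : 0 ≤ (1 + ‖φ (r * ζ)‖) / (1 + r) :=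
        div_nonneg (by positivity) (by linarith [hr.1])
      have h10 : 0 ≤ D := h4.le.trans h3
      gcongr
    linarith
  · filter_upwards [Ioo_mem_nhdsLT (show (0 : ℝ) < 1 by norm_num)] with r hr
    exact (norm_phi_lt hmaps hζ hr.1.le hr.2).le

/-- `log x / (x - 1) → 1` as `x → 1`. -/
lemma tendsto_log_div : Tendsto (fun x : ℝ => Real.log x / (x - 1)) (𝓝[≠] 1) (𝓝 1) := by
  have h := (Real.hasDerivAt_log (x := 1) one_ne_zero)
  rw [hasDerivAt_iff_tendsto_slope] at h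
  simp only [inv_one] at h
  refine h.congr (fun x => ?_)
  rw [slope_def_field, Real.log_one, sub_zero]

include hφ hmaps hζ in
lemma tendsto_log_ratio (hY : 0 < Yf φ ζ) :
    Tendsto (fun r : ℝ => Real.log ‖φ (r * ζ)‖ / Real.log r) (𝓝[<] 1)
      (𝓝 (-(1 / 2) * Real.log (Yf φ ζ))) := by
  have hx := tendsto_norm_one hφ hmaps hζ hY
  have hx' : Tendsto (fun r : ℝ => ‖φ (r * ζ)‖) (𝓝[<] 1) (𝓝[≠] 1) := by
    refine tendsto_nhdsWithin_of_tendsto_nhds_of_eventually_within _ hx ?_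
    filter_upwards [Ioo_mem_nhdsLT (show (0 : ℝ) < 1 by norm_num)] with r hr
    exact (norm_phi_lt hmaps hζ hr.1.le hr.2).ne
  have h1 := tendsto_log_div.comp hx'
  have h2 : Tendsto (fun r : ℝ => Real.log r / (r - 1)) (𝓝[<] 1) (𝓝 1) :=
    tendsto_log_div.mono_left (nhdsWithin_mono _ (fun r hr => (ne_of_lt hr)))
  have h3 : Tendsto (fun r : ℝ => Q φ ζ r * ((1 + ‖φ (r * ζ)‖) / (1 + r))) (𝓝[<] 1)
      (𝓝 (-(1 / 2) * Real.log (Yf φ ζ))) := by
    have h4 : Tendsto (fun r : ℝ => (1 + ‖φ (r * ζ)‖) / (1 + r)) (𝓝[<] 1) (𝓝 ((1 + 1) / (1 + 1))) := by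
      refine (hx.const_add 1).div ?_ (by norm_num)
      refine Tendsto.mono_left ?_ nhdsWithin_le_nhds
      exact Continuous.tendsto (by fun_prop) 1
    have h5 := (tendsto_Q hφ hmaps hζ hY).mul h4
    simpa using h5
  have h6 := (h1.mul h3).div h2 one_ne_zero
  simp only [one_mul, div_one] at h6
  refine h6.congr' ?_
  filter_upwards [Ioo_mem_nhdsLT (show (0 : ℝ) < 1 by norm_num)] with r hr
  have h7 := one_sub_norm_eq (φ := φ) (ζ := ζ) hr.1.le hr.2
  have h8 : ‖φ (r * ζ)‖ - 1 ≠ 0 := by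
    have := norm_phi_lt hmaps hζ hr.1.le hr.2
    linarith
  have h9 : r - 1 ≠ 0 := by linarith [hr.2]
  have h10 : Q φ ζ r * ((1 + ‖φ (r * ζ)‖) / (1 + r)) = (‖φ (r * ζ)‖ - 1) / (r - 1) := by
    rw [eq_div_iff h9]
    linarith
  have h11 : Real.log r ≠ 0 := Real.log_ne_zero_of_pos_of_ne_one hr.1 hr.2.ne
  simp only [Pi.div_apply, Function.comp_apply]
  rw [h10]
  field_simp

/-- `exp (-k/N) → 1` from the left. -/
lemma tendsto_exp_neg_div {k : ℕ} (hk : 1 ≤ k) :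
    Tendsto (fun N : ℕ => Real.exp (-(k / N : ℝ))) atTop (𝓝[<] 1) := by
  have hk' : (0 : ℝ) < k := by exact_mod_cast hk
  refine tendsto_nhdsWithin_of_tendsto_nhds_of_eventually_within _ ?_ ?_
  · have h1 : Tendsto (fun N : ℕ => (k / N : ℝ)) atTop (𝓝 0) := tendsto_const_div_atTop_nhds_zero_nat _
    have h2 := (Real.continuous_exp.tendsto _).comp h1.neg
    rw [neg_zero, Real.exp_zero] at h2
    exact h2
  · filter_upwards [eventually_gt_atTop 0] with N hN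
    rw [mem_Iio, Real.exp_lt_one_iff]
    have : (0 : ℝ) < N := by exact_mod_cast hN
    have : 0 < (k / N : ℝ) := by positivity
    linarith

include hφ hmaps hζ in
/-- The key pointwise limit. -/
theorem tendsto_pow {k : ℕ} (hk : 1 ≤ k) :
    Tendsto (fun N : ℕ => ‖φ ((Real.exp (-(k / N : ℝ)) : ℝ) * ζ)‖ ^ (2 * N)) atTop
      (𝓝 (Yf φ ζ ^ k)) := by
  have hk' : (0 : ℝ) < k := by exact_mod_cast hk
  rcases (Yf_nonneg hφ hmaps hζ).eq_or_lt with hY | hY
  · -- `D = ∞`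
    rw [← hY, zero_pow (by omega)]
    -- `Q → ∞`
    have hexp0 : Tendsto (fun r => Real.exp (-2 * Q φ ζ r)) (𝓝[<] 1) (𝓝 0) := by
      rw [hY]; exact tendsto_Y hφ hmaps hζ
    rw [Metric.tendsto_atTop]
    intro ε hε
    -- choose M with exp (-M k / 4) < ε
    obtain ⟨M, hM0, hM⟩ : ∃ M : ℝ, 0 < M ∧ Real.exp (-(M * k / 2)) < ε := by
      have : Tendsto (fun M : ℝ => Real.exp (-(M * k / 2))) atTop (𝓝 0) := by
        refine Real.tendsto_exp_atBot.comp ?_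
        refine tendsto_neg_atTop_atBot.comp ?_
        refine Tendsto.atTop_div_const (by norm_num) ?_
        exact tendsto_id.atTop_mul_const hk'
      obtain ⟨M, hM⟩ := ((this.eventually (gt_mem_nhds hε)).and (eventually_gt_atTop 0)).exists
      exact ⟨M, hM.2, hM.1⟩
    have hev : ∀ᶠ r in 𝓝[<] (1 : ℝ), M ≤ Q φ ζ r := by
      have := hexp0.eventually (gt_mem_nhds (Real.exp_pos (-2 * M)))
      filter_upwards [this] with r hr
      rw [Real.exp_lt_exp] at hr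
      linarith
    have hev2 := (tendsto_exp_neg_div hk).eventually hev
    obtain ⟨N₀, hN₀⟩ := eventually_atTop.1 hev2
    refine ⟨max N₀ k, fun N hN => ?_⟩
    have hN1 : N₀ ≤ N := (le_max_left _ _).trans hN
    have hN2 : k ≤ N := (le_max_right _ _).trans hN
    have hN0 : (0 : ℝ) < N := by
      have : 0 < N := by omega
      exact_mod_cast this
    set r := Real.exp (-(k / N : ℝ)) with hr
    have ht0 : 0 < (k / N : ℝ) := by positivity
    have ht1 : (k / N : ℝ) ≤ 1 := by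
      rw [div_le_one hN0]; exact_mod_cast hN2
    have hr0 : 0 < r := Real.exp_pos _
    have hr1 : r < 1 := by rw [hr, Real.exp_lt_one_iff]; linarith
    have hQ : M ≤ Q φ ζ r := hN₀ N hN1
    have h2 := one_sub_norm_eq (φ := φ) (ζ := ζ) hr0.le hr1
    have hx0 : 0 ≤ ‖φ (r * ζ)‖ := norm_nonneg _
    have h3 : (1 / 2 : ℝ) ≤ (1 + ‖φ (r * ζ)‖) / (1 + r) := by
      rw [le_div_iff₀ (by linarith)]
      linarith
    have h4 : M * (1 / 2) * (1 - r) ≤ 1 - ‖φ (r * ζ)‖ := by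
      rw [h2]
      have h8 : 0 ≤ 1 - r := by linarith
      have h9 := hM0.le
      have h10 : 0 ≤ Q φ ζ r := h9.trans hQ
      gcongr
    -- `1 - exp (-t) ≥ t / 2` for `t ∈ [0, 1]`
    have h5 : (k / N : ℝ) / 2 ≤ 1 - r := by
      have h6 : Real.exp (-(k / N : ℝ)) ≤ 1 - (k / N : ℝ) / 2 := by
        have h7 := Real.exp_bound' (x := (k / N : ℝ)) ht0.le ht1 (n := 1) (by norm_num)
        have h8 : 1 + (k / N : ℝ) ≤ Real.exp (k / N : ℝ) := by
          have := Real.add_one_le_exp (k / N : ℝ); linarith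
        rw [Real.exp_neg]
        rw [inv_le_comm₀ (Real.exp_pos _) (by linarith)]
        refine le_trans ?_ h8
        rw [inv_le_comm₀ (by linarith) (by linarith), inv_eq_one_div,
          div_le_iff₀ (by linarith)]
        nlinarith
      linarith
    have h6 : ‖φ (r * ζ)‖ ≤ Real.exp (-(M * (k / N : ℝ) / 4)) := by
      have h7 : ‖φ (r * ζ)‖ ≤ 1 - M * (k / N : ℝ) / 4 := by nlinarith
      refine h7.trans ?_
      have := Real.one_sub_le_exp_neg (M * (k / N : ℝ) / 4)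
      exact this
    rw [Real.dist_eq, sub_zero, abs_of_nonneg (by positivity)]
    calc ‖φ (r * ζ)‖ ^ (2 * N) ≤ (Real.exp (-(M * (k / N : ℝ) / 4))) ^ (2 * N) := by gcongr
      _ = Real.exp (-(M * k / 2)) := by
        rw [← Real.exp_nat_mul]
        congr 1
        push_cast
        field_simp
        ring
      _ < ε := hM
  · -- `D < ∞`
    have h1 := (tendsto_log_ratio hφ hmaps hζ hY).comp (tendsto_exp_neg_div hk)
    have h2 := (Real.continuous_exp.tendsto _).comp (h1.const_mul (-2 * k : ℝ))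
    have h3 : Real.exp (-2 * k * (-(1 / 2) * Real.log (Yf φ ζ))) = Yf φ ζ ^ k := by
      rw [show (-2 * k * (-(1 / 2) * Real.log (Yf φ ζ)) : ℝ) = k * Real.log (Yf φ ζ) by ring,
        Real.exp_nat_mul, Real.exp_log hY]
    rw [h3] at h2
    refine h2.congr' ?_
    have hpos : ∀ᶠ r : ℝ in 𝓝[<] 1, 0 < ‖φ (r * ζ)‖ :=
      (tendsto_norm_one hφ hmaps hζ hY).eventually (lt_mem_nhds zero_lt_one)
    filter_upwards [(tendsto_exp_neg_div hk).eventually hpos, eventually_gt_atTop 0] with N hN hN0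
    have hN0' : (0 : ℝ) < N := by exact_mod_cast hN0
    simp only [Function.comp_apply]
    rw [Real.log_exp]
    have : (-2 * k * (Real.log ‖φ ((Real.exp (-(k / N : ℝ)) : ℝ) * ζ)‖ / (-(k / N : ℝ))) : ℝ) =
        ((2 * N : ℕ) : ℝ) * Real.log ‖φ ((Real.exp (-(k / N : ℝ)) : ℝ) * ζ)‖ := by
      push_cast
      field_simp
    rw [this, Real.exp_nat_mul, Real.exp_log hN]

end

end Pool.Agent.Pa5725d
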