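import Mathlib
import Pool.Agent.Lib.Pa5725d.Fatou
import Pool.Agent.Lib.Pa5725d.Radial

/-!
# Asymptotic energy distribution of the Taylor coefficients of `φ ^ N`
-/

set_option autoImplicit false

open Complex Metric MeasureTheory Filter Topology Set
open scoped Real ComplexConjugate

namespace Pool.Agent.Pa5725d

/-- The set of angles at which `|φ|` has radial limit `1`. -/
def Eset (φ : ℂ → ℂ) : Set ℝ :=
  {θ | Tendsto (fun r : ℝ => ‖φ (r * cexp (θ * I))‖) (𝓝[<] 1) (𝓝 1)}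

/-- indicator of `Eset` -/
noncomputable def eInd (φ : ℂ → ℂ) : ℝ → ℝ := (Eset φ).indicator 1

/-- `exp (-2 D)` as a function of the angle -/
noncomputable def Y (φ : ℂ → ℂ) (θ : ℝ) : ℝ := Yf φ (cexp (θ * I))

/-- a sequence of radii tending to one -/
noncomputable def rad (n : ℕ) : ℝ := 1 - 1 / ((n : ℝ) + 2)

lemma rad_pos (n : ℕ) : 0 < rad n := by
  unfold rad
  have : (0 : ℝ) < (n : ℝ) + 2 := by positivity
  rw [sub_pos, div_lt_one this]
  linarith [(Nat.cast_nonneg n : (0 : ℝ) ≤ n)]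

lemma rad_lt_one (n : ℕ) : rad n < 1 := by
  unfold rad
  have : (0 : ℝ) < 1 / ((n : ℝ) + 2) := by positivity
  linarith

lemma tendsto_rad : Tendsto rad atTop (𝓝[<] 1) := by
  refine tendsto_nhdsWithin_of_tendsto_nhds_of_eventually_within _ ?_
    (Eventually.of_forall rad_lt_one)
  have h1 : Tendsto (fun n : ℕ => 1 / ((n : ℝ) + 2)) atTop (𝓝 0) := by
    have := (tendsto_one_div_add_atTop_nhds_zero_nat (𝕜 := ℝ)).comp (tendsto_add_atTop_nat 1)
    refine this.congr (fun n => ?_)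
    simp only [Function.comp_apply]
    push_cast
    ring_nf
  have := h1.const_sub 1
  rw [sub_zero] at this
  exact this

section

variable {φ : ℂ → ℂ} (hφ : DifferentiableOn ℂ φ (ball 0 1))
    (hmaps : MapsTo φ (ball 0 1) (ball 0 1))

lemma norm_cexp (θ : ℝ) : ‖cexp (θ * I)‖ = 1 := Complex.norm_exp_ofReal_mul_I θ

include hφ in
lemma continuous_phi_circle {r : ℝ} (hr0 : 0 ≤ r) (hr1 : r < 1) :
    Continuous fun θ : ℝ => φ (r * cexp (θ * I)) := by
  refine hφ.continuousOn.comp_continuous (by fun_prop) (fun θ => ?_)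
  rw [mem_ball_zero_iff, norm_ofReal_mul hr0 (norm_cexp θ)]
  exact hr1

include hφ in
lemma continuous_Q_circle {r : ℝ} (hr0 : 0 ≤ r) (hr1 : r < 1) :
    Continuous fun θ : ℝ => Q φ (cexp (θ * I)) r := by
  unfold Q
  have h := (continuous_phi_circle hφ hr0 hr1).norm
  refine (Continuous.div (by fun_prop) (by fun_prop) (fun θ => ?_)).mul continuous_const
  positivity

include hφ hmaps in
lemma measurable_Y : Measurable (Y φ) := by
  have h1 : ∀ n : ℕ, Measurable fun θ : ℝ => Real.exp (-2 * Q φ (cexp (θ * I)) (rad n)) := by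
    intro n
    have := continuous_Q_circle hφ (rad_pos n).le (rad_lt_one n)
    exact (by fun_prop : Continuous fun θ : ℝ => Real.exp (-2 * Q φ (cexp (θ * I)) (rad n))).measurable
  have h2 : Tendsto (fun (n : ℕ) (θ : ℝ) => Real.exp (-2 * Q φ (cexp (θ * I)) (rad n))) atTop
      (𝓝 (Y φ)) := by
    rw [tendsto_pi_nhds]
    intro θ
    exact (tendsto_Y hφ hmaps (norm_cexp θ)).comp tendsto_rad
  exact measurable_of_tendsto_metrizable h1 h2

include hφ hmaps in
lemma Y_nonneg (θ : ℝ) : 0 ≤ Y φ θ := Yf_nonneg hφ hmaps (norm_cexp θ)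

include hφ hmaps in
lemma Y_lt_one (θ : ℝ) : Y φ θ < 1 := Yf_lt_one hφ hmaps (norm_cexp θ)

include hφ hmaps in
lemma mem_Eset_of_Y_pos {θ : ℝ} (h : 0 < Y φ θ) : θ ∈ Eset φ :=
  tendsto_norm_one hφ hmaps (norm_cexp θ) h

include hφ hmaps in
lemma eInd_mul_Y_pow {k : ℕ} (hk : 1 ≤ k) (θ : ℝ) : eInd φ θ * Y φ θ ^ k = Y φ θ ^ k := by
  rcases (Y_nonneg hφ hmaps θ).eq_or_lt with h | h
  · rw [← h, zero_pow (by omega), mul_zero]
  · have := mem_Eset_of_Y_pos hφ hmaps h
    unfold eInd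
    rw [Set.indicator_of_mem this]
    simp

/-- `C` is the composition operator with symbol `φ`. -/
def IsCompOp (φ : ℂ → ℂ) (C : H2 →L[ℂ] H2) : Prop :=
  ∀ (f : H2) (z : ℂ), ‖z‖ < 1 → ev (C f) z = ev f (φ z)

variable {C : H2 →L[ℂ] H2} (hC : IsCompOp φ C)

include hmaps hC in
lemma ev_C_mono (N : ℕ) {z : ℂ} (hz : ‖z‖ < 1) : ev (C (mono N)) z = φ z ^ N := by
  rw [hC _ z hz]
  apply ev_mono
  simpa using hmaps (show z ∈ ball (0 : ℂ) 1 by simpa using hz)

include hmaps hC in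
lemma energy_hasSum (N : ℕ) {r : ℝ} (hr0 : 0 ≤ r) (hr1 : r < 1) :
    HasSum (fun l => ‖(C (mono N)) l‖ ^ 2 * r ^ (2 * l))
      ((2 * π)⁻¹ * ∫ θ in (0 : ℝ)..2 * π, ‖φ (r * cexp (θ * I))‖ ^ (2 * N)) := by
  have h := hasSum_parseval (C (mono N)) hr0 hr1
  have h2 : ∀ θ : ℝ, ‖ev (C (mono N)) (r * cexp (θ * I))‖ ^ 2 =
      ‖φ (r * cexp (θ * I))‖ ^ (2 * N) := by
    intro θ
    rw [ev_C_mono hmaps hC N, norm_pow, ← pow_mul, mul_comm N 2]
    rw [norm_ofReal_mul hr0 (norm_cexp θ)]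
    exact hr1
  simp_rw [h2] at h
  exact h

/-- weighted energy -/
noncomputable def J (C : H2 →L[ℂ] H2) (N : ℕ) (g : ℝ → ℝ) : ℝ :=
  ∑' l : ℕ, ‖(C (mono N)) l‖ ^ 2 * g (Real.exp (-(2 * l / N : ℝ)))

include hφ hmaps hC in
lemma tendsto_J_pow {k : ℕ} (hk : 1 ≤ k) :
    Tendsto (fun N => J C N (fun y => y ^ k)) atTop
      (𝓝 ((2 * π)⁻¹ * ∫ θ in (0 : ℝ)..2 * π, eInd φ θ * Y φ θ ^ k)) := by
  have h1 : Tendsto (fun N : ℕ => (2 * π)⁻¹ * ∫ θ in (0 : ℝ)..2 * π,
      ‖φ ((Real.exp (-(k / N : ℝ)) : ℝ) * cexp (θ * I))‖ ^ (2 * N)) atTop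
      (𝓝 ((2 * π)⁻¹ * ∫ θ in (0 : ℝ)..2 * π, eInd φ θ * Y φ θ ^ k)) := by
    refine Tendsto.const_mul _ ?_
    refine intervalIntegral.tendsto_integral_filter_of_dominated_convergence (fun _ => 1) ?_ ?_ ?_ ?_
    · filter_upwards [eventually_gt_atTop 0] with N hN
      have hN' : (0 : ℝ) < N := by exact_mod_cast hN
      have hk' : (0 : ℝ) < k := by exact_mod_cast hk
      have hr1 : Real.exp (-(k / N : ℝ)) < 1 := by
        rw [Real.exp_lt_one_iff]
        have : 0 < (k / N : ℝ) := by positivity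
        linarith
      exact ((continuous_phi_circle hφ (Real.exp_pos _).le hr1).norm.pow _).aestronglyMeasurable
    · filter_upwards [eventually_gt_atTop 0] with N hN
      have hN' : (0 : ℝ) < N := by exact_mod_cast hN
      have hk' : (0 : ℝ) < k := by exact_mod_cast hk
      have hr1 : Real.exp (-(k / N : ℝ)) < 1 := by
        rw [Real.exp_lt_one_iff]
        have : 0 < (k / N : ℝ) := by positivity
        linarith
      refine Eventually.of_forall (fun θ _ => ?_)
      rw [norm_pow, norm_norm]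
      exact pow_le_one₀ (norm_nonneg _) (norm_phi_lt hmaps (norm_cexp θ) (Real.exp_pos _).le hr1).le
    · exact intervalIntegrable_const
    · refine Eventually.of_forall (fun θ _ => ?_)
      rw [eInd_mul_Y_pow hφ hmaps hk]
      exact tendsto_pow hφ hmaps (norm_cexp θ) hk
  refine h1.congr' ?_
  filter_upwards [eventually_gt_atTop 0] with N hN
  have hN' : (0 : ℝ) < N := by exact_mod_cast hN
  have hk' : (0 : ℝ) < k := by exact_mod_cast hk
  have hr1 : Real.exp (-(k / N : ℝ)) < 1 := by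
    rw [Real.exp_lt_one_iff]
    have : 0 < (k / N : ℝ) := by positivity
    linarith
  have h2 := energy_hasSum hmaps hC N (Real.exp_pos _).le hr1
  rw [← h2.tsum_eq]
  unfold J
  refine tsum_congr (fun l => ?_)
  congr 1
  beta_reduce
  rw [← Real.exp_nat_mul, ← Real.exp_nat_mul]
  congr 1
  push_cast
  field_simp

include hφ hmaps hC in
/-- Total energy in terms of the boundary function. -/
lemma tendsto_total_energy :
    Tendsto (fun N => ‖C (mono N)‖ ^ 2) atTop
      (𝓝 ((2 * π)⁻¹ * ∫ θ in (0 : ℝ)..2 * π, eInd φ θ)) := by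
  -- radial limits
  have hf := fatou hφ (M := 1) (fun z hz => by
    have := hmaps hz
    rw [mem_ball_zero_iff] at this
    exact_mod_cast this.le)
  set ρ : ℝ → ℝ := fun θ => limUnder (𝓝[<] (1 : ℝ)) (fun r : ℝ => ‖φ (r * cexp (θ * I))‖) with hρ
  have hlim : ∀ᵐ θ : ℝ, Tendsto (fun r : ℝ => ‖φ (r * cexp (θ * I))‖) (𝓝[<] 1) (𝓝 (ρ θ)) := by
    filter_upwards [hf] with θ hθ
    obtain ⟨w, hw⟩ := hθ
    exact tendsto_nhds_limUnder ⟨_, hw.norm⟩
  have hlimr : ∀ᵐ θ : ℝ, Tendsto (fun n : ℕ => ‖φ (rad n * cexp (θ * I))‖) atTop (𝓝 (ρ θ)) := by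
    filter_upwards [hlim] with θ hθ
    exact hθ.comp tendsto_rad
  have hρm : AEStronglyMeasurable ρ volume := by
    refine aestronglyMeasurable_of_tendsto_ae atTop
      (f := fun n (θ : ℝ) => ‖φ (rad n * cexp (θ * I))‖) (fun n => ?_) hlimr
    exact (continuous_phi_circle hφ (rad_pos n).le (rad_lt_one n)).norm.aestronglyMeasurable
  have hρ01 : ∀ᵐ θ : ℝ, 0 ≤ ρ θ ∧ ρ θ ≤ 1 := by
    filter_upwards [hlimr] with θ hθ
    refine ⟨ge_of_tendsto hθ (Eventually.of_forall fun n => norm_nonneg _),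
      le_of_tendsto hθ (Eventually.of_forall fun n => ?_)⟩
    exact (norm_phi_lt hmaps (norm_cexp θ) (rad_pos n).le (rad_lt_one n)).le
  -- formula for the total energy
  have hform : ∀ N : ℕ, ‖C (mono N)‖ ^ 2 = (2 * π)⁻¹ * ∫ θ in (0 : ℝ)..2 * π, ρ θ ^ (2 * N) := by
    intro N
    have h1 : Tendsto (fun n : ℕ => (2 * π)⁻¹ * ∫ θ in (0 : ℝ)..2 * π,
        ‖φ (rad n * cexp (θ * I))‖ ^ (2 * N)) atTop
        (𝓝 ((2 * π)⁻¹ * ∫ θ in (0 : ℝ)..2 * π, ρ θ ^ (2 * N))) := by
      refine Tendsto.const_mul _ ?_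
      refine intervalIntegral.tendsto_integral_filter_of_dominated_convergence (fun _ => 1) ?_ ?_ ?_ ?_
      · refine Eventually.of_forall (fun n => ?_)
        exact ((continuous_phi_circle hφ (rad_pos n).le
          (rad_lt_one n)).norm.pow _).aestronglyMeasurable
      · refine Eventually.of_forall (fun n => Eventually.of_forall (fun θ _ => ?_))
        rw [norm_pow, norm_norm]
        exact pow_le_one₀ (norm_nonneg _)
          (norm_phi_lt hmaps (norm_cexp θ) (rad_pos n).le (rad_lt_one n)).le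
      · exact intervalIntegrable_const
      · filter_upwards [hlimr] with θ hθ _
        exact hθ.pow _
    have h2 : Tendsto (fun n : ℕ => (2 * π)⁻¹ * ∫ θ in (0 : ℝ)..2 * π,
        ‖φ (rad n * cexp (θ * I))‖ ^ (2 * N)) atTop (𝓝 (‖C (mono N)‖ ^ 2)) := by
      have h3 : ∀ n, (2 * π)⁻¹ * ∫ θ in (0 : ℝ)..2 * π,
          ‖φ (rad n * cexp (θ * I))‖ ^ (2 * N) =
          ∑' l, ‖(C (mono N)) l‖ ^ 2 * (rad n) ^ (2 * l) := fun n =>
        (energy_hasSum hmaps hC N (rad_pos n).le (rad_lt_one n)).tsum_eq.symm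
      simp_rw [h3]
      rw [norm_sq_eq_tsum]
      refine tendsto_tsum_of_dominated_convergence (summable_norm_sq (C (mono N))) ?_ ?_
      · intro l
        have h4 : Tendsto rad atTop (𝓝 1) := tendsto_rad.mono_right nhdsWithin_le_nhds
        have := (h4.pow (2 * l)).const_mul (‖(C (mono N)) l‖ ^ 2)
        simpa using this
      · refine Eventually.of_forall (fun n l => ?_)
        rw [norm_mul, norm_pow, norm_norm, norm_pow, Real.norm_eq_abs, abs_of_pos (rad_pos n)]
        have : rad n ^ (2 * l) ≤ 1 := pow_le_one₀ (rad_pos n).le (rad_lt_one n).le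
        nlinarith [sq_nonneg ‖(C (mono N)) l‖]
    exact tendsto_nhds_unique h2 h1
  simp_rw [hform]
  refine Tendsto.const_mul _ ?_
  refine intervalIntegral.tendsto_integral_filter_of_dominated_convergence (fun _ => 1) ?_ ?_ ?_ ?_
  · refine Eventually.of_forall (fun n => ?_)
    exact (hρm.pow _).restrict
  · refine Eventually.of_forall (fun n => ?_)
    filter_upwards [hρ01] with θ hθ _
    rw [norm_pow, Real.norm_eq_abs, abs_of_nonneg hθ.1]
    exact pow_le_one₀ hθ.1 hθ.2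
  · exact intervalIntegrable_const
  · filter_upwards [hlim, hρ01] with θ hθ h01 _
    by_cases h : ρ θ = 1
    · have hE : θ ∈ Eset φ := by
        rw [h] at hθ; exact hθ
      unfold eInd
      rw [Set.indicator_of_mem hE, h]
      simp
    · have hE : θ ∉ Eset φ := by
        intro hE
        exact h (tendsto_nhds_unique hθ hE)
      unfold eInd
      rw [Set.indicator_of_notMem hE]
      have h1 : ρ θ < 1 := lt_of_le_of_ne h01.2 h
      have h2 : Tendsto (fun n : ℕ => (ρ θ ^ 2) ^ n) atTop (𝓝 0) := by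
        apply tendsto_pow_atTop_nhds_zero_of_lt_one (by positivity)
        nlinarith [h01.1]
      refine h2.congr (fun n => ?_)
      rw [← pow_mul]

end

end Pool.Agent.Pa5725d
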