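import Mathlib
import Pool.Agent.Lib.Pa5725d.Energy

/-!
# Weak convergence of the energy distribution
-/

set_option autoImplicit false

open Complex Metric MeasureTheory Filter Topology Set Polynomial
open scoped Real ComplexConjugate

namespace Pool.Agent.Pa5725d

lemma exp_mem_Icc (l N : ℕ) : Real.exp (-(2 * l / N : ℝ)) ∈ Icc (0 : ℝ) 1 := by
  refine ⟨(Real.exp_pos _).le, ?_⟩
  rw [Real.exp_le_one_iff]
  have : 0 ≤ (2 * l / N : ℝ) := by positivity
  linarith

lemma summable_J (C : H2 →L[ℂ] H2) (N : ℕ) {g : ℝ → ℝ} {B : ℝ}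
    (hB : ∀ y ∈ Icc (0 : ℝ) 1, |g y| ≤ B) :
    Summable fun l : ℕ => ‖(C (mono N)) l‖ ^ 2 * g (Real.exp (-(2 * l / N : ℝ))) := by
  refine Summable.of_norm_bounded ((summable_norm_sq (C (mono N))).mul_right B) (fun l => ?_)
  rw [norm_mul, norm_pow, norm_norm, Real.norm_eq_abs]
  have := hB _ (exp_mem_Icc l N)
  gcongr

lemma J_mono (C : H2 →L[ℂ] H2) (N : ℕ) {g h : ℝ → ℝ} {B B' : ℝ}
    (hB : ∀ y ∈ Icc (0 : ℝ) 1, |g y| ≤ B) (hB' : ∀ y ∈ Icc (0 : ℝ) 1, |h y| ≤ B')
    (hgh : ∀ y ∈ Icc (0 : ℝ) 1, g y ≤ h y) : J C N g ≤ J C N h := by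
  unfold J
  refine (summable_J C N hB).tsum_le_tsum (fun l => ?_) (summable_J C N hB')
  have := hgh _ (exp_mem_Icc l N)
  gcongr

lemma norm_C_mono_sq_le (C : H2 →L[ℂ] H2) (N : ℕ) : ‖C (mono N)‖ ^ 2 ≤ ‖C‖ ^ 2 := by
  have := C.le_opNorm (mono N)
  rw [norm_mono, mul_one] at this
  gcongr

lemma J_sub_le (C : H2 →L[ℂ] H2) (N : ℕ) {g h : ℝ → ℝ} {B B' ε : ℝ}
    (hB : ∀ y ∈ Icc (0 : ℝ) 1, |g y| ≤ B) (hB' : ∀ y ∈ Icc (0 : ℝ) 1, |h y| ≤ B')
    (hε : 0 ≤ ε) (hgh : ∀ y ∈ Icc (0 : ℝ) 1, |g y - h y| ≤ ε) :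
    |J C N g - J C N h| ≤ ε * ‖C‖ ^ 2 := by
  unfold J
  rw [← (summable_J C N hB).tsum_sub (summable_J C N hB')]
  have h1 : ∀ l : ℕ, ‖‖(C (mono N)) l‖ ^ 2 * g (Real.exp (-(2 * l / N : ℝ))) -
      ‖(C (mono N)) l‖ ^ 2 * h (Real.exp (-(2 * l / N : ℝ)))‖ ≤
      ‖(C (mono N)) l‖ ^ 2 * ε := by
    intro l
    rw [← mul_sub, norm_mul, norm_pow, norm_norm, Real.norm_eq_abs]
    have := hgh _ (exp_mem_Icc l N)
    gcongr
  have h2 := tsum_of_norm_bounded ((summable_norm_sq (C (mono N))).mul_right ε).hasSum h1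
  rw [Real.norm_eq_abs] at h2
  refine h2.trans ?_
  rw [tsum_mul_right, ← norm_sq_eq_tsum, mul_comm]
  gcongr
  have := norm_C_mono_sq_le C N
  exact abs_le_of_sq_le_sq' (by linarith) (norm_nonneg _) |>.2

lemma poly_bound (p : ℝ[X]) : ∃ B : ℝ, ∀ y ∈ Icc (0 : ℝ) 1, |p.eval y| ≤ B := by
  obtain ⟨B, hB⟩ := (isCompact_Icc (a := (0 : ℝ)) (b := 1)).exists_bound_of_continuousOn
    (f := fun y => p.eval y) p.continuous.continuousOn
  exact ⟨B, hB⟩

section

variable {φ : ℂ → ℂ} (hφ : DifferentiableOn ℂ φ (ball 0 1))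
    (hmaps : MapsTo φ (ball 0 1) (ball 0 1)) {C : H2 →L[ℂ] H2} (hC : IsCompOp φ C)

/-- limiting functional -/
noncomputable def Jlim (φ : ℂ → ℂ) (g : ℝ → ℝ) : ℝ :=
  (2 * π)⁻¹ * ∫ θ in (0 : ℝ)..2 * π, eInd φ θ * g (Y φ θ)

lemma J_one (C : H2 →L[ℂ] H2) (N : ℕ) : J C N (fun y => y ^ 0) = ‖C (mono N)‖ ^ 2 := by
  unfold J
  simp only [pow_zero, mul_one]
  rw [norm_sq_eq_tsum]

include hφ hmaps hC in
lemma tendsto_J_pow' (k : ℕ) :
    Tendsto (fun N => J C N (fun y => y ^ k)) atTop (𝓝 (Jlim φ (fun y => y ^ k))) := by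
  rcases Nat.eq_zero_or_pos k with rfl | hk
  · simp_rw [J_one]
    simp only [Jlim, pow_zero, mul_one]
    exact tendsto_total_energy hφ hmaps hC
  · exact tendsto_J_pow hφ hmaps hC hk

include hφ hmaps in
/-- measurability of the indicator -/
lemma aestronglyMeasurable_eInd : AEStronglyMeasurable (eInd φ) volume := by
  have hf := fatou hφ (M := 1) (fun z hz => by
    have := hmaps hz
    rw [mem_ball_zero_iff] at this
    exact_mod_cast this.le)
  refine aestronglyMeasurable_of_tendsto_ae atTop (f := fun N (θ : ℝ) =>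
    (limUnder (𝓝[<] (1 : ℝ)) (fun r : ℝ => ‖φ (r * cexp (θ * I))‖)) ^ (2 * N)) (fun N => ?_) ?_
  · refine AEStronglyMeasurable.pow ?_ _
    have hlimr : ∀ᵐ θ : ℝ, Tendsto (fun n : ℕ => ‖φ (rad n * cexp (θ * I))‖) atTop
        (𝓝 (limUnder (𝓝[<] (1 : ℝ)) (fun r : ℝ => ‖φ (r * cexp (θ * I))‖))) := by
      filter_upwards [hf] with θ hθ
      obtain ⟨w, hw⟩ := hθ
      exact (tendsto_nhds_limUnder ⟨_, hw.norm⟩).comp tendsto_rad
    refine aestronglyMeasurable_of_tendsto_ae atTop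
      (f := fun n (θ : ℝ) => ‖φ (rad n * cexp (θ * I))‖) (fun n => ?_) hlimr
    exact (continuous_phi_circle hφ (rad_pos n).le (rad_lt_one n)).norm.aestronglyMeasurable
  · filter_upwards [hf] with θ hθ
    obtain ⟨w, hw⟩ := hθ
    have hθ := tendsto_nhds_limUnder (f := 𝓝[<] (1 : ℝ)) ⟨_, hw.norm⟩
    set ρ := limUnder (𝓝[<] (1 : ℝ)) (fun r : ℝ => ‖φ (r * cexp (θ * I))‖)
    have h0 : 0 ≤ ρ := ge_of_tendsto hθ (Eventually.of_forall fun n => norm_nonneg _)
    have h1 : ρ ≤ 1 := by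
      refine le_of_tendsto hθ ?_
      filter_upwards [Ioo_mem_nhdsLT (show (0 : ℝ) < 1 by norm_num)] with r hr
      exact (norm_phi_lt hmaps (norm_cexp θ) hr.1.le hr.2).le
    by_cases h : ρ = 1
    · have hE : θ ∈ Eset φ := by
        rw [h] at hθ; exact hθ
      unfold eInd
      rw [Set.indicator_of_mem hE, h]
      simp
    · have hE : θ ∉ Eset φ := by
        intro hE
        exact h (tendsto_nhds_unique hθ hE)
      unfold eInd
      rw [Set.indicator_of_notMem hE]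
      have h1 : ρ < 1 := lt_of_le_of_ne h1 h
      have h2 : Tendsto (fun n : ℕ => (ρ ^ 2) ^ n) atTop (𝓝 0) := by
        apply tendsto_pow_atTop_nhds_zero_of_lt_one (by positivity)
        nlinarith
      refine h2.congr (fun n => ?_)
      rw [← pow_mul]

lemma eInd_nonneg (θ : ℝ) : 0 ≤ eInd φ θ := by
  unfold eInd
  apply Set.indicator_nonneg
  intro _ _
  exact zero_le_one

lemma eInd_le_one (θ : ℝ) : eInd φ θ ≤ 1 := by
  unfold eInd
  apply Set.indicator_le_self' (fun _ _ => zero_le_one) θ |>.trans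
  simp

include hφ hmaps in
lemma Y_mem_Icc (θ : ℝ) : Y φ θ ∈ Icc (0 : ℝ) 1 :=
  ⟨Y_nonneg hφ hmaps θ, (Y_lt_one hφ hmaps θ).le⟩

include hφ hmaps in
lemma intervalIntegrable_eInd_mul {g : ℝ → ℝ} (hg : Measurable g) {B : ℝ}
    (hB : ∀ y ∈ Icc (0 : ℝ) 1, |g y| ≤ B) :
    IntervalIntegrable (fun θ => eInd φ θ * g (Y φ θ)) volume 0 (2 * π) := by
  rw [intervalIntegrable_iff]
  refine Integrable.mono' (g := fun _ => B) ?_ ?_ ?_
  · exact (intervalIntegrable_iff.1 (intervalIntegrable_const (c := B)))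
  · exact ((aestronglyMeasurable_eInd hφ hmaps).mul
      (hg.comp (measurable_Y hφ hmaps)).aestronglyMeasurable).restrict
  · refine Eventually.of_forall (fun θ => ?_)
    rw [norm_mul, Real.norm_eq_abs, Real.norm_eq_abs, abs_of_nonneg (eInd_nonneg θ)]
    calc eInd φ θ * |g (Y φ θ)| ≤ 1 * B := by
          have h1 := eInd_le_one (φ := φ) θ
          have h2 := hB _ (Y_mem_Icc hφ hmaps θ)
          gcongr
      _ = B := one_mul B

include hφ hmaps hC in
lemma tendsto_J_poly (p : ℝ[X]) :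
    Tendsto (fun N => J C N (fun y => p.eval y)) atTop (𝓝 (Jlim φ (fun y => p.eval y))) := by
  induction p using Polynomial.induction_on' with
  | add p q hp hq =>
    obtain ⟨B, hB⟩ := poly_bound p
    obtain ⟨B', hB'⟩ := poly_bound q
    have h1 : ∀ N, J C N (fun y => (p + q).eval y) =
        J C N (fun y => p.eval y) + J C N (fun y => q.eval y) := by
      intro N
      unfold J
      rw [← (summable_J C N hB).tsum_add (summable_J C N hB')]
      refine tsum_congr (fun l => ?_)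
      simp only [Polynomial.eval_add]
      ring
    have h2 : Jlim φ (fun y => (p + q).eval y) =
        Jlim φ (fun y => p.eval y) + Jlim φ (fun y => q.eval y) := by
      unfold Jlim
      rw [← mul_add, ← intervalIntegral.integral_add
        (intervalIntegrable_eInd_mul hφ hmaps p.continuous.measurable hB)
        (intervalIntegrable_eInd_mul hφ hmaps q.continuous.measurable hB')]
      congr 1
      refine intervalIntegral.integral_congr (fun θ _ => ?_)
      simp only [Polynomial.eval_add]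
      ring
    simp_rw [h1]
    rw [h2]
    exact hp.add hq
  | monomial n a =>
    have h1 : ∀ N, J C N (fun y => (Polynomial.monomial n a).eval y) =
        a * J C N (fun y => y ^ n) := by
      intro N
      unfold J
      rw [← tsum_mul_left]
      refine tsum_congr (fun l => ?_)
      simp only [Polynomial.eval_monomial]
      ring
    have h2 : Jlim φ (fun y => (Polynomial.monomial n a).eval y) =
        a * Jlim φ (fun y => y ^ n) := by
      unfold Jlim
      rw [mul_left_comm]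
      congr 1
      rw [← intervalIntegral.integral_const_mul]
      refine intervalIntegral.integral_congr (fun θ _ => ?_)
      simp only [Polynomial.eval_monomial]
      ring
    simp_rw [h1]
    rw [h2]
    exact (tendsto_J_pow' hφ hmaps hC n).const_mul a

include hφ hmaps in
lemma Jlim_sub_le {g h : ℝ → ℝ} (hgm : Measurable g) (hhm : Measurable h) {B B' ε : ℝ}
    (hB : ∀ y ∈ Icc (0 : ℝ) 1, |g y| ≤ B) (hB' : ∀ y ∈ Icc (0 : ℝ) 1, |h y| ≤ B')
    (hgh : ∀ y ∈ Icc (0 : ℝ) 1, |g y - h y| ≤ ε) :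
    |Jlim φ g - Jlim φ h| ≤ ε := by
  unfold Jlim
  rw [← mul_sub, ← intervalIntegral.integral_sub
        (intervalIntegrable_eInd_mul hφ hmaps hgm hB)
        (intervalIntegrable_eInd_mul hφ hmaps hhm hB'), abs_mul, abs_of_pos (by positivity)]
  have h1 : |∫ θ in (0 : ℝ)..2 * π, (eInd φ θ * g (Y φ θ) - eInd φ θ * h (Y φ θ))| ≤
      ε * |2 * π - 0| := by
    rw [← Real.norm_eq_abs]
    refine intervalIntegral.norm_integral_le_of_norm_le_const (fun θ _ => ?_)
    rw [← mul_sub, norm_mul, Real.norm_eq_abs, Real.norm_eq_abs, abs_of_nonneg (eInd_nonneg θ)]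
    calc eInd φ θ * |g (Y φ θ) - h (Y φ θ)| ≤ 1 * ε := by
          have h1 := eInd_le_one (φ := φ) θ
          have h2 := hgh _ (Y_mem_Icc hφ hmaps θ)
          gcongr
      _ = ε := one_mul ε
  rw [sub_zero, abs_of_pos (by positivity : (0 : ℝ) < 2 * π)] at h1
  calc (2 * π)⁻¹ * |∫ θ in (0 : ℝ)..2 * π, (eInd φ θ * g (Y φ θ) - eInd φ θ * h (Y φ θ))|
      ≤ (2 * π)⁻¹ * (ε * (2 * π)) := by gcongr
    _ = ε := by field_simp

include hφ hmaps hC in
/-- Weak convergence of the energy distribution. -/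
theorem tendsto_J_continuous {g : ℝ → ℝ} (hg : Continuous g) :
    Tendsto (fun N => J C N g) atTop (𝓝 (Jlim φ g)) := by
  obtain ⟨B, hB⟩ := (isCompact_Icc (a := (0 : ℝ)) (b := 1)).exists_bound_of_continuousOn
    (f := g) hg.continuousOn
  rw [Metric.tendsto_atTop]
  intro ε hε
  set η := ε / (4 * (‖C‖ ^ 2 + 1)) with hη
  have hη0 : 0 < η := by positivity
  have hη1 : η ≤ ε / 4 := by
    rw [hη]
    have : (4 : ℝ) ≤ 4 * (‖C‖ ^ 2 + 1) := by nlinarith [sq_nonneg ‖C‖]
    gcongr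
  have hη2 : η * ‖C‖ ^ 2 ≤ ε / 4 := by
    rw [hη, div_mul_eq_mul_div, div_le_div_iff₀ (by positivity) (by positivity)]
    nlinarith [sq_nonneg ‖C‖]
  obtain ⟨p, hp⟩ := exists_polynomial_near_of_continuousOn 0 1 g hg.continuousOn η hη0
  obtain ⟨B', hB'⟩ := poly_bound p
  have h1 := (Metric.tendsto_atTop.1 (tendsto_J_poly hφ hmaps hC p)) (ε / 4) (by positivity)
  obtain ⟨N₀, hN₀⟩ := h1
  refine ⟨N₀, fun N hN => ?_⟩
  have h2 := hN₀ N hN
  rw [Real.dist_eq] at h2 ⊢
  have h3 := J_sub_le C N hB hB' hη0.le (fun y hy => by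
    rw [abs_sub_comm]; exact (hp y hy).le)
  have h4 := Jlim_sub_le hφ hmaps p.continuous.measurable hg.measurable hB' hB
    (fun y hy => (hp y hy).le)
  have e : J C N g - Jlim φ g = (J C N g - J C N (fun y => p.eval y)) +
      (J C N (fun y => p.eval y) - Jlim φ (fun y => p.eval y)) +
      (Jlim φ (fun y => p.eval y) - Jlim φ g) := by ring
  rw [e]
  have := abs_add_three (J C N g - J C N (fun y => p.eval y))
      (J C N (fun y => p.eval y) - Jlim φ (fun y => p.eval y))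
      (Jlim φ (fun y => p.eval y) - Jlim φ g)
  linarith

end

end Pool.Agent.Pa5725d
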