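import Mathlib
import Pool.Agent.Lib.Pa5725d.Weak

/-!
# Sufficiency and (first half of) necessity
-/

set_option autoImplicit false

open Complex Metric MeasureTheory Filter Topology Set
open scoped Real ComplexConjugate

namespace Pool.Agent.Pa5725d

/-- `M_z^{*n} C M_z^n`. -/
noncomputable def Tn (C : H2 →L[ℂ] H2) (n : ℕ) : H2 →L[ℂ] H2 :=
  (ContinuousLinearMap.adjoint Mz) ^ n * C * Mz ^ n

/-- Strongly asymptotically Toeplitz: `M_z^{*n} C M_z^n` converges in the strong operator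
topology. -/
def IsSAT (C : H2 →L[ℂ] H2) : Prop :=
  ∃ A : H2 →L[ℂ] H2, ∀ f : H2, Tendsto (fun n : ℕ => Tn C n f) atTop (𝓝 (A f))

lemma Tn_apply (C : H2 →L[ℂ] H2) (n : ℕ) (f : H2) :
    Tn C n f = ((ContinuousLinearMap.adjoint Mz) ^ n) (C ((Mz ^ n) f)) := rfl

lemma Tn_mono_apply (C : H2 →L[ℂ] H2) (n k j : ℕ) :
    (Tn C n (mono k)) j = (C (mono (n + k))) (j + n) := by
  rw [Tn_apply, adjoint_Mz_pow_apply, Mz_pow_mono]

lemma norm_adjoint_Mz_le : ‖ContinuousLinearMap.adjoint Mz‖ ≤ 1 := by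
  rw [LinearIsometryEquiv.norm_map]
  exact norm_Mz_le

lemma norm_adjoint_pow_le (n : ℕ) : ‖(ContinuousLinearMap.adjoint Mz) ^ n‖ ≤ 1 := by
  rcases Nat.eq_zero_or_pos n with rfl | hn
  · rw [pow_zero]; exact ContinuousLinearMap.norm_id_le
  · exact (norm_pow_le' _ hn).trans (pow_le_one₀ (norm_nonneg _) norm_adjoint_Mz_le)

lemma norm_Mz_pow_le (n : ℕ) : ‖Mz ^ n‖ ≤ 1 := by
  rcases Nat.eq_zero_or_pos n with rfl | hn
  · rw [pow_zero]; exact ContinuousLinearMap.norm_id_le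
  · exact (norm_pow_le' _ hn).trans (pow_le_one₀ (norm_nonneg _) norm_Mz_le)

lemma norm_Tn_le (C : H2 →L[ℂ] H2) (n : ℕ) : ‖Tn C n‖ ≤ ‖C‖ := by
  unfold Tn
  calc ‖(ContinuousLinearMap.adjoint Mz) ^ n * C * Mz ^ n‖
      ≤ ‖(ContinuousLinearMap.adjoint Mz) ^ n * C‖ * ‖Mz ^ n‖ := norm_mul_le _ _
    _ ≤ (‖(ContinuousLinearMap.adjoint Mz) ^ n‖ * ‖C‖) * ‖Mz ^ n‖ := by
      gcongr; exact norm_mul_le _ _
    _ ≤ (1 * ‖C‖) * 1 := by
      gcongr
      · exact norm_adjoint_pow_le n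
      · exact norm_Mz_pow_le n
    _ = ‖C‖ := by ring

/-- A bounded sequence of operators converging to zero on the monomials converges strongly to
zero. -/
lemma tendsto_zero_of_mono {L : ℕ → H2 →L[ℂ] H2} {K : ℝ} (hK : ∀ n, ‖L n‖ ≤ K)
    (h : ∀ k, Tendsto (fun n => L n (mono k)) atTop (𝓝 0)) (f : H2) :
    Tendsto (fun n => L n f) atTop (𝓝 0) := by
  have hK0 : 0 ≤ K := (norm_nonneg _).trans (hK 0)
  let Z : Submodule ℂ H2 :=
    { carrier := {x | Tendsto (fun n => L n x) atTop (𝓝 0)}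
      add_mem' := by
        intro a b ha hb
        simp only [Set.mem_ofPred_eq] at ha hb ⊢
        simpa using ha.add hb
      zero_mem' := by simp
      smul_mem' := by
        intro c a ha
        simp only [Set.mem_ofPred_eq] at ha ⊢
        simpa using ha.const_smul c }
  have hZc : IsClosed (Z : Set H2) := by
    rw [← isSeqClosed_iff_isClosed]
    intro u a hu hua
    show Tendsto (fun n => L n a) atTop (𝓝 0)
    rw [Metric.tendsto_atTop]
    intro ε hε
    have h1 : Tendsto (fun m => K * ‖a - u m‖) atTop (𝓝 0) := by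
      have : Tendsto (fun m => ‖a - u m‖) atTop (𝓝 0) := by
        have := (tendsto_iff_norm_sub_tendsto_zero.1 hua)
        simpa [norm_sub_rev] using this
      simpa using this.const_mul K
    obtain ⟨m, hm⟩ := (h1.eventually (gt_mem_nhds (half_pos hε))).exists
    have h2 := (Metric.tendsto_atTop.1 (show Tendsto (fun n => L n (u m)) atTop (𝓝 0) from hu m))
      (ε / 2) (half_pos hε)
    obtain ⟨N, hN⟩ := h2
    refine ⟨N, fun n hn => ?_⟩
    have h3 := hN n hn
    rw [dist_zero_right] at h3 ⊢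
    have h4 : L n a = L n (a - u m) + L n (u m) := by rw [← map_add]; simp
    calc ‖L n a‖ ≤ ‖L n (a - u m)‖ + ‖L n (u m)‖ := by rw [h4]; exact norm_add_le _ _
      _ ≤ K * ‖a - u m‖ + ‖L n (u m)‖ := by
        gcongr
        exact (L n).le_of_opNorm_le (hK n) _
      _ < ε / 2 + ε / 2 := by gcongr
      _ = ε := by ring
  have h1 : (Submodule.span ℂ (Set.range mono)).topologicalClosure ≤ Z := by
    refine Submodule.topologicalClosure_minimal _ ?_ hZc
    refine Submodule.span_le.2 ?_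
    rintro _ ⟨k, rfl⟩
    exact h k
  rw [dense_span_mono] at h1
  exact h1 Submodule.mem_top

/-- cut-off at `exp (-2)` from above -/
noncomputable def gUp (δ : ℝ) (y : ℝ) : ℝ := max 0 (min 1 (2 - (y - Real.exp (-2)) / δ))

/-- cut-off below `exp (-2)` -/
noncomputable def gDown (δ : ℝ) (y : ℝ) : ℝ := max 0 (min 1 ((Real.exp (-2) - y) / δ - 1))

lemma continuous_gUp (δ : ℝ) : Continuous (gUp δ) := by unfold gUp; fun_prop

lemma continuous_gDown (δ : ℝ) : Continuous (gDown δ) := by unfold gDown; fun_prop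

lemma gUp_nonneg (δ y : ℝ) : 0 ≤ gUp δ y := le_max_left _ _

lemma gDown_nonneg (δ y : ℝ) : 0 ≤ gDown δ y := le_max_left _ _

lemma gUp_le_one (δ y : ℝ) : gUp δ y ≤ 1 := max_le zero_le_one (min_le_left _ _)

lemma gDown_le_one (δ y : ℝ) : gDown δ y ≤ 1 := max_le zero_le_one (min_le_left _ _)

lemma gUp_eq_one {δ y : ℝ} (hδ : 0 < δ) (h : y ≤ Real.exp (-2) + δ) : gUp δ y = 1 := by
  unfold gUp
  have : (y - Real.exp (-2)) / δ ≤ 1 := by rw [div_le_one hδ]; linarith
  rw [min_eq_left (by linarith)]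
  exact max_eq_right zero_le_one

lemma gUp_eq_zero {δ y : ℝ} (hδ : 0 < δ) (h : Real.exp (-2) + 2 * δ ≤ y) : gUp δ y = 0 := by
  unfold gUp
  have : 2 ≤ (y - Real.exp (-2)) / δ := by rw [le_div_iff₀ hδ]; linarith
  apply max_eq_left
  exact (min_le_right _ _).trans (by linarith)

lemma gDown_eq_one {δ y : ℝ} (hδ : 0 < δ) (h : y ≤ Real.exp (-2) - 2 * δ) : gDown δ y = 1 := by
  unfold gDown
  have : 2 ≤ (Real.exp (-2) - y) / δ := by rw [le_div_iff₀ hδ]; linarith
  rw [min_eq_left (by linarith)]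
  exact max_eq_right zero_le_one

lemma gDown_eq_zero {δ y : ℝ} (hδ : 0 < δ) (h : Real.exp (-2) - δ ≤ y) : gDown δ y = 0 := by
  unfold gDown
  have : (Real.exp (-2) - y) / δ ≤ 1 := by rw [div_le_one hδ]; linarith
  apply max_eq_left
  exact (min_le_right _ _).trans (by linarith)

lemma norm_Tn_mono_sq (C : H2 →L[ℂ] H2) (n k : ℕ) :
    ‖Tn C n (mono k)‖ ^ 2 = ∑' j, ‖(C (mono (n + k))) (j + n)‖ ^ 2 := by
  rw [norm_sq_eq_tsum]
  simp_rw [Tn_mono_apply]

section

variable {φ : ℂ → ℂ} (hφ : DifferentiableOn ℂ φ (ball 0 1))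
    (hmaps : MapsTo φ (ball 0 1) (ball 0 1)) {C : H2 →L[ℂ] H2} (hC : IsCompOp φ C)

lemma tail_le_J (C : H2 →L[ℂ] H2) {δ : ℝ} (hδ : 0 < δ) (k : ℕ) : ∀ᶠ n : ℕ in atTop,
    ‖Tn C n (mono k)‖ ^ 2 ≤ J C (n + k) (gUp δ) := by
  -- `exp (-2 n / (n + k)) → exp (-2)`
  have h1 : Tendsto (fun n : ℕ => Real.exp (-(2 * n / ((n + k : ℕ) : ℝ)))) atTop
      (𝓝 (Real.exp (-2))) := by
    have h2 : Tendsto (fun n : ℕ => (2 * n / ((n + k : ℕ) : ℝ) : ℝ)) atTop (𝓝 2) := by
      have h3 : Tendsto (fun n : ℕ => ((n : ℝ) / (n + (k : ℝ)))) atTop (𝓝 1) :=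
        tendsto_natCast_div_add_atTop (k : ℝ)
      have h4 := h3.const_mul 2
      rw [mul_one] at h4
      refine h4.congr (fun n => ?_)
      push_cast
      ring
    exact (Real.continuous_exp.tendsto _).comp h2.neg
  have h2 := h1.eventually (gt_mem_nhds (show Real.exp (-2) < Real.exp (-2) + δ by linarith))
  filter_upwards [h2] with n hn
  rw [norm_Tn_mono_sq]
  have hsum := summable_J C (n + k) (g := gUp δ) (B := 1) (fun y _ => by
    rw [abs_of_nonneg (gUp_nonneg _ _)]; exact gUp_le_one _ _)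
  unfold J
  rw [← hsum.sum_add_tsum_nat_add n]
  have h3 : ∀ j : ℕ, ‖(C (mono (n + k))) (j + n)‖ ^ 2 =
      ‖(C (mono (n + k))) (j + n)‖ ^ 2 *
        gUp δ (Real.exp (-(2 * ((j + n : ℕ) : ℝ) / ((n + k : ℕ) : ℝ)))) := by
    intro j
    rw [gUp_eq_one hδ, mul_one]
    refine le_trans ?_ hn.le
    rw [Real.exp_le_exp, neg_le_neg_iff]
    have : (n : ℝ) ≤ ((j + n : ℕ) : ℝ) := by exact_mod_cast Nat.le_add_left n j
    gcongr
  rw [tsum_congr h3]
  have : 0 ≤ ∑ i ∈ Finset.range n, ‖(C (mono (n + k))) i‖ ^ 2 *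
      gUp δ (Real.exp (-(2 * (i : ℝ) / ((n + k : ℕ) : ℝ)))) := by
    refine Finset.sum_nonneg (fun i _ => ?_)
    have := gUp_nonneg δ (Real.exp (-(2 * (i : ℝ) / ((n + k : ℕ) : ℝ))))
    positivity
  linarith

include hφ hmaps in
lemma tendsto_Jlim_gUp (hE : ∀ᵐ θ ∂(volume.restrict (Ioc 0 (2 * π))),
      θ ∈ Eset φ → Real.exp (-2) < Y φ θ) :
    Tendsto (fun m : ℕ => Jlim φ (gUp (1 / ((m : ℝ) + 1)))) atTop (𝓝 0) := by
  have key : Tendsto (fun m : ℕ => ∫ θ in (0 : ℝ)..2 * π,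
      eInd φ θ * gUp (1 / ((m : ℝ) + 1)) (Y φ θ)) atTop
      (𝓝 (∫ _θ in (0 : ℝ)..2 * π, (0 : ℝ))) := ?_
  · have h1 := key.const_mul (2 * π)⁻¹
    simp only [intervalIntegral.integral_zero, mul_zero] at h1
    exact h1
  refine intervalIntegral.tendsto_integral_filter_of_dominated_convergence (fun _ => (1 : ℝ))
    ?_ ?_ ?_ ?_
  · refine Eventually.of_forall (fun m => ?_)
    exact ((aestronglyMeasurable_eInd hφ hmaps).mul
      ((continuous_gUp _).measurable.comp (measurable_Y hφ hmaps)).aestronglyMeasurable).restrict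
  · refine Eventually.of_forall (fun m => Eventually.of_forall (fun θ _ => ?_))
    rw [norm_mul, Real.norm_eq_abs, Real.norm_eq_abs, abs_of_nonneg (eInd_nonneg θ),
      abs_of_nonneg (gUp_nonneg _ _)]
    exact mul_le_one₀ (eInd_le_one θ) (gUp_nonneg _ _) (gUp_le_one _ _)
  · exact intervalIntegrable_const
  · rw [← ae_restrict_iff' measurableSet_uIoc, uIoc_of_le (by positivity)]
    filter_upwards [hE] with θ hθ
    by_cases h : θ ∈ Eset φ
    · have h1 := hθ h
      have h2 : Tendsto (fun m : ℕ => Real.exp (-2) + 2 * (1 / ((m : ℝ) + 1))) atTop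
          (𝓝 (Real.exp (-2))) := by
        have := (tendsto_one_div_add_atTop_nhds_zero_nat (𝕜 := ℝ)).const_mul 2
        have := this.const_add (Real.exp (-2))
        simpa using this
      refine tendsto_const_nhds.congr' ?_
      filter_upwards [h2.eventually (gt_mem_nhds h1)] with m hm
      rw [gUp_eq_zero (by positivity) hm.le, mul_zero]
    · have : eInd φ θ = 0 := by unfold eInd; exact Set.indicator_of_notMem h _
      rw [this]
      simp

include hφ hmaps hC in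
/-- **Sufficiency.** -/
theorem isSAT_of_ae (hE : ∀ᵐ θ ∂(volume.restrict (Ioc 0 (2 * π))),
    θ ∈ Eset φ → Real.exp (-2) < Y φ θ) : IsSAT C := by
  refine ⟨0, fun f => ?_⟩
  rw [zero_apply]
  refine tendsto_zero_of_mono (norm_Tn_le C) (fun k => ?_) f
  -- show `‖Tn C n (mono k)‖² → 0`
  have hsq : Tendsto (fun n => ‖Tn C n (mono k)‖ ^ 2) atTop (𝓝 0) := by
    rw [Metric.tendsto_atTop]
    intro ε hε
    obtain ⟨m, hm⟩ := ((tendsto_Jlim_gUp hφ hmaps hE).eventually
      (gt_mem_nhds (half_pos hε))).exists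
    have hδ : 0 < 1 / ((m : ℝ) + 1) := by positivity
    have h1 := (tendsto_J_continuous hφ hmaps hC (continuous_gUp (1 / ((m : ℝ) + 1)))).comp
      (tendsto_add_atTop_nat k)
    have h2 := h1.eventually (gt_mem_nhds hm)
    obtain ⟨n₀, hn₀⟩ := eventually_atTop.1 (h2.and (tail_le_J C hδ k))
    refine ⟨n₀, fun n hn => ?_⟩
    obtain ⟨h3, h4⟩ := hn₀ n hn
    rw [Real.dist_eq, sub_zero, abs_of_nonneg (by positivity)]
    simp only [Function.comp_apply] at h3
    linarith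
  have h1 := (Real.continuous_sqrt.tendsto 0).comp hsq
  rw [Real.sqrt_zero] at h1
  rw [tendsto_zero_iff_norm_tendsto_zero]
  refine h1.congr (fun n => ?_)
  simp only [Function.comp_apply]
  exact Real.sqrt_sq (norm_nonneg _)

/-- `‖adj^J x‖² = ∑_{j ≥ J} |x_j|²`. -/
lemma norm_adjoint_pow_sq (x : H2) (m : ℕ) :
    ‖((ContinuousLinearMap.adjoint Mz) ^ m) x‖ ^ 2 = ∑' j, ‖x (j + m)‖ ^ 2 := by
  rw [norm_sq_eq_tsum]
  simp_rw [adjoint_Mz_pow_apply]

lemma tendsto_norm_adjoint_pow (x : H2) :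
    Tendsto (fun m => ‖((ContinuousLinearMap.adjoint Mz) ^ m) x‖ ^ 2) atTop (𝓝 0) := by
  simp_rw [norm_adjoint_pow_sq]
  exact tendsto_sum_nat_add (fun j => ‖x j‖ ^ 2)

lemma J_gDown_le (C : H2 →L[ℂ] H2) {δ : ℝ} (hδ : 0 < δ) (m : ℕ) :
    ∀ᶠ n : ℕ in atTop, J C n (gDown δ) ≤
      ‖((ContinuousLinearMap.adjoint Mz) ^ m) (Tn C n (mono 0))‖ ^ 2 := by
  -- `exp (-2 (m + n) / n) → exp (-2)`
  have h1 : Tendsto (fun n : ℕ => Real.exp (-(2 * ((m + n : ℕ) : ℝ) / n))) atTop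
      (𝓝 (Real.exp (-2))) := by
    have h2 : Tendsto (fun n : ℕ => (2 * ((m + n : ℕ) : ℝ) / n : ℝ)) atTop (𝓝 2) := by
      have h3 : Tendsto (fun n : ℕ => 2 * ((m : ℝ) / n) + 2) atTop (𝓝 (2 * 0 + 2)) :=
        ((tendsto_const_div_atTop_nhds_zero_nat (m : ℝ)).const_mul 2).add_const 2
      simp only [mul_zero, zero_add] at h3
      refine h3.congr' ?_
      filter_upwards [eventually_gt_atTop 0] with n hn
      have : (n : ℝ) ≠ 0 := by positivity
      push_cast
      field_simp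
    exact (Real.continuous_exp.tendsto _).comp h2.neg
  have h2 := h1.eventually (lt_mem_nhds (show Real.exp (-2) - δ < Real.exp (-2) by linarith))
  filter_upwards [h2] with n hn
  have hsum := summable_J C n (g := gDown δ) (B := 1) (fun y _ => by
    rw [abs_of_nonneg (gDown_nonneg _ _)]; exact gDown_le_one _ _)
  unfold J
  rw [← hsum.sum_add_tsum_nat_add (m + n)]
  have hzero : ∑ i ∈ Finset.range (m + n), ‖(C (mono n)) i‖ ^ 2 *
      gDown δ (Real.exp (-(2 * (i : ℝ) / (n : ℝ)))) = 0 := by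
    refine Finset.sum_eq_zero (fun i hi => ?_)
    rw [gDown_eq_zero hδ, mul_zero]
    refine hn.le.trans ?_
    rw [Real.exp_le_exp, neg_le_neg_iff]
    have : (i : ℝ) ≤ ((m + n : ℕ) : ℝ) := by
      exact_mod_cast (Finset.mem_range.1 hi).le
    gcongr
  rw [hzero, zero_add, norm_adjoint_pow_sq]
  have hs2 : Summable fun j => ‖(Tn C n (mono 0)) (j + m)‖ ^ 2 :=
    (summable_nat_add_iff m).2 (summable_norm_sq (Tn C n (mono 0)))
  refine ((summable_nat_add_iff (m + n)).2 hsum).tsum_le_tsum (fun j => ?_) hs2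
  rw [Tn_mono_apply, add_zero, show j + m + n = j + (m + n) by ring]
  have h3 := gDown_le_one δ (Real.exp (-(2 * ((j + (m + n) : ℕ) : ℝ) / (n : ℝ))))
  have h4 : 0 ≤ ‖(C (mono n)) (j + (m + n))‖ ^ 2 := by positivity
  nlinarith

include hφ hmaps hC in
lemma Jlim_gDown_le_zero (hS : IsSAT C) {δ : ℝ} (hδ : 0 < δ) :
    Jlim φ (gDown δ) ≤ 0 := by
  obtain ⟨A, hA⟩ := hS
  have h1 : ∀ m : ℕ, Jlim φ (gDown δ) ≤
      ‖((ContinuousLinearMap.adjoint Mz) ^ m) (A (mono 0))‖ ^ 2 := by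
    intro m
    have h2 := tendsto_J_continuous hφ hmaps hC (continuous_gDown δ)
    have h3 : Tendsto (fun n => ‖((ContinuousLinearMap.adjoint Mz) ^ m) (Tn C n (mono 0))‖ ^ 2)
        atTop (𝓝 (‖((ContinuousLinearMap.adjoint Mz) ^ m) (A (mono 0))‖ ^ 2)) :=
      (((((ContinuousLinearMap.adjoint Mz) ^ m).continuous.tendsto _).comp (hA (mono 0))).norm).pow 2
    exact le_of_tendsto_of_tendsto h2 h3 (J_gDown_le C hδ m)
  exact ge_of_tendsto (tendsto_norm_adjoint_pow (A (mono 0))) (Eventually.of_forall h1)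

include hφ hmaps hC in
/-- **Necessity, first half.** -/
theorem ae_le_of_isSAT (hS : IsSAT C) :
    ∀ᵐ θ ∂(volume.restrict (Ioc 0 (2 * π))), θ ∈ Eset φ → Real.exp (-2) ≤ Y φ θ := by
  have h1 : ∀ m : ℕ, ∀ᵐ θ ∂(volume.restrict (Ioc 0 (2 * π))),
      eInd φ θ * gDown (Real.exp (-2) / ((m : ℝ) + 2)) (Y φ θ) = 0 := by
    intro m
    set δ := Real.exp (-2) / ((m : ℝ) + 2) with hδdef
    have hδ : 0 < δ := by positivity
    have h2 := Jlim_gDown_le_zero hφ hmaps hC hS hδ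
    have hint : IntervalIntegrable (fun θ => eInd φ θ * gDown δ (Y φ θ)) volume 0 (2 * π) :=
      intervalIntegrable_eInd_mul hφ hmaps (continuous_gDown δ).measurable (B := 1) (fun y _ => by
        rw [abs_of_nonneg (gDown_nonneg _ _)]; exact gDown_le_one _ _)
    have hnn : 0 ≤ fun θ => eInd φ θ * gDown δ (Y φ θ) := fun θ =>
      mul_nonneg (eInd_nonneg θ) (gDown_nonneg _ _)
    have h3 : ∫ θ in (0 : ℝ)..2 * π, eInd φ θ * gDown δ (Y φ θ) = 0 := by
      apply le_antisymm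
      · unfold Jlim at h2
        by_contra h
        push Not at h
        have : 0 < (2 * π)⁻¹ * ∫ θ in (0 : ℝ)..2 * π, eInd φ θ * gDown δ (Y φ θ) := by positivity
        linarith
      · exact intervalIntegral.integral_nonneg (by positivity) (fun θ _ => hnn θ)
    rw [intervalIntegral.integral_of_le (by positivity)] at h3
    have h4 := (integral_eq_zero_iff_of_nonneg hnn
      ((intervalIntegrable_iff_integrableOn_Ioc_of_le (by positivity)).1 hint)).1 h3
    filter_upwards [h4] with θ hθ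
    simpa using hθ
  rw [← ae_all_iff] at h1
  filter_upwards [h1] with θ hθ hE
  by_contra hlt
  push Not at hlt
  have hlim : Tendsto (fun m : ℕ => Real.exp (-2) - 2 * (Real.exp (-2) / ((m : ℝ) + 2))) atTop
      (𝓝 (Real.exp (-2))) := by
    have h5 : Tendsto (fun m : ℕ => Real.exp (-2) / ((m : ℝ) + 2)) atTop (𝓝 0) := by
      refine Tendsto.div_atTop tendsto_const_nhds ?_
      exact tendsto_atTop_add_const_right _ _ tendsto_natCast_atTop_atTop
    have := (h5.const_mul 2).const_sub (Real.exp (-2))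
    simpa using this
  obtain ⟨m, hm⟩ := (hlim.eventually (lt_mem_nhds hlt)).exists
  have h6 := hθ m
  rw [gDown_eq_one (by positivity) hm.le] at h6
  have h7 : eInd φ θ = 1 := by
    unfold eInd; rw [Set.indicator_of_mem hE]; rfl
  rw [h7] at h6
  norm_num at h6

end

end Pool.Agent.Pa5725d
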