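import Mathlib
import Pool.Agent.Lib.Pa5725d.Energy

/-!
# Julia's inequality and the rigidity estimate at points where the angular derivative is one
-/

set_option autoImplicit false

open Complex Metric MeasureTheory Filter Topology Set
open scoped Real ComplexConjugate

namespace Pool.Agent.Pa5725d

lemma re_div_eq (a b : ℂ) : ((a + b) / (a - b)).re = (‖a‖ ^ 2 - ‖b‖ ^ 2) / ‖a - b‖ ^ 2 := by
  have := congrFun (poissonKernel_eq_re_herglotzRieszKernel (c := 0) (w := b)) a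
  simpa [poissonKernel_def, herglotzRieszKernel_def] using this.symm

lemma le_norm_of_Q_le_one {φ : ℂ → ℂ} {ζ : ℂ} {r : ℝ} (hr1 : r < 1) (hQ : Q φ ζ r ≤ 1) :
    r ≤ ‖φ (r * ζ)‖ := by
  unfold Q at hQ
  set x := ‖φ (r * ζ)‖
  have hx : 0 ≤ x := norm_nonneg _
  rw [div_mul_div_comm, div_le_one (mul_pos (by linarith) (by linarith))] at hQ
  nlinarith

section

variable {φ : ℂ → ℂ} (hφ : DifferentiableOn ℂ φ (ball 0 1))
    (hmaps : MapsTo φ (ball 0 1) (ball 0 1)) {ζ : ℂ} (hζ : ‖ζ‖ = 1)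
    (hQ : ∀ r : ℝ, 0 ≤ r → r < 1 → Q φ ζ r ≤ 1)

lemma norm_one_sub_conj_mul {a b : ℂ} (ha : ‖a‖ = 1) : ‖1 - conj a * b‖ = ‖a - b‖ := by
  have h1 : a * conj a = 1 := by
    rw [Complex.mul_conj, Complex.normSq_eq_norm_sq, ha]; simp
  have h2 : a * (1 - conj a * b) = a - b := by
    calc a * (1 - conj a * b) = a - (a * conj a) * b := by ring
      _ = a - b := by rw [h1, one_mul]
  rw [← h2, norm_mul, ha, one_mul]

include hφ hmaps hζ hQ in
/-- **Julia's inequality** with constant one. -/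
theorem julia : ∃ α : ℂ, ‖α‖ = 1 ∧ ∀ z : ℂ, ‖z‖ < 1 →
      ‖α - φ z‖ ^ 2 * (1 - ‖z‖ ^ 2) ≤ (1 - ‖φ z‖ ^ 2) * ‖ζ - z‖ ^ 2 := by
  have hmapsn : ∀ z : ℂ, ‖z‖ < 1 → ‖φ z‖ < 1 := by
    intro z hz
    simpa using hmaps (show z ∈ ball 0 1 by simpa using hz)
  have hy : ∀ n : ℕ, φ (rad n * ζ) ∈ closedBall (0 : ℂ) 1 := by
    intro n
    rw [mem_closedBall_zero_iff]
    refine (hmapsn _ ?_).le
    rw [norm_ofReal_mul (rad_pos n).le hζ]
    exact rad_lt_one n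
  obtain ⟨α, -, ψ, hψ, hlim⟩ := (isCompact_closedBall (0 : ℂ) 1).tendsto_subseq hy
  have hrad : Tendsto (fun n => rad (ψ n)) atTop (𝓝 1) :=
    (tendsto_rad.mono_right nhdsWithin_le_nhds).comp hψ.tendsto_atTop
  have hα : ‖α‖ = 1 := by
    have h1 : Tendsto (fun n => ‖φ (rad (ψ n) * ζ)‖) atTop (𝓝 ‖α‖) := hlim.norm
    refine tendsto_nhds_unique h1 (tendsto_of_tendsto_of_tendsto_of_le_of_le hrad
      tendsto_const_nhds (fun n => ?_) (fun n => ?_))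
    · exact le_norm_of_Q_le_one (rad_lt_one _) (hQ _ (rad_pos _).le (rad_lt_one _))
    · exact mem_closedBall_zero_iff.1 (hy _)
  refine ⟨α, hα, fun z hz => ?_⟩
  have h2 : ∀ n, (1 - ‖z‖ ^ 2) * ‖1 - conj (φ (rad (ψ n) * ζ)) * φ z‖ ^ 2 ≤
      (1 - ‖φ z‖ ^ 2) * ‖1 - conj ((rad (ψ n) : ℂ) * ζ) * z‖ ^ 2 := by
    intro n
    set r := rad (ψ n) with hr
    have hr0 : 0 < r := rad_pos _
    have hr1 : r < 1 := rad_lt_one _
    have hnr : ‖(r : ℂ) * ζ‖ = r := norm_ofReal_mul hr0.le hζ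
    have h3 := schwarz_pick hφ hmaps (z := z) (w := r * ζ) hz (by rw [hnr]; exact hr1)
    have h4 : r ≤ ‖φ (r * ζ)‖ := le_norm_of_Q_le_one hr1 (hQ r hr0.le hr1)
    rw [hnr] at h3
    have h5 : 0 < 1 - r ^ 2 := by nlinarith
    have h6 : 1 - ‖φ (r * ζ)‖ ^ 2 ≤ 1 - r ^ 2 := by nlinarith
    have h7 := hmapsn z hz
    have h8 : 0 ≤ (1 - ‖φ z‖ ^ 2) * ‖1 - conj ((r : ℂ) * ζ) * z‖ ^ 2 := by
      refine mul_nonneg ?_ (by positivity)
      nlinarith [norm_nonneg (φ z)]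
    have h9 : (1 - r ^ 2) * ((1 - ‖z‖ ^ 2) * ‖1 - conj (φ (r * ζ)) * φ z‖ ^ 2) ≤
        (1 - r ^ 2) * ((1 - ‖φ z‖ ^ 2) * ‖1 - conj ((r : ℂ) * ζ) * z‖ ^ 2) := by
      calc (1 - r ^ 2) * ((1 - ‖z‖ ^ 2) * ‖1 - conj (φ (r * ζ)) * φ z‖ ^ 2)
          = (1 - r ^ 2) * (1 - ‖z‖ ^ 2) * ‖1 - conj (φ (r * ζ)) * φ z‖ ^ 2 := by ring
        _ ≤ (1 - ‖φ (r * ζ)‖ ^ 2) * (1 - ‖φ z‖ ^ 2) * ‖1 - conj ((r : ℂ) * ζ) * z‖ ^ 2 := h3
        _ = (1 - ‖φ (r * ζ)‖ ^ 2) * ((1 - ‖φ z‖ ^ 2) * ‖1 - conj ((r : ℂ) * ζ) * z‖ ^ 2) := by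
          ring
        _ ≤ _ := by gcongr
    exact le_of_mul_le_mul_left h9 h5
  have h3 : Tendsto (fun n => (1 - ‖z‖ ^ 2) * ‖1 - conj (φ (rad (ψ n) * ζ)) * φ z‖ ^ 2) atTop
      (𝓝 ((1 - ‖z‖ ^ 2) * ‖1 - conj α * φ z‖ ^ 2)) := by
    have h4 : Tendsto (fun n => conj (φ (rad (ψ n) * ζ))) atTop (𝓝 (conj α)) :=
      (Complex.continuous_conj.tendsto _).comp hlim
    exact (((h4.mul_const (φ z)).const_sub 1).norm.pow 2).const_mul _
  have h4 : Tendsto (fun n => (1 - ‖φ z‖ ^ 2) * ‖1 - conj ((rad (ψ n) : ℂ) * ζ) * z‖ ^ 2) atTop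
      (𝓝 ((1 - ‖φ z‖ ^ 2) * ‖1 - conj ζ * z‖ ^ 2)) := by
    have h5 : Tendsto (fun n => ((rad (ψ n) : ℝ) : ℂ) * ζ) atTop (𝓝 ζ) := by
      have := ((Complex.continuous_ofReal.tendsto 1).comp hrad).mul_const ζ
      simpa using this
    have h6 : Tendsto (fun n => conj (((rad (ψ n) : ℝ) : ℂ) * ζ)) atTop (𝓝 (conj ζ)) :=
      (Complex.continuous_conj.tendsto _).comp h5
    exact (((h6.mul_const z).const_sub 1).norm.pow 2).const_mul _
  have h5 := le_of_tendsto_of_tendsto' h3 h4 h2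
  rw [norm_one_sub_conj_mul hα, norm_one_sub_conj_mul hζ] at h5
  linarith

/-- Harnack-type inequality. -/
lemma norm_le_three {F : ℂ → ℂ} {w : ℂ} {R : ℝ} (hR : 0 < R) (hF : DifferentiableOn ℂ F (ball w R))
    (hre : ∀ z ∈ ball w R, 0 ≤ (F z).re) {z : ℂ} (hz : ‖z - w‖ ≤ R / 2) :
    ‖F z‖ ≤ 3 * ‖F w‖ := by
  have hd : DifferentiableOn ℂ (fun x => -F (w + x)) (ball 0 R) := by
    refine (hF.comp (by fun_prop) ?_).neg
    intro x hx
    simpa using hx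
  have key : ∀ M : ℝ, 0 < M → ‖F z‖ ≤ 2 * M + 3 * ‖F w‖ := by
    intro M hM
    have h1 := borelCaratheodory (f := fun x => -F (w + x)) (z := z - w) hM hd (by
      intro x hx
      simp only [Set.mem_ofPred_eq, neg_re]
      have := hre (w + x) (by simpa using hx)
      linarith) hR (by rw [mem_ball_zero_iff]; linarith)
    simp only [add_sub_cancel, norm_neg, add_zero] at h1
    refine h1.trans ?_
    have hp : 0 < R - ‖z - w‖ := by linarith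
    have e1 : 2 * M * ‖z - w‖ / (R - ‖z - w‖) ≤ 2 * M := by
      rw [div_le_iff₀ hp]; nlinarith [norm_nonneg (z - w)]
    have e2 : ‖F w‖ * (R + ‖z - w‖) / (R - ‖z - w‖) ≤ 3 * ‖F w‖ := by
      rw [div_le_iff₀ hp]; nlinarith [norm_nonneg (z - w), norm_nonneg (F w)]
    linarith
  refine le_of_forall_pos_le_add (fun δ hδ => ?_)
  have := key (δ / 2) (by linarith)
  linarith

include hφ hmaps hζ hQ in
theorem h_small {s : ℝ} (hs0 : 0 < s) (hs : s ≤ 1 / 40) {r : ℝ} (hr0 : 0 ≤ r) (hr1 : r < 1)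
    (hQr : 1 - s ^ 2 ≤ Q φ ζ r) {z : ℂ} (hz : ‖z - r * ζ‖ ≤ (1 - r) / 4) :
    ‖z * deriv φ z - φ z‖ ≤ 90 * s := by
  have hmapsn : ∀ z : ℂ, ‖z‖ < 1 → ‖φ z‖ < 1 := by
    intro z hz
    simpa using hmaps (show z ∈ ball 0 1 by simpa using hz)
  obtain ⟨α, hα, hJ⟩ := julia hφ hmaps hζ hQ
  set w : ℂ := r * ζ with hw
  have hnw : ‖w‖ = r := norm_ofReal_mul hr0 hζ
  have hρ : 0 < 1 - r := by linarith
  have hball : ball w (1 - r) ⊆ ball 0 1 := by
    intro y hy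
    rw [mem_ball_zero_iff]
    rw [mem_ball_iff_norm] at hy
    calc ‖y‖ = ‖(y - w) + w‖ := by ring_nf
      _ ≤ ‖y - w‖ + ‖w‖ := norm_add_le _ _
      _ < (1 - r) + r := by rw [hnw]; gcongr
      _ = 1 := by ring
  have hζz : ∀ y : ℂ, ‖y‖ < 1 → ζ - y ≠ 0 := by
    intro y hy h
    rw [sub_eq_zero] at h
    rw [← h, hζ] at hy
    exact lt_irrefl _ hy
  have hαz : ∀ y : ℂ, ‖y‖ < 1 → α - φ y ≠ 0 := by
    intro y hy h
    rw [sub_eq_zero] at h
    have := hmapsn y hy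
    rw [← h, hα] at this
    exact lt_irrefl _ this
  -- the function `F`
  set F : ℂ → ℂ := fun y => (α + φ y) / (α - φ y) - (ζ + y) / (ζ - y) with hFdef
  set Φ : ℂ → ℂ := fun y => ζ * φ y - α * y with hΦdef
  have hFΦ : ∀ y : ℂ, ‖y‖ < 1 → F y * ((α - φ y) * (ζ - y)) = 2 * Φ y := by
    intro y hy
    have h1 := hζz y hy
    have h2 := hαz y hy
    simp only [hFdef, hΦdef]
    field_simp
    ring
  have hFd : DifferentiableOn ℂ F (ball w (1 - r)) := by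
    have hφ' := hφ.mono hball
    refine DifferentiableOn.sub (DifferentiableOn.div (by fun_prop) (by fun_prop) ?_)
      (DifferentiableOn.div (by fun_prop) (by fun_prop) ?_)
    · intro y hy
      exact hαz y (mem_ball_zero_iff.1 (hball hy))
    · intro y hy
      exact hζz y (mem_ball_zero_iff.1 (hball hy))
  have hFre : ∀ y ∈ ball w (1 - r), 0 ≤ (F y).re := by
    intro y hy
    have hy1 : ‖y‖ < 1 := mem_ball_zero_iff.1 (hball hy)
    simp only [hFdef, sub_re, re_div_eq, hα, hζ, one_pow]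
    have h1 : 0 < ‖α - φ y‖ := norm_pos_iff.2 (hαz y hy1)
    have h2 : 0 < ‖ζ - y‖ := norm_pos_iff.2 (hζz y hy1)
    rw [sub_nonneg, div_le_div_iff₀ (by positivity) (by positivity)]
    have := hJ y hy1
    linarith
  -- estimate at the centre
  set x := ‖φ w‖ with hx
  have hw1 : ‖w‖ < 1 := by rw [hnw]; exact hr1
  have hx1 : x < 1 := hmapsn w hw1
  have hx0 : 0 ≤ x := norm_nonneg _
  have hQ1 : Q φ ζ r ≤ 1 := hQ r hr0 hr1
  have hrx : r ≤ x := le_norm_of_Q_le_one hr1 hQ1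
  have hxr : x - r ≤ 2 * s ^ 2 * (1 - r) := by
    have h1 : (1 - s ^ 2) * ((1 + x) * (1 - r)) ≤ (1 - x) * (1 + r) := by
      have h2 := hQr
      unfold Q at h2
      rw [← hw, ← hx, div_mul_div_comm, le_div_iff₀ (by positivity)] at h2
      exact h2
    nlinarith [mul_nonneg hρ.le (sq_nonneg s)]
  have hζw : ‖ζ - w‖ = 1 - r := by
    have : ζ - w = ((1 - r : ℝ) : ℂ) * ζ := by rw [hw]; push_cast; ring
    rw [this, norm_ofReal_mul hρ.le hζ]
  have hJw := hJ w hw1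
  rw [hζw, hnw] at hJw
  have hJw' : ‖α - φ w‖ ^ 2 * (1 + r) ≤ (1 - x ^ 2) * (1 - r) := by
    have : (1 - r) * (‖α - φ w‖ ^ 2 * (1 + r)) ≤ (1 - r) * ((1 - x ^ 2) * (1 - r)) := by
      rw [← hx] at hJw
      nlinarith
    exact le_of_mul_le_mul_left this hρ
  -- `|φ(w) - α r|² ≤ (1-r) (x - r)`
  have hΦw : ‖Φ w‖ ^ 2 ≤ (1 - r) * (x - r) := by
    have e0 : Φ w = ζ * (φ w - α * r) := by simp only [hΦdef, hw]; ring
    have e1 : ‖Φ w‖ = ‖φ w - α * r‖ := by rw [e0, norm_mul, hζ, one_mul]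
    rw [e1]
    have e2 : ‖φ w - α * r‖ ^ 2 = (1 - r) * (x ^ 2 - r) + r * ‖α - φ w‖ ^ 2 := by
      rw [hx]
      have hα2 : α.re * α.re + α.im * α.im = 1 := by
        have := Complex.normSq_eq_norm_sq α
        rw [hα, Complex.normSq_apply] at this
        simpa using this
      simp only [← Complex.normSq_eq_norm_sq, Complex.normSq_apply]
      simp
      linear_combination (r ^ 2 - r) * hα2
    rw [e2]
    have h1 : (1 + r) * ((1 - r) * (x ^ 2 - r) + r * ‖α - φ w‖ ^ 2) ≤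
        (1 + r) * ((1 - r) * (x - r)) := by
      have h2 : r * (‖α - φ w‖ ^ 2 * (1 + r)) ≤ r * ((1 - x ^ 2) * (1 - r)) := by gcongr
      have h3 : (1 - r) * (x - r) * (x + r) ≤ (1 - r) * (x - r) * (1 + r) := by
        have : 0 ≤ (1 - r) * (x - r) := mul_nonneg hρ.le (by linarith)
        gcongr
      nlinarith
    exact le_of_mul_le_mul_left h1 (by linarith)
  have hΦw' : ‖Φ w‖ ≤ 3 / 2 * s * (1 - r) := by
    refine le_of_sq_le_sq ?_ (by positivity)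
    calc ‖Φ w‖ ^ 2 ≤ (1 - r) * (x - r) := hΦw
      _ ≤ (1 - r) * (2 * s ^ 2 * (1 - r)) := by gcongr
      _ ≤ (3 / 2 * s * (1 - r)) ^ 2 := by nlinarith [mul_pos hs0 hρ]
  have hαw : 39 / 40 * (1 - r) ≤ ‖α - φ w‖ := by
    have h1 : 1 - x ≤ ‖α - φ w‖ := by
      have := norm_sub_norm_le α (φ w)
      rwa [hα] at this
    have h2 : s ^ 2 ≤ 1 / 1600 := by nlinarith
    nlinarith
  have hFw : ‖F w‖ * (1 - r) ≤ 4 * s := by
    have h1 := congrArg norm (hFΦ w hw1)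
    rw [norm_mul, norm_mul, norm_mul, hζw] at h1
    simp only [Complex.norm_ofNat] at h1
    have h2 : ‖F w‖ * (39 / 40 * (1 - r)) * (1 - r) ≤ 3 * s * (1 - r) := by
      calc ‖F w‖ * (39 / 40 * (1 - r)) * (1 - r) ≤ ‖F w‖ * ‖α - φ w‖ * (1 - r) := by gcongr
        _ = 2 * ‖Φ w‖ := by rw [← h1]; ring
        _ ≤ 2 * (3 / 2 * s * (1 - r)) := by gcongr
        _ = 3 * s * (1 - r) := by ring
    have h3 : (1 - r) * (‖F w‖ * (1 - r)) ≤ (1 - r) * (4 * s) := by nlinarith [mul_pos hs0 hρ]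
    exact le_of_mul_le_mul_left h3 hρ
  -- estimate of `F`, `α - φ` and `Φ` on the half ball
  have hΦball : ∀ y : ℂ, ‖y - w‖ ≤ (1 - r) / 2 → ‖Φ y‖ ≤ 18 * s * (1 - r) := by
    intro y hy
    have hyb : y ∈ ball w (1 - r) := by rw [mem_ball_iff_norm]; linarith
    have hy1 : ‖y‖ < 1 := mem_ball_zero_iff.1 (hball hyb)
    have h1 : ‖F y‖ ≤ 3 * ‖F w‖ := norm_le_three hρ hFd hFre hy
    have h2 : ‖F y‖ * (1 - r) ≤ 12 * s := by nlinarith
    have h3 : ‖ζ - y‖ ≤ 3 / 2 * (1 - r) := by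
      calc ‖ζ - y‖ = ‖(ζ - w) - (y - w)‖ := by ring_nf
        _ ≤ ‖ζ - w‖ + ‖y - w‖ := norm_sub_le _ _
        _ ≤ 3 / 2 * (1 - r) := by rw [hζw]; linarith
    have h4 := congrArg norm (hFΦ y hy1)
    rw [norm_mul, norm_mul, norm_mul] at h4
    simp only [Complex.norm_ofNat] at h4
    have h5 : ‖Φ y‖ ≤ 9 * s * ‖α - φ y‖ := by
      have : ‖F y‖ * (‖α - φ y‖ * ‖ζ - y‖) ≤ 18 * s * ‖α - φ y‖ := by
        calc ‖F y‖ * (‖α - φ y‖ * ‖ζ - y‖) ≤ ‖F y‖ * (‖α - φ y‖ * (3 / 2 * (1 - r))) := by gcongr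
          _ = 3 / 2 * ‖α - φ y‖ * (‖F y‖ * (1 - r)) := by ring
          _ ≤ 3 / 2 * ‖α - φ y‖ * (12 * s) := by gcongr
          _ = 18 * s * ‖α - φ y‖ := by ring
      linarith
    have h6 : ‖α - φ y‖ ≤ ‖ζ - y‖ + ‖Φ y‖ := by
      have e : ζ * (α - φ y) = α * (ζ - y) - Φ y := by simp only [hΦdef]; ring
      calc ‖α - φ y‖ = ‖ζ * (α - φ y)‖ := by rw [norm_mul, hζ, one_mul]
        _ = ‖α * (ζ - y) - Φ y‖ := by rw [e]
        _ ≤ ‖α * (ζ - y)‖ + ‖Φ y‖ := norm_sub_le _ _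
        _ = ‖ζ - y‖ + ‖Φ y‖ := by rw [norm_mul, hα, one_mul]
    have h7 : ‖α - φ y‖ ≤ 2 * (1 - r) := by
      have : s * ‖α - φ y‖ ≤ 1 / 40 * ‖α - φ y‖ := by gcongr
      nlinarith
    nlinarith
  -- Cauchy estimate
  have hΦd : DifferentiableOn ℂ Φ (ball 0 1) := by
    simp only [hΦdef]; fun_prop
  have hz1 : ‖z‖ < 1 := by
    refine mem_ball_zero_iff.1 (hball ?_)
    rw [mem_ball_iff_norm]
    linarith
  have hΦz : ‖Φ z‖ ≤ 18 * s * (1 - r) := hΦball z (by linarith)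
  have hdΦ : ‖deriv Φ z‖ ≤ 72 * s := by
    have hsub : closedBall z ((1 - r) / 4) ⊆ ball 0 1 := by
      intro y hy
      apply hball
      rw [mem_closedBall_iff_norm] at hy
      rw [mem_ball_iff_norm]
      calc ‖y - w‖ = ‖(y - z) + (z - w)‖ := by ring_nf
        _ ≤ ‖y - z‖ + ‖z - w‖ := norm_add_le _ _
        _ < 1 - r := by linarith
    have h1 : DiffContOnCl ℂ Φ (ball z ((1 - r) / 4)) := by
      apply DifferentiableOn.diffContOnCl
      exact hΦd.mono ((closure_ball_subset_closedBall).trans hsub)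
    have h2 := Complex.norm_deriv_le_of_forall_mem_sphere_norm_le (by positivity) h1
      (C := 18 * s * (1 - r)) (fun y hy => by
        apply hΦball
        rw [mem_sphere_iff_norm] at hy
        calc ‖y - w‖ = ‖(y - z) + (z - w)‖ := by ring_nf
          _ ≤ ‖y - z‖ + ‖z - w‖ := norm_add_le _ _
          _ ≤ (1 - r) / 2 := by linarith)
    refine h2.trans (le_of_eq ?_)
    field_simp
    ring
  have hφz : DifferentiableAt ℂ φ z :=
    hφ.differentiableAt (isOpen_ball.mem_nhds (by rwa [mem_ball_zero_iff]))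
  have hder : deriv Φ z = ζ * deriv φ z - α := by
    have h1 : HasDerivAt Φ (ζ * deriv φ z - α * 1) z :=
      (hφz.hasDerivAt.const_mul ζ).sub ((hasDerivAt_id z).const_mul α)
    rw [mul_one] at h1
    exact h1.deriv
  have hid : ζ * (z * deriv φ z - φ z) = z * deriv Φ z - Φ z := by
    rw [hder]; simp only [hΦdef]; ring
  calc ‖z * deriv φ z - φ z‖ = ‖ζ * (z * deriv φ z - φ z)‖ := by rw [norm_mul, hζ, one_mul]
    _ = ‖z * deriv Φ z - Φ z‖ := by rw [hid]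
    _ ≤ ‖z * deriv Φ z‖ + ‖Φ z‖ := norm_sub_le _ _
    _ ≤ 1 * (72 * s) + 18 * s * 1 := by
      rw [norm_mul]
      have : 18 * s * (1 - r) ≤ 18 * s * 1 := by gcongr; linarith
      gcongr
      exact hΦz.trans this
    _ = 90 * s := by ring

end

end Pool.Agent.Pa5725d
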