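import Mathlib
import Pool.Agent.Lib.Pa5725d.Littlewood

/-!
# A uniqueness theorem of Privalov type, via harmonic measure
-/

set_option autoImplicit false

open Complex Metric MeasureTheory Filter Topology Set
open scoped Real ComplexConjugate ENNReal

namespace Pool.Agent.Pa5725d

/-- indicator as a real function on `ℂ` -/
noncomputable def ind (S : Set ℂ) : ℂ → ℝ := S.indicator 1

/-- Harmonic measure of `S` (intersected with the unit circle) seen from `z`. -/
noncomputable def hm (S : Set ℂ) (z : ℂ) : ℝ :=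
  Real.circleAverage (fun ζ => poissonKernel 0 z ζ * ind S ζ) 0 1

/-- The Herglotz integral whose real part is the harmonic measure. -/
noncomputable def Hm (S : Set ℂ) (z : ℂ) : ℂ :=
  Real.circleAverage (fun ζ => herglotzRieszKernel 0 z ζ • ((ind S ζ : ℝ) : ℂ)) 0 1

lemma ind_nonneg (S : Set ℂ) (ζ : ℂ) : 0 ≤ ind S ζ :=
  Set.indicator_nonneg (fun _ _ => zero_le_one) ζ

lemma ind_of_mem {S : Set ℂ} {ζ : ℂ} (h : ζ ∈ S) : ind S ζ = 1 := by
  unfold ind; rw [Set.indicator_of_mem h]; rfl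

lemma ind_of_notMem {S : Set ℂ} {ζ : ℂ} (h : ζ ∉ S) : ind S ζ = 0 := by
  unfold ind; rw [Set.indicator_of_notMem h]

lemma ind_le_one (S : Set ℂ) (ζ : ℂ) : ind S ζ ≤ 1 := by
  by_cases h : ζ ∈ S
  · rw [ind_of_mem h]
  · rw [ind_of_notMem h]; exact zero_le_one

lemma measurable_ind {S : Set ℂ} (hS : MeasurableSet S) : Measurable (ind S) :=
  measurable_const.indicator hS

lemma circleIntegrable_ind {S : Set ℂ} (hS : MeasurableSet S) : CircleIntegrable (ind S) 0 1 := by
  unfold CircleIntegrable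
  refine (intervalIntegrable_const (c := (1 : ℝ))).mono_fun ?_ ?_
  · exact ((measurable_ind hS).comp (by fun_prop)).aestronglyMeasurable
  · refine Eventually.of_forall (fun θ => ?_)
    simp only [norm_one]
    rw [Real.norm_eq_abs, abs_of_nonneg (ind_nonneg _ _)]
    exact ind_le_one _ _

lemma circleIntegrable_ofReal_ind {S : Set ℂ} (hS : MeasurableSet S) :
    CircleIntegrable (fun ζ => ((ind S ζ : ℝ) : ℂ)) 0 1 := by
  have h := circleIntegrable_ind hS
  simp only [CircleIntegrable, intervalIntegrable_iff] at h ⊢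
  exact Complex.ofRealCLM.integrable_comp h

lemma circleIntegrable_poisson_ind {S : Set ℂ} (hS : MeasurableSet S) {z : ℂ} (hz : ‖z‖ < 1) :
    CircleIntegrable (fun ζ => poissonKernel 0 z ζ * ind S ζ) 0 1 := by
  have := (circleIntegrable_ind hS).continuousOn_smul (continuousOn_poissonKernel (ρ := 1) hz)
  exact this

lemma re_Hm {S : Set ℂ} (hS : MeasurableSet S) {z : ℂ} (hz : ‖z‖ < 1) :
    (Hm S z).re = hm S z := by
  unfold Hm hm
  rw [re_circleAverage_herglotzRieszKernel_smul (circleIntegrable_ind hS) (by simpa using hz)]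
  rw [← poissonKernel_eq_re_herglotzRieszKernel]
  rfl

lemma differentiableOn_Hm {S : Set ℂ} (hS : MeasurableSet S) :
    DifferentiableOn ℂ (Hm S) (ball 0 1) :=
  differentiableOn_circleAverage_herglotzRieszKernel_smul (circleIntegrable_ofReal_ind hS)

lemma hm_nonneg (S : Set ℂ) {z : ℂ} (hz : ‖z‖ < 1) : 0 ≤ hm S z := by
  unfold hm
  refine Real.circleAverage_nonneg_of_nonneg (fun ζ hζ => ?_)
  rw [abs_one, mem_sphere_zero_iff_norm] at hζ
  exact mul_nonneg (poissonKernel_nonneg hz hζ) (ind_nonneg _ _)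

lemma hm_add {S T : Set ℂ} (hS : MeasurableSet S) (hT : MeasurableSet T) (hd : Disjoint S T)
    {z : ℂ} (hz : ‖z‖ < 1) : hm (S ∪ T) z = hm S z + hm T z := by
  unfold hm
  rw [← Real.circleAverage_add (circleIntegrable_poisson_ind hS hz)
    (circleIntegrable_poisson_ind hT hz)]
  congr 1
  funext ζ
  simp only [Pi.add_apply]
  have : ind (S ∪ T) ζ = ind S ζ + ind T ζ := by
    unfold ind
    rw [Set.indicator_union_of_disjoint hd]
  rw [this]; ring

lemma poissonKernel_zero_left {ζ : ℂ} (hζ : ‖ζ‖ = 1) : poissonKernel 0 0 ζ = 1 := by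
  rw [poissonKernel_def]; simp [hζ]

lemma hm_zero_eq (S : Set ℂ) : hm S 0 = Real.circleAverage (ind S) 0 1 := by
  unfold hm
  refine Real.circleAverage_congr_sphere (fun ζ hζ => ?_)
  rw [abs_one, mem_sphere_zero_iff_norm] at hζ
  simp only [poissonKernel_zero_left hζ, one_mul]

/-- **Mean value property of harmonic measure.** -/
lemma circleAverage_hm {S : Set ℂ} (hS : MeasurableSet S) {r : ℝ} (hr0 : 0 ≤ r) (hr1 : r < 1) :
    Real.circleAverage (hm S) 0 r = hm S 0 := by
  have hsub : closedBall (0 : ℂ) r ⊆ ball 0 1 := closedBall_subset_ball hr1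
  have hd : DiffContOnCl ℂ (Hm S) (ball 0 |r|) := by
    rw [abs_of_nonneg hr0]
    apply DifferentiableOn.diffContOnCl
    exact (differentiableOn_Hm hS).mono (closure_ball_subset_closedBall.trans hsub)
  have h1 := hd.circleAverage
  have hci : CircleIntegrable (Hm S) 0 r := by
    refine ContinuousOn.circleIntegrable hr0 ?_
    exact (differentiableOn_Hm hS).continuousOn.mono (sphere_subset_closedBall.trans hsub)
  have h2 : Real.circleAverage (hm S) 0 r = (Real.circleAverage (Hm S) 0 r).re := by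
    rw [← Complex.reCLM_apply, ← Complex.reCLM.circleAverage_comp_comm hci]
    refine Real.circleAverage_congr_sphere (fun ζ hζ => ?_)
    rw [abs_of_nonneg hr0, mem_sphere_zero_iff_norm] at hζ
    rw [Function.comp_apply, Complex.reCLM_apply, re_Hm hS (by rw [hζ]; exact hr1)]
  rw [h2, h1, re_Hm hS (by simp)]

lemma continuousOn_hm {S : Set ℂ} (hS : MeasurableSet S) : ContinuousOn (hm S) (ball 0 1) := by
  have h := Complex.continuous_re.comp_continuousOn (differentiableOn_Hm hS).continuousOn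
  refine h.congr (fun z hz => ?_)
  rw [Function.comp_apply, re_Hm hS (by simpa using hz)]

/-- **(R1)** If the harmonic measure of `S` is small at `z`, then there is a point of the circle
outside `S` which is near `z` in the nontangential sense. -/
lemma exists_near {S : Set ℂ} (hS : MeasurableSet S) {z : ℂ} (hz : ‖z‖ < 1)
    (hv : hm S z ≤ 1 / 50) :
    ∃ ζ : ℂ, ‖ζ‖ = 1 ∧ ζ ∉ S ∧ ‖z - ‖z‖ * ζ‖ ≤ (1 - ‖z‖) / 4 := by
  by_contra hcon
  push Not at hcon
  set ρ := ‖z‖ with hρ
  have hρ0 : 0 ≤ ρ := norm_nonneg _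
  have h1ρ : 0 < 1 - ρ := by linarith
  set τ := Complex.arg z with hτ
  have hzeq : z = ρ * cexp (τ * I) := (Complex.norm_mul_exp_arg_mul_I z).symm
  have hP := circleIntegrable_poisson_ind hS hz
  -- lower bound on the arc
  have hlow : ∀ θ ∈ Icc (0 : ℝ) ((1 - ρ) / 4),
      16 / (25 * (1 - ρ)) ≤ poissonKernel 0 z (circleMap 0 1 (θ + τ)) *
        ind S (circleMap 0 1 (θ + τ)) := by
    intro θ hθ
    set ζ := circleMap 0 1 (θ + τ) with hζdef
    have hζe : ζ = cexp (((θ + τ : ℝ) : ℂ) * I) := by rw [hζdef, circleMap_zero_eq]; simp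
    have hζ : ‖ζ‖ = 1 := by rw [hζe]; exact Complex.norm_exp_ofReal_mul_I _
    have h1 : ‖z - ρ * ζ‖ ≤ (1 - ρ) / 4 := by
      have e : z - ρ * ζ = ρ * cexp (τ * I) * (1 - cexp (θ * I)) := by
        rw [hζe]
        push_cast
        rw [add_mul, Complex.exp_add]
        conv_lhs => rw [hzeq]
        ring
      rw [e, norm_mul, norm_mul, Complex.norm_exp_ofReal_mul_I, Complex.norm_real,
        Real.norm_eq_abs, abs_of_nonneg hρ0, mul_one]
      have h2 : ‖1 - cexp (θ * I)‖ ≤ θ := by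
        rw [norm_sub_rev]
        have := Real.norm_exp_I_mul_ofReal_sub_one_le (x := θ)
        rw [mul_comm] at this
        rw [Real.norm_eq_abs, abs_of_nonneg hθ.1] at this
        exact this
      calc ρ * ‖1 - cexp (θ * I)‖ ≤ 1 * θ := by gcongr
        _ ≤ (1 - ρ) / 4 := by rw [one_mul]; exact hθ.2
    have hmem : ζ ∈ S := by
      by_contra hn
      have := hcon ζ hζ hn
      linarith
    rw [ind_of_mem hmem, mul_one, poissonKernel_def]
    simp only [sub_zero]
    have h3 : ‖ζ - z‖ ≤ 5 / 4 * (1 - ρ) := by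
      have e : ζ - z = ((1 - ρ : ℝ) : ℂ) * ζ - (z - ρ * ζ) := by push_cast; ring
      calc ‖ζ - z‖ ≤ ‖((1 - ρ : ℝ) : ℂ) * ζ‖ + ‖z - ρ * ζ‖ := by rw [e]; exact norm_sub_le _ _
        _ ≤ (1 - ρ) + (1 - ρ) / 4 := by
          rw [norm_mul, hζ, Complex.norm_real, Real.norm_eq_abs, abs_of_pos h1ρ, mul_one]
          gcongr
        _ = 5 / 4 * (1 - ρ) := by ring
    have h4 : 0 < ‖ζ - z‖ := by
      rw [norm_pos_iff, sub_ne_zero]
      intro h5
      rw [h5] at hζ
      linarith
    rw [hζ, ← hρ, div_le_div_iff₀ (by positivity) (by positivity)]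
    have h5 : ‖ζ - z‖ ^ 2 ≤ (5 / 4 * (1 - ρ)) ^ 2 := by gcongr
    nlinarith [mul_nonneg hρ0 h1ρ.le]
  -- integrate
  unfold hm at hv
  rw [Real.circleAverage_eq_integral_add τ, smul_eq_mul] at hv
  set g : ℝ → ℝ := fun θ => poissonKernel 0 z (circleMap 0 1 (θ + τ)) *
        ind S (circleMap 0 1 (θ + τ)) with hg
  have hgi : IntervalIntegrable g volume 0 (2 * π) := by
    have h1 : Function.Periodic (fun θ : ℝ => poissonKernel 0 z (circleMap 0 1 θ) *
        ind S (circleMap 0 1 θ)) (2 * π) := by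
      intro θ
      simp only [periodic_circleMap (0 : ℂ) 1 θ]
    have h2 : IntervalIntegrable (fun θ : ℝ => poissonKernel 0 z (circleMap 0 1 θ) *
        ind S (circleMap 0 1 θ)) volume 0 (2 * π) := hP
    have h3 := h1.intervalIntegrable₀ (by positivity) h2 τ (τ + 2 * π)
    have h4 := h3.comp_add_right τ
    simpa [hg] using h4
  have hgnn : ∀ θ, 0 ≤ g θ := by
    intro θ
    have hζ : ‖circleMap 0 1 (θ + τ)‖ = 1 := by simp
    exact mul_nonneg (poissonKernel_nonneg hz hζ) (ind_nonneg _ _)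
  have hπ4 : (1 - ρ) / 4 ≤ 2 * π := by
    have := Real.pi_gt_three
    linarith
  have h1 : ∫ θ in (0 : ℝ)..((1 - ρ) / 4), g θ ≤ ∫ θ in (0 : ℝ)..2 * π, g θ := by
    refine intervalIntegral.integral_mono_interval le_rfl (by positivity) hπ4 ?_ hgi
    exact Eventually.of_forall hgnn
  have h2 : ∫ θ in (0 : ℝ)..((1 - ρ) / 4), (16 / (25 * (1 - ρ))) ≤
      ∫ θ in (0 : ℝ)..((1 - ρ) / 4), g θ := by
    refine intervalIntegral.integral_mono_on (by positivity) intervalIntegrable_const ?_ hlow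
    refine hgi.mono_set ?_
    rw [uIcc_of_le (by positivity), uIcc_of_le (by positivity)]
    exact Icc_subset_Icc le_rfl hπ4
  rw [intervalIntegral.integral_const, smul_eq_mul, sub_zero] at h2
  have h3 : (1 - ρ) / 4 * (16 / (25 * (1 - ρ))) = 4 / 25 := by
    field_simp
    norm_num
  rw [h3] at h2
  have h4 : 1 / 50 < (2 * π)⁻¹ * (4 / 25) := by
    have := Real.pi_lt_d2
    rw [inv_mul_eq_div, lt_div_iff₀ (by positivity)]
    linarith
  have h5 : (2 * π)⁻¹ * (4 / 25) ≤ (2 * π)⁻¹ * ∫ θ in (0 : ℝ)..2 * π, g θ := by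
    gcongr
    exact h2.trans h1
  linarith

end Pool.Agent.Pa5725d
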