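import Mathlib
import Pool.Agent.Lib.Pa5725d.Privalov

/-!
# A uniqueness theorem of Privalov type, via harmonic measure (second part)
-/

set_option autoImplicit false

open Complex Metric MeasureTheory Filter Topology Set
open scoped Real ComplexConjugate ENNReal

namespace Pool.Agent.Pa5725d

/-- Arc length measure on the unit circle, as a measure on `ℂ`. -/
noncomputable def arc : Measure ℂ := (volume.restrict (Ioc 0 (2 * π))).map (fun θ => circleMap 0 1 θ)

lemma measurable_circleMap01 : Measurable (fun θ : ℝ => circleMap 0 1 θ) := by fun_prop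

instance : IsFiniteMeasure arc := by unfold arc; infer_instance

lemma circleAverage_eq_arc {f : ℂ → ℝ} (hf : Measurable f) :
    Real.circleAverage f 0 1 = (2 * π)⁻¹ * ∫ ζ, f ζ ∂arc := by
  rw [Real.circleAverage_def, smul_eq_mul, intervalIntegral.integral_of_le (by positivity), arc,
    integral_map measurable_circleMap01.aemeasurable hf.aestronglyMeasurable]

lemma hm_zero_eq_arc {S : Set ℂ} (hS : MeasurableSet S) : hm S 0 = (2 * π)⁻¹ * arc.real S := by
  rw [hm_zero_eq, circleAverage_eq_arc (measurable_ind hS)]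
  congr 1
  unfold ind
  rw [integral_indicator_one hS]

/-- **(R2)** The harmonic measure of the complement of a compact set of positive measure takes
arbitrarily small values. -/
lemma exists_hm_lt {K : Set ℂ} (hK : IsCompact K) (hpos : arc K ≠ 0) {c : ℝ} (hc : 0 < c) :
    ∃ z : ℂ, ‖z‖ < 1 ∧ hm Kᶜ z < c := by
  have hKm : MeasurableSet K := hK.measurableSet
  have hπ : (0 : ℝ) < 2 * π := by positivity
  -- an open neighbourhood of `K` with small excess
  obtain ⟨O, hKO, hO, hμO⟩ := Set.exists_isOpen_lt_add (μ := arc) K (measure_ne_top _ _)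
    (ε := ENNReal.ofReal (c / 2) * arc K) (mul_ne_zero (by simpa using hc) hpos)
  have hOm : MeasurableSet O := hO.measurableSet
  have hexc : arc.real (O \ K) < c / 2 * arc.real K := by
    have h1 : arc O = arc K + arc (O \ K) := by
      rw [measure_sdiff hKO hKm.nullMeasurableSet (measure_ne_top _ _)]
      rw [add_tsub_cancel_of_le (measure_mono hKO)]
    rw [h1] at hμO
    have h2 : arc (O \ K) < ENNReal.ofReal (c / 2) * arc K :=
      lt_of_add_lt_add_left hμO
    have h3 := (ENNReal.toReal_lt_toReal (measure_ne_top _ _) (by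
      exact ENNReal.mul_ne_top ENNReal.ofReal_ne_top (measure_ne_top _ _))).2 h2
    rw [ENNReal.toReal_mul, ENNReal.toReal_ofReal (by positivity)] at h3
    exact h3
  obtain ⟨δ, hδ, hδO⟩ := hK.exists_thickening_subset_open hO hKO
  -- choice of `r`
  obtain ⟨r, hr0, hr1, hrδ, hrc⟩ : ∃ r : ℝ, 0 ≤ r ∧ r < 1 ∧ 1 - r ≤ δ / 2 ∧
      8 * (1 - r) / δ ^ 2 < c / 2 := by
    set t := min (min 1 (δ / 2)) (c * δ ^ 2 / 32) with ht
    have ht0 : 0 < t := by
      rw [ht]; exact lt_min (lt_min one_pos (by positivity)) (by positivity)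
    have ht1 : t ≤ 1 := (min_le_left _ _).trans (min_le_left _ _)
    have ht2 : t ≤ δ / 2 := (min_le_left _ _).trans (min_le_right _ _)
    have ht3 : t ≤ c * δ ^ 2 / 32 := min_le_right _ _
    refine ⟨1 - t, by linarith, by linarith, by linarith, ?_⟩
    rw [sub_sub_cancel, div_lt_iff₀ (by positivity)]
    have : 0 < c * δ ^ 2 := by positivity
    linarith
  have hnr : ∀ ζ : ℂ, ‖ζ‖ = 1 → ‖(r : ℂ) * ζ‖ = r := by
    intro ζ hζ
    rw [norm_mul, hζ, Complex.norm_real, Real.norm_eq_abs, abs_of_nonneg hr0, mul_one]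
  -- far part
  have hfar : ∀ ζ ∈ K, ‖ζ‖ = 1 → hm Oᶜ (r * ζ) < c / 2 := by
    intro ζ hζK hζ
    refine lt_of_le_of_lt ?_ hrc
    have hrζ : ‖(r : ℂ) * ζ‖ < 1 := by rw [hnr ζ hζ]; exact hr1
    have h1 : ∀ x ∈ sphere (0 : ℂ) |1|, poissonKernel 0 (r * ζ) x * ind Oᶜ x ≤
        8 * (1 - r) / δ ^ 2 := by
      intro x hx
      rw [abs_one, mem_sphere_zero_iff_norm] at hx
      by_cases hxO : x ∈ Oᶜ
      · rw [ind_of_mem hxO, mul_one, poissonKernel_def]
        simp only [sub_zero]
        rw [hx, hnr ζ hζ]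
        have h2 : δ ≤ ‖x - ζ‖ := by
          by_contra hlt
          push Not at hlt
          apply hxO
          apply hδO
          rw [mem_thickening_iff]
          exact ⟨ζ, hζK, by rw [dist_eq_norm]; exact hlt⟩
        have h3 : δ / 2 ≤ ‖x - r * ζ‖ := by
          have e : x - ζ = (x - r * ζ) - ((1 - r : ℝ) : ℂ) * ζ := by push_cast; ring
          have h4 : ‖x - ζ‖ ≤ ‖x - r * ζ‖ + ‖((1 - r : ℝ) : ℂ) * ζ‖ := by
            rw [e]; exact norm_sub_le _ _
          rw [norm_mul, hζ, Complex.norm_real, Real.norm_eq_abs, abs_of_nonneg (by linarith),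
            mul_one] at h4
          linarith
        have h5 : (δ / 2) ^ 2 ≤ ‖x - r * ζ‖ ^ 2 := by gcongr
        calc (1 ^ 2 - r ^ 2) / ‖x - r * ζ‖ ^ 2 ≤ (1 ^ 2 - r ^ 2) / (δ / 2) ^ 2 := by
              have : 0 ≤ 1 ^ 2 - r ^ 2 := by nlinarith
              gcongr
          _ ≤ (2 * (1 - r)) / (δ / 2) ^ 2 := by
              gcongr
              nlinarith
          _ = 8 * (1 - r) / δ ^ 2 := by field_simp; norm_num; ring
      · rw [ind_of_notMem hxO, mul_zero]
        have : 0 ≤ 1 - r := by linarith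
        positivity
    exact Real.circleAverage_mono_on_of_le_circle
      (circleIntegrable_poisson_ind hOm.compl hrζ) h1
  -- near part
  have hnear : ∃ ζ ∈ K, ‖ζ‖ = 1 ∧ hm (O \ K) (r * ζ) < c / 2 := by
    by_contra hcon
    push Not at hcon
    have hOK : MeasurableSet (O \ K) := hOm.diff hKm
    have h1 := circleAverage_hm hOK hr0 hr1
    rw [hm_zero_eq_arc hOK, Real.circleAverage_eq_circleAverage_zero_one] at h1
    have h2 : Real.circleAverage (fun ζ => c / 2 * ind K ζ) 0 1 ≤
        Real.circleAverage (fun z => hm (O \ K) (r * z + 0)) 0 1 := by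
      refine Real.circleAverage_mono ?_ ?_ ?_
      · exact (circleIntegrable_ind hKm).const_fun_smul (a := c / 2)
      · refine ContinuousOn.circleIntegrable zero_le_one ?_
        refine (continuousOn_hm hOK).comp (by fun_prop) ?_
        intro ζ hζ
        rw [mem_sphere_zero_iff_norm] at hζ
        show (r : ℂ) * ζ + 0 ∈ ball 0 1
        rw [mem_ball_zero_iff, add_zero, hnr ζ hζ]
        exact hr1
      · intro ζ hζ
        rw [abs_one, mem_sphere_zero_iff_norm] at hζ
        rw [add_zero]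
        by_cases hζK : ζ ∈ K
        · rw [ind_of_mem hζK, mul_one]
          exact hcon ζ hζK hζ
        · rw [ind_of_notMem hζK, mul_zero]
          exact hm_nonneg _ (by rw [hnr ζ hζ]; exact hr1)
    rw [circleAverage_eq_arc (by exact (measurable_ind hKm).const_mul _)] at h2
    rw [integral_const_mul] at h2
    unfold ind at h2
    rw [integral_indicator_one hKm] at h2
    have h3 : (2 * π)⁻¹ * (c / 2 * arc.real K) ≤ (2 * π)⁻¹ * arc.real (O \ K) :=
      h2.trans (le_of_eq h1)
    have h4 := le_of_mul_le_mul_left h3 (by positivity)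
    linarith
  obtain ⟨ζ, hζK, hζ, hlt⟩ := hnear
  have hrζ : ‖(r : ℂ) * ζ‖ < 1 := by rw [hnr ζ hζ]; exact hr1
  refine ⟨r * ζ, hrζ, ?_⟩
  have hdecomp : Kᶜ = (O \ K) ∪ Oᶜ := by
    ext x
    simp only [mem_compl_iff, mem_union, Set.mem_sdiff]
    constructor
    · intro h
      by_cases hxO : x ∈ O
      · exact Or.inl ⟨hxO, h⟩
      · exact Or.inr hxO
    · rintro (⟨-, h⟩ | h)
      · exact h
      · exact fun hx => h (hKO hx)
  have hdisj : Disjoint (O \ K) Oᶜ := by
    rw [Set.disjoint_left]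
    rintro x ⟨hx, -⟩ hx'
    exact hx' hx
  rw [hdecomp, hm_add (hOm.diff hKm) hOm.compl hdisj hrζ]
  have := hfar ζ hζK hζ
  linarith

/-- **Privalov type uniqueness theorem.** A holomorphic function which is bounded near a compact
set `K` of positive measure in the circle, and tends to zero there, in a nontangential uniform
sense, vanishes identically. -/
theorem privalov {K : Set ℂ} (hK : IsCompact K) (hpos : arc K ≠ 0)
    {h : ℂ → ℂ} (hh : DifferentiableOn ℂ h (ball 0 1))
    {B r₀ : ℝ} (hr₀ : r₀ < 1)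
    (hB : ∀ ζ ∈ K, ∀ z : ℂ, ‖z‖ < 1 → r₀ ≤ ‖z‖ → ‖z - ‖z‖ * ζ‖ ≤ (1 - ‖z‖) / 4 → ‖h z‖ ≤ B)
    {ρ : ℕ → ℝ} (hρ1 : ∀ n, ρ n < 1) (hρ : Tendsto ρ atTop (𝓝 1))
    (hsmall : ∀ ε : ℝ, 0 < ε → ∀ᶠ n in atTop, ∀ ζ ∈ K, ∀ z : ℂ, ‖z‖ = ρ n →
      ‖z - ‖z‖ * ζ‖ ≤ (1 - ‖z‖) / 4 → ‖h z‖ ≤ ε) :
    ∀ z ∈ ball (0 : ℂ) 1, h z = 0 := by
  have hS : MeasurableSet Kᶜ := hK.measurableSet.compl
  set v := hm Kᶜ with hv
  set W : ℂ → ℂ := fun z => 1 - 50 * Hm Kᶜ z with hW
  have hWre : ∀ z : ℂ, ‖z‖ < 1 → (W z).re = 1 - 50 * v z := by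
    intro z hz
    simp only [hW, sub_re, one_re, mul_re, re_Hm hS hz]
    simp [hv]
  have hWd : DifferentiableOn ℂ W (ball 0 1) := by
    have := differentiableOn_Hm hS
    simp only [hW]; fun_prop
  have hnear : ∀ z : ℂ, ‖z‖ < 1 → v z ≤ 1 / 50 → ∃ ζ ∈ K, ‖z - ‖z‖ * ζ‖ ≤ (1 - ‖z‖) / 4 := by
    intro z hz hvz
    obtain ⟨ζ, h1, h2, h3⟩ := exists_near hS hz hvz
    exact ⟨ζ, not_not.1 h2, h3⟩
  -- bound for `h` on `{v ≤ 1/50}`
  obtain ⟨B', hB'0, hB'⟩ : ∃ B' : ℝ, 0 < B' ∧ ∀ z : ℂ, ‖z‖ < 1 → v z ≤ 1 / 50 → ‖h z‖ ≤ B' := by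
    have hcomp : IsCompact (closedBall (0 : ℂ) r₀) := isCompact_closedBall _ _
    have hcont : ContinuousOn h (closedBall (0 : ℂ) r₀) :=
      hh.continuousOn.mono (closedBall_subset_ball hr₀)
    obtain ⟨B₂, hB₂⟩ := hcomp.exists_bound_of_continuousOn hcont
    refine ⟨max 1 (max B B₂), lt_max_of_lt_left one_pos, fun z hz hvz => ?_⟩
    rcases le_total r₀ ‖z‖ with h1 | h1
    · obtain ⟨ζ, hζ, h2⟩ := hnear z hz hvz
      exact (hB ζ hζ z hz h1 h2).trans ((le_max_left _ _).trans (le_max_right _ _))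
    · exact (hB₂ z (by rwa [mem_closedBall_zero_iff])).trans
        ((le_max_right _ _).trans (le_max_right _ _))
  -- vanishing on `{v < 1/50}`
  have hvan : ∀ z₀ : ℂ, ‖z₀‖ < 1 → v z₀ < 1 / 50 → h z₀ = 0 := by
    intro z₀ hz₀ hvz₀
    have hkey : ∀ M : ℝ, 0 < M → ‖h z₀‖ ≤ B' * Real.exp (-(M * (1 - 50 * v z₀))) := by
      intro M hM
      obtain ⟨n, hn1, hn3⟩ := ((hsmall (B' * Real.exp (-M)) (by positivity)).and
        (hρ.eventually (lt_mem_nhds hz₀))).exists
      set U : Set ℂ := {z | ‖z‖ < ρ n} ∩ {z | z ∈ ball (0 : ℂ) 1 ∧ v z < 1 / 50} with hU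
      have hUeq : U ⊆ ball 0 (ρ n) := by
        rintro z ⟨h1, -⟩
        rwa [mem_ball_zero_iff]
      have hclU : closure U ⊆ closedBall 0 (ρ n) :=
        (closure_mono hUeq).trans closure_ball_subset_closedBall
      have hclU1 : closure U ⊆ ball 0 1 := hclU.trans (closedBall_subset_ball (hρ1 n))
      have hUo : IsOpen U := by
        refine (isOpen_lt continuous_norm continuous_const).inter ?_
        have := (continuousOn_hm hS).isOpen_inter_preimage isOpen_ball (isOpen_Iio (a := 1 / 50))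
        exact this
      have hUb : Bornology.IsBounded U := isBounded_ball.subset hUeq
      set f : ℂ → ℂ := fun z => h z * cexp (M * W z) with hf
      have hfd : DiffContOnCl ℂ f U := by
        apply DifferentiableOn.diffContOnCl
        have : DifferentiableOn ℂ f (ball 0 1) := by
          simp only [hf]; fun_prop
        exact this.mono hclU1
      have hfn : ∀ z : ℂ, ‖z‖ < 1 → ‖f z‖ = ‖h z‖ * Real.exp (M * (1 - 50 * v z)) := by
        intro z hz
        simp only [hf, norm_mul, Complex.norm_exp]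
        rw [← hWre z hz]
        simp
      have hfr : ∀ z ∈ frontier U, ‖f z‖ ≤ B' := by
        intro z hz
        have hzc : z ∈ closure U := frontier_subset_closure hz
        have hzρ : ‖z‖ ≤ ρ n := mem_closedBall_zero_iff.1 (hclU hzc)
        have hz1 : ‖z‖ < 1 := mem_ball_zero_iff.1 (hclU1 hzc)
        have hvz : v z ≤ 1 / 50 := by
          have hcz : ContinuousAt v z :=
            (continuousOn_hm hS).continuousAt (isOpen_ball.mem_nhds (mem_ball_zero_iff.2 hz1))
          have h1 : z ∈ closure {z | v z < 1 / 50} := closure_mono (fun x hx => hx.2.2) hzc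
          by_contra hlt
          push Not at hlt
          have h2 : ∀ᶠ x in 𝓝 z, 1 / 50 < v x := hcz.eventually (lt_mem_nhds hlt)
          obtain ⟨x, hx1, hx2⟩ := mem_closure_iff_nhds.1 h1 _ h2
          exact lt_asymm (show 1 / 50 < v x from hx1) (show v x < 1 / 50 from hx2)
        have hzU : z ∉ U := by
          rw [hUo.frontier_eq] at hz
          exact hz.2
        have hcases : ‖z‖ = ρ n ∨ v z = 1 / 50 := by
          by_contra hcon
          push Not at hcon
          exact hzU ⟨lt_of_le_of_ne hzρ hcon.1, mem_ball_zero_iff.2 hz1,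
            lt_of_le_of_ne hvz hcon.2⟩
        rw [hfn z hz1]
        rcases hcases with h1 | h1
        · obtain ⟨ζ, hζ, h2⟩ := hnear z hz1 hvz
          have h3 := hn1 ζ hζ z h1 h2
          have h4 : Real.exp (M * (1 - 50 * v z)) ≤ Real.exp M := by
            rw [Real.exp_le_exp]
            have : 0 ≤ v z := hm_nonneg _ hz1
            nlinarith
          calc ‖h z‖ * Real.exp (M * (1 - 50 * v z)) ≤ ‖h z‖ * Real.exp M := by gcongr
            _ ≤ B' * Real.exp (-M) * Real.exp M := by gcongr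
            _ = B' := by rw [mul_assoc, ← Real.exp_add]; simp
        · rw [h1]
          norm_num
          exact hB' z hz1 hvz
      have hz₀U : z₀ ∈ U := ⟨hn3, mem_ball_zero_iff.2 hz₀, hvz₀⟩
      have h1 := Complex.norm_le_of_forall_mem_frontier_norm_le hUb hfd hfr
        (subset_closure hz₀U)
      rw [hfn z₀ hz₀] at h1
      rw [Real.exp_neg, ← div_eq_mul_inv, le_div_iff₀ (Real.exp_pos _)]
      exact h1
    have hd : 0 < 1 - 50 * v z₀ := by linarith
    have hlim : Tendsto (fun M : ℝ => B' * Real.exp (-(M * (1 - 50 * v z₀)))) atTop (𝓝 0) := by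
      have h1 : Tendsto (fun M : ℝ => M * (1 - 50 * v z₀)) atTop atTop :=
        tendsto_id.atTop_mul_const hd
      have h2 := (Real.tendsto_exp_neg_atTop_nhds_zero.comp h1).const_mul B'
      rw [mul_zero] at h2
      exact h2
    have h1 : ‖h z₀‖ ≤ 0 := by
      refine ge_of_tendsto hlim ?_
      filter_upwards [eventually_gt_atTop 0] with M hM
      exact hkey M hM
    exact norm_le_zero_iff.1 h1
  -- identity theorem
  obtain ⟨z₀, hz₀, hvz₀⟩ := exists_hm_lt hK hpos (c := 1 / 50) (by norm_num)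
  have han : AnalyticOnNhd ℂ h (ball 0 1) := hh.analyticOnNhd isOpen_ball
  have hpre : IsPreconnected (ball (0 : ℂ) 1) := (convex_ball _ _).isPreconnected
  have hev : h =ᶠ[𝓝 z₀] 0 := by
    have h1 : ContinuousAt v z₀ :=
      (continuousOn_hm hS).continuousAt (isOpen_ball.mem_nhds (mem_ball_zero_iff.2 hz₀))
    filter_upwards [h1.eventually (gt_mem_nhds hvz₀),
      isOpen_ball.mem_nhds (mem_ball_zero_iff.2 hz₀)] with z h2 h3
    exact hvan z (mem_ball_zero_iff.1 h3) h2
  exact han.eqOn_zero_of_preconnected_of_eventuallyEq_zero hpre (mem_ball_zero_iff.2 hz₀) hev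

end Pool.Agent.Pa5725d
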