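import Mathlib
import Pool.Agent.Lib.Pa5725d.Julia
import Pool.Agent.Lib.Pa5725d.Privalov2

/-!
# If the angular derivative is one on a set of positive measure, then the symbol is a rotation
-/

set_option autoImplicit false

open Complex Metric MeasureTheory Filter Topology Set
open scoped Real ComplexConjugate ENNReal

namespace Pool.Agent.Pa5725d

section

variable {φ : ℂ → ℂ} (hφ : DifferentiableOn ℂ φ (ball 0 1))
    (hmaps : MapsTo φ (ball 0 1) (ball 0 1))

include hφ in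
lemma eq_mul_of_deriv_eq (h : ∀ z ∈ ball (0 : ℂ) 1, z * deriv φ z - φ z = 0) :
    ∃ l : ℂ, ∀ z ∈ ball (0 : ℂ) 1, φ z = l * z := by
  have h0 : φ 0 = 0 := by
    have := h 0 (by simp)
    simpa using this
  -- `g = dslope φ 0` satisfies `z² g' = 0`
  set g := dslope φ 0 with hg
  have hgd : DifferentiableOn ℂ g (ball 0 1) :=
    (Complex.differentiableOn_dslope (isOpen_ball.mem_nhds (by simp))).2 hφ
  have hgz : ∀ z ∈ ball (0 : ℂ) 1, φ z = g z * z := by
    intro z _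
    have := sub_smul_dslope φ 0 z
    rw [h0] at this
    simp only [sub_zero, smul_eq_mul] at this
    rw [← this, mul_comm]
  have hderiv : ∀ z ∈ ball (0 : ℂ) 1, z ≠ 0 → deriv g z = 0 := by
    intro z hz hz0
    have hgz' : DifferentiableAt ℂ g z := hgd.differentiableAt (isOpen_ball.mem_nhds hz)
    have e1 : φ =ᶠ[𝓝 z] fun y => g y * y := by
      filter_upwards [isOpen_ball.mem_nhds hz] with y hy
      exact hgz y hy
    have e2 : deriv φ z = deriv g z * z + g z := by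
      rw [e1.deriv_eq]
      have h5 : HasDerivAt (fun y => g y * y) (deriv g z * z + g z * 1) z :=
        hgz'.hasDerivAt.mul (hasDerivAt_id z)
      rw [h5.deriv, mul_one]
    have e3 := h z hz
    rw [e2, hgz z hz] at e3
    have e4 : deriv g z * z ^ 2 = 0 := by
      calc deriv g z * z ^ 2 = z * (deriv g z * z + g z) - g z * z := by ring
        _ = 0 := e3
    exact (mul_eq_zero.1 e4).resolve_right (pow_ne_zero 2 hz0)
  have hderiv0 : ∀ z ∈ ball (0 : ℂ) 1, deriv g z = 0 := by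
    have hc : ContinuousOn (deriv g) (ball 0 1) := (hgd.deriv isOpen_ball).continuousOn
    intro z hz
    by_cases hz0 : z = 0
    · subst hz0
      have h1 : Tendsto (deriv g) (𝓝[≠] 0) (𝓝 (deriv g 0)) :=
        (hc.continuousAt (isOpen_ball.mem_nhds hz)).tendsto.mono_left nhdsWithin_le_nhds
      have h2 : Tendsto (deriv g) (𝓝[≠] 0) (𝓝 0) := by
        refine tendsto_const_nhds.congr' ?_
        filter_upwards [self_mem_nhdsWithin, nhdsWithin_le_nhds (isOpen_ball.mem_nhds hz)]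
          with y hy1 hy2
        exact (hderiv y hy2 hy1).symm
      exact tendsto_nhds_unique h1 h2
    · exact hderiv z hz hz0
  refine ⟨g 0, fun z hz => ?_⟩
  rw [hgz z hz]
  congr 1
  have hconv : Convex ℝ (ball (0 : ℂ) 1) := convex_ball _ _
  refine isOpen_ball.is_const_of_deriv_eq_zero hconv.isPreconnected hgd ?_ hz (by simp)
  intro y hy
  exact hderiv0 y hy

include hφ hmaps in
/-- **Rigidity.** -/
theorem rotation_of_Y_eq
    (hpos : volume {θ : ℝ | θ ∈ Ioc 0 (2 * π) ∧ Y φ θ = Real.exp (-2)} ≠ 0) :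
    ∃ l : ℂ, ‖l‖ = 1 ∧ ∀ z ∈ ball (0 : ℂ) 1, φ z = l * z := by
  set E : Set ℝ := {θ : ℝ | θ ∈ Ioc 0 (2 * π) ∧ Y φ θ = Real.exp (-2)} with hE
  have hEm : MeasurableSet E := by
    have h1 : MeasurableSet {θ : ℝ | Y φ θ = Real.exp (-2)} :=
      measurableSet_eq_fun (measurable_Y hφ hmaps) measurable_const
    exact measurableSet_Ioc.inter h1
  have hEfin : volume E ≠ ⊤ := by
    have : volume E ≤ volume (Ioc 0 (2 * π)) := measure_mono (fun θ hθ => hθ.1)
    exact ne_top_of_le_ne_top measure_Ioc_lt_top.ne this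
  have hYE : ∀ θ ∈ E, 0 < Yf φ (cexp (θ * I)) ∧
      -(1 / 2) * Real.log (Yf φ (cexp (θ * I))) = 1 := by
    intro θ hθ
    have h1 : Yf φ (cexp (θ * I)) = Real.exp (-2) := hθ.2
    rw [h1, Real.log_exp]
    exact ⟨Real.exp_pos _, by norm_num⟩
  -- Egorov
  have hconv : ∀ᵐ θ : ℝ, θ ∈ E →
      Tendsto (fun n : ℕ => Q φ (cexp (θ * I)) (rad n)) atTop (𝓝 (1 : ℝ)) := by
    refine Eventually.of_forall (fun θ hθ => ?_)
    obtain ⟨h1, h2⟩ := hYE θ hθ
    have h3 := (tendsto_Q hφ hmaps (norm_cexp θ) h1).comp tendsto_rad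
    rw [h2] at h3
    exact h3
  have hEpos : 0 < (volume E).toReal := ENNReal.toReal_pos hpos hEfin
  obtain ⟨t, htE, htm, htε, hunif⟩ := tendstoUniformlyOn_of_ae_tendsto (μ := volume)
    (f := fun (n : ℕ) (θ : ℝ) => Q φ (cexp (θ * I)) (rad n)) (g := fun _ => (1 : ℝ)) (s := E)
    (fun n => (continuous_Q_circle hφ (rad_pos n).le (rad_lt_one n)).stronglyMeasurable)
    stronglyMeasurable_const hEm hEfin hconv (ε := (volume E).toReal / 2) (by positivity)
  have hEt : 0 < volume (E \ t) := by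
    have h1 : volume t < volume E := by
      refine lt_of_le_of_lt htε ?_
      rw [ENNReal.ofReal_lt_iff_lt_toReal (by positivity) hEfin]
      linarith
    rw [measure_sdiff htE htm.nullMeasurableSet (ne_top_of_lt h1)]
    exact tsub_pos_of_lt h1
  obtain ⟨K₁, hK₁sub, hK₁c, hK₁pos⟩ := (hEm.diff htm).exists_lt_isCompact hEt
  set K : Set ℂ := (fun θ : ℝ => circleMap 0 1 θ) '' K₁ with hK
  have hKc : IsCompact K := hK₁c.image (by fun_prop)
  have hKpos : arc K ≠ 0 := by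
    have h1 : arc K = (volume.restrict (Ioc 0 (2 * π))) ((fun θ : ℝ => circleMap 0 1 θ) ⁻¹' K) := by
      unfold arc
      rw [Measure.map_apply measurable_circleMap01 hKc.measurableSet]
    rw [h1, Measure.restrict_apply (measurable_circleMap01 hKc.measurableSet)]
    have h2 : K₁ ⊆ (fun θ : ℝ => circleMap 0 1 θ) ⁻¹' K ∩ Ioc 0 (2 * π) := by
      intro θ hθ
      exact ⟨⟨θ, hθ, rfl⟩, (hK₁sub hθ).1.1⟩
    exact (hK₁pos.trans_le (measure_mono h2)).ne'
  have hKζ : ∀ ζ ∈ K, ‖ζ‖ = 1 ∧ ∀ r : ℝ, 0 ≤ r → r < 1 → Q φ ζ r ≤ 1 := by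
    rintro _ ⟨θ, hθ, rfl⟩
    simp only [circleMap_zero_eq, ofReal_one, one_mul]
    refine ⟨norm_cexp θ, fun r hr0 hr1 => ?_⟩
    obtain ⟨h1, h2⟩ := hYE θ (hK₁sub hθ).1
    have := Q_le_D hφ hmaps (norm_cexp θ) h1 hr0 hr1
    rwa [h2] at this
  have hKunif : ∀ s : ℝ, 0 < s → ∀ᶠ n in atTop, ∀ ζ ∈ K, 1 - s ^ 2 ≤ Q φ ζ (rad n) := by
    intro s hs
    have h1 := Metric.tendstoUniformlyOn_iff.1 hunif (s ^ 2) (by positivity)
    filter_upwards [h1] with n hn
    rintro _ ⟨θ, hθ, rfl⟩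
    have h2 := hn θ (hK₁sub hθ)
    simp only [circleMap_zero_eq, ofReal_one, one_mul]
    rw [Real.dist_eq] at h2
    have := (abs_lt.1 h2).2
    linarith
  -- the function `h`
  set h : ℂ → ℂ := fun z => z * deriv φ z - φ z with hh
  have hhd : DifferentiableOn ℂ h (ball 0 1) := by
    have := hφ.deriv isOpen_ball
    simp only [hh]; fun_prop
  have hmain : ∀ z ∈ ball (0 : ℂ) 1, h z = 0 := by
    obtain ⟨n₀, hn₀⟩ := (hKunif (1 / 40) (by norm_num)).exists
    refine privalov hKc hKpos hhd (B := 90 * (1 / 40)) (r₀ := rad n₀) (rad_lt_one n₀) ?_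
      (ρ := rad) rad_lt_one (tendsto_rad.mono_right nhdsWithin_le_nhds) ?_
    · intro ζ hζ z hz1 hz2 hz3
      obtain ⟨h1, h2⟩ := hKζ ζ hζ
      have h3 : 1 - (1 / 40 : ℝ) ^ 2 ≤ Q φ ζ ‖z‖ :=
        (hn₀ ζ hζ).trans (Q_mono hφ hmaps h1 ⟨(rad_pos n₀).le, rad_lt_one n₀⟩
          ⟨norm_nonneg _, hz1⟩ hz2)
      exact h_small hφ hmaps h1 h2 (by norm_num) le_rfl (norm_nonneg _) hz1 h3 hz3
    · intro ε hε
      set s := min (1 / 40) (ε / 90) with hs
      have hs0 : 0 < s := by rw [hs]; exact lt_min (by norm_num) (by positivity)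
      filter_upwards [hKunif s hs0] with n hn ζ hζ z hz1 hz2
      obtain ⟨h1, h2⟩ := hKζ ζ hζ
      have hz1' : ‖z‖ < 1 := by rw [hz1]; exact rad_lt_one n
      have h3 : 1 - s ^ 2 ≤ Q φ ζ ‖z‖ := by rw [hz1]; exact hn ζ hζ
      have h4 := h_small hφ hmaps h1 h2 hs0 (min_le_left _ _) (norm_nonneg _) hz1' h3 hz2
      refine h4.trans ?_
      have : s ≤ ε / 90 := min_le_right _ _
      linarith
  obtain ⟨l, hl⟩ := eq_mul_of_deriv_eq hφ hmain
  refine ⟨l, ?_, hl⟩
  -- `‖l‖ = 1`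
  obtain ⟨θ, hθ⟩ : K₁.Nonempty := nonempty_of_measure_ne_zero hK₁pos.ne'
  have h1 := tendsto_norm_one hφ hmaps (norm_cexp θ) (hYE θ (hK₁sub hθ).1).1
  have h2 : Tendsto (fun r : ℝ => ‖φ (r * cexp (θ * I))‖) (𝓝[<] 1) (𝓝 ‖l‖) := by
    have h3 : Tendsto (fun r : ℝ => ‖l‖ * r) (𝓝[<] 1) (𝓝 (‖l‖ * 1)) :=
      (tendsto_id.mono_left nhdsWithin_le_nhds).const_mul _
    rw [mul_one] at h3
    refine h3.congr' ?_
    filter_upwards [Ioo_mem_nhdsLT (show (0 : ℝ) < 1 by norm_num)] with r hr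
    have hnr : ‖(r : ℂ) * cexp (θ * I)‖ = r := norm_ofReal_mul hr.1.le (norm_cexp θ)
    rw [hl _ (by rw [mem_ball_zero_iff, hnr]; exact hr.2), norm_mul, hnr]
  exact tendsto_nhds_unique h2 h1

end

end Pool.Agent.Pa5725d
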