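import Mathlib
import Pool.Agent.Lib.Pa5725d.Criterion
import Pool.Agent.Lib.Pa5725d.Uniqueness

/-!
# Characterisation of strongly asymptotically Toeplitz composition operators
-/

set_option autoImplicit false

open Complex Metric MeasureTheory Filter Topology Set
open scoped Real ComplexConjugate ENNReal

namespace Pool.Agent.Pa5725d

/-- The (modulus of the) angular derivative of `φ` at `ζ`. -/
noncomputable def angD (φ : ℂ → ℂ) (ζ : ℂ) : ℝ≥0∞ :=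
  liminf (fun z => ENNReal.ofReal ((1 - ‖φ z‖) / (1 - ‖z‖))) (𝓝[ball 0 1] ζ)

section

variable {φ : ℂ → ℂ} (hφ : DifferentiableOn ℂ φ (ball 0 1))
    (hmaps : MapsTo φ (ball 0 1) (ball 0 1)) {ζ : ℂ} (hζ : ‖ζ‖ = 1)

include hφ hmaps hζ in
lemma angD_lt_one_of_lt (hY : Real.exp (-2) < Yf φ ζ) : angD φ ζ < 1 := by
  have hY0 : 0 < Yf φ ζ := (Real.exp_pos _).trans hY
  set D := -(1 / 2) * Real.log (Yf φ ζ) with hD
  have hD1 : D < 1 := by
    have := Real.log_lt_log (Real.exp_pos _) hY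
    rw [Real.log_exp] at this
    rw [hD]; linarith
  obtain ⟨b, hDb, hb1⟩ := exists_between hD1
  -- radial quotient
  have h1 : Tendsto (fun r : ℝ => (1 - ‖φ (r * ζ)‖) / (1 - r)) (𝓝[<] 1) (𝓝 D) := by
    have h2 := tendsto_Q hφ hmaps hζ hY0
    have h3 := tendsto_norm_one hφ hmaps hζ hY0
    have h4 : Tendsto (fun r : ℝ => 1 + r) (𝓝[<] 1) (𝓝 (1 + 1)) :=
      (tendsto_id.mono_left nhdsWithin_le_nhds).const_add 1
    have h5 : Tendsto (fun r : ℝ => Q φ ζ r * ((1 + ‖φ (r * ζ)‖) / (1 + r))) (𝓝[<] 1)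
        (𝓝 (D * ((1 + 1) / (1 + 1)))) :=
      h2.mul ((h3.const_add 1).div h4 (by norm_num))
    rw [div_self (by norm_num), mul_one] at h5
    refine h5.congr' ?_
    filter_upwards [Ioo_mem_nhdsLT (show (0 : ℝ) < 1 by norm_num)] with r hr
    rw [one_sub_norm_eq hr.1.le hr.2]
    have : 1 - r ≠ 0 := by linarith [hr.2]
    rw [mul_div_assoc, div_self this, mul_one]
  have hpath : Tendsto (fun r : ℝ => (r : ℂ) * ζ) (𝓝[<] 1) (𝓝[ball 0 1] ζ) := by
    refine tendsto_nhdsWithin_of_tendsto_nhds_of_eventually_within _ ?_ ?_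
    · have : Tendsto (fun r : ℝ => (r : ℂ) * ζ) (𝓝 1) (𝓝 (((1 : ℝ) : ℂ) * ζ)) := by
        refine Continuous.tendsto (by fun_prop) 1
      rw [ofReal_one, one_mul] at this
      exact this.mono_left nhdsWithin_le_nhds
    · filter_upwards [Ioo_mem_nhdsLT (show (0 : ℝ) < 1 by norm_num)] with r hr
      rw [mem_ball_zero_iff, norm_ofReal_mul hr.1.le hζ]
      exact hr.2
  have h2 : ∃ᶠ z in 𝓝[ball 0 1] ζ,
      ENNReal.ofReal ((1 - ‖φ z‖) / (1 - ‖z‖)) ≤ ENNReal.ofReal b := by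
    refine hpath.frequently (Eventually.frequently ?_)
    filter_upwards [h1.eventually (gt_mem_nhds hDb),
      Ioo_mem_nhdsLT (show (0 : ℝ) < 1 by norm_num)] with r hr hr'
    rw [norm_ofReal_mul hr'.1.le hζ]
    exact ENNReal.ofReal_le_ofReal hr.le
  refine (liminf_le_of_frequently_le' h2).trans_lt ?_
  rw [ENNReal.ofReal_lt_one]
  exact hb1

include hφ hmaps hζ in
lemma lt_of_angD_lt_one (h : angD φ ζ < 1) : Real.exp (-2) < Yf φ ζ := by
  have hmapsn : ∀ z : ℂ, ‖z‖ < 1 → ‖φ z‖ < 1 := by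
    intro z hz
    simpa using hmaps (show z ∈ ball 0 1 by simpa using hz)
  obtain ⟨b, hb1, hb2⟩ := exists_between h
  have hbtop : b ≠ ⊤ := ne_top_of_lt hb2
  have hbr : b.toReal < 1 := by
    have := (ENNReal.toReal_lt_toReal hbtop ENNReal.one_ne_top).2 hb2
    simpa using this
  set c := b.toReal with hc
  have h1 : ∃ᶠ z in 𝓝[ball 0 1] ζ, ENNReal.ofReal ((1 - ‖φ z‖) / (1 - ‖z‖)) < b :=
    frequently_lt_of_liminf_lt (by isBoundedDefault) hb1
  have h2 : ∃ᶠ z in 𝓝[ball 0 1] ζ, ‖z‖ < 1 ∧ 1 - ‖φ z‖ < c * (1 - ‖z‖) := by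
    refine (h1.and_eventually self_mem_nhdsWithin).mono (fun z hz => ?_)
    obtain ⟨hz1, hz2⟩ := hz
    replace hz2 : ‖z‖ < 1 := by simpa using hz2
    have hq : 0 ≤ (1 - ‖φ z‖) / (1 - ‖z‖) :=
      div_nonneg (by linarith [hmapsn z hz2]) (by linarith)
    rw [ENNReal.ofReal_lt_iff_lt_toReal hq hbtop, div_lt_iff₀ (by linarith)] at hz1
    exact ⟨hz2, hz1⟩
  obtain ⟨w, hw, hw2⟩ := exists_seq_forall_of_frequently h2
  have hwζ : Tendsto w atTop (𝓝 ζ) := hw.mono_right nhdsWithin_le_nhds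
  have hwn : Tendsto (fun n => ‖w n‖) atTop (𝓝 1) := by
    have := hwζ.norm
    rwa [hζ] at this
  have hφn : Tendsto (fun n => ‖φ (w n)‖) atTop (𝓝 1) := by
    have h3 : Tendsto (fun n => 1 - c * (1 - ‖w n‖)) atTop (𝓝 (1 - c * (1 - 1))) :=
      ((hwn.const_sub 1).const_mul c).const_sub 1
    rw [sub_self, mul_zero, sub_zero] at h3
    refine tendsto_of_tendsto_of_tendsto_of_le_of_le h3 tendsto_const_nhds (fun n => ?_)
      (fun n => ?_)
    · have := (hw2 n).2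
      simp only
      linarith
    · exact (hmapsn _ (hw2 n).1).le
  have hc0 : 0 < c := by
    have h3 := hw2 0
    have h4 := hmapsn _ h3.1
    by_contra hneg
    push Not at hneg
    have : c * (1 - ‖w 0‖) ≤ 0 := mul_nonpos_of_nonpos_of_nonneg hneg (by linarith [h3.1])
    linarith [h3.2]
  -- `Q φ ζ r ≤ c` for all `r`
  have hQ : ∀ r : ℝ, 0 ≤ r → r < 1 → Q φ ζ r ≤ c := by
    intro r hr0 hr1
    set z : ℂ := r * ζ with hz
    have hnz : ‖z‖ = r := norm_ofReal_mul hr0 hζ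
    have hz1 : ‖z‖ < 1 := by rw [hnz]; exact hr1
    set x := ‖φ z‖ with hx
    have hx0 : 0 ≤ x := norm_nonneg _
    have hx1 : x < 1 := hmapsn z hz1
    have h3 : ∀ n, (1 + ‖w n‖) * (1 - r ^ 2) * (1 - ‖φ (w n)‖ * x) ^ 2 ≤
        2 * c * (1 - x ^ 2) * ‖1 - conj (w n) * z‖ ^ 2 := by
      intro n
      obtain ⟨hn1, hn2⟩ := hw2 n
      have hsp := schwarz_pick hφ hmaps (z := z) (w := w n) hz1 hn1
      rw [hnz, ← hx] at hsp
      have hφw := hmapsn _ hn1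
      have h4 : 1 - ‖φ (w n)‖ * x ≤ ‖1 - conj (φ (w n)) * φ z‖ := by
        have := norm_sub_norm_le (1 : ℂ) (conj (φ (w n)) * φ z)
        rw [norm_mul, RCLike.norm_conj, norm_one] at this
        exact this
      have h5 : 0 < 1 - ‖φ (w n)‖ * x := by nlinarith [norm_nonneg (φ (w n))]
      have h6 : (1 - ‖φ (w n)‖ * x) ^ 2 ≤ ‖1 - conj (φ (w n)) * φ z‖ ^ 2 := by gcongr
      have h7 : 0 < 1 - ‖w n‖ := by linarith
      have h8 : 0 < 1 - r ^ 2 := by nlinarith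
      have h9 : 0 < 1 - x ^ 2 := by nlinarith
      have h10 : 1 - ‖φ (w n)‖ ^ 2 ≤ 2 * (c * (1 - ‖w n‖)) := by
        nlinarith [norm_nonneg (φ (w n))]
      have h11 : (1 - ‖w n‖) * ((1 + ‖w n‖) * (1 - r ^ 2) * (1 - ‖φ (w n)‖ * x) ^ 2) ≤
          (1 - ‖w n‖) * (2 * c * (1 - x ^ 2) * ‖1 - conj (w n) * z‖ ^ 2) := by
        calc (1 - ‖w n‖) * ((1 + ‖w n‖) * (1 - r ^ 2) * (1 - ‖φ (w n)‖ * x) ^ 2)
            = ((1 - ‖w n‖) * (1 + ‖w n‖) * (1 - r ^ 2)) * (1 - ‖φ (w n)‖ * x) ^ 2 := by ring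
          _ ≤ ((1 - ‖w n‖) * (1 + ‖w n‖) * (1 - r ^ 2)) *
              ‖1 - conj (φ (w n)) * φ z‖ ^ 2 := by
            have : 0 ≤ 1 + ‖w n‖ := by positivity
            gcongr
          _ = (1 - ‖w n‖ ^ 2) * (1 - r ^ 2) * ‖1 - conj (φ (w n)) * φ z‖ ^ 2 := by ring
          _ ≤ (1 - ‖φ (w n)‖ ^ 2) * (1 - x ^ 2) * ‖1 - conj (w n) * z‖ ^ 2 := hsp
          _ ≤ (2 * (c * (1 - ‖w n‖))) * (1 - x ^ 2) * ‖1 - conj (w n) * z‖ ^ 2 := by gcongr
          _ = (1 - ‖w n‖) * (2 * c * (1 - x ^ 2) * ‖1 - conj (w n) * z‖ ^ 2) := by ring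
      exact le_of_mul_le_mul_left h11 h7
    have h4 : Tendsto (fun n => (1 + ‖w n‖) * (1 - r ^ 2) * (1 - ‖φ (w n)‖ * x) ^ 2) atTop
        (𝓝 ((1 + 1) * (1 - r ^ 2) * (1 - 1 * x) ^ 2)) :=
      ((hwn.const_add 1).mul_const _).mul (((hφn.mul_const x).const_sub 1).pow 2)
    have h5 : Tendsto (fun n => 2 * c * (1 - x ^ 2) * ‖1 - conj (w n) * z‖ ^ 2) atTop
        (𝓝 (2 * c * (1 - x ^ 2) * ‖1 - conj ζ * z‖ ^ 2)) := by
      have h6 : Tendsto (fun n => conj (w n)) atTop (𝓝 (conj ζ)) :=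
        (Complex.continuous_conj.tendsto _).comp hwζ
      exact (((h6.mul_const z).const_sub 1).norm.pow 2).const_mul _
    have h6 := le_of_tendsto_of_tendsto' h4 h5 h3
    have h7 : ‖1 - conj ζ * z‖ = 1 - r := by
      rw [norm_one_sub_conj_mul hζ, hz]
      have : ζ - r * ζ = ((1 - r : ℝ) : ℂ) * ζ := by push_cast; ring
      rw [this, norm_ofReal_mul (by linarith) hζ]
    rw [h7, one_mul] at h6
    have h8 : 0 < 1 - r := by linarith
    have h9 : 0 < 1 - x := by linarith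
    have h10 : (1 - r) * (1 - x) * ((1 + r) * (1 - x)) ≤
        (1 - r) * (1 - x) * (c * ((1 + x) * (1 - r))) := by nlinarith
    have h11 := le_of_mul_le_mul_left h10 (by positivity)
    unfold Q
    rw [← hz, ← hx, div_mul_div_comm, div_le_iff₀ (by positivity)]
    linarith
  have h3 : Real.exp (-2 * c) ≤ Yf φ ζ := by
    refine ge_of_tendsto (tendsto_Y hφ hmaps hζ) ?_
    filter_upwards [Ioo_mem_nhdsLT (show (0 : ℝ) < 1 by norm_num)] with r hr
    rw [Real.exp_le_exp]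
    have := hQ r hr.1.le hr.2
    linarith
  refine lt_of_lt_of_le ?_ h3
  rw [Real.exp_lt_exp]
  linarith

include hφ hmaps hζ in
theorem angD_lt_one_iff : angD φ ζ < 1 ↔ Real.exp (-2) < Yf φ ζ :=
  ⟨lt_of_angD_lt_one hφ hmaps hζ, angD_lt_one_of_lt hφ hmaps hζ⟩

include hφ hmaps in
lemma ae_radial_iff : ∀ᵐ θ : ℝ, ((∃ w : ℂ, ‖w‖ = 1 ∧
    Tendsto (fun r : ℝ => φ (r * cexp (θ * I))) (𝓝[<] 1) (𝓝 w)) ↔ θ ∈ Eset φ) := by
  have hb : ∀ z ∈ ball (0 : ℂ) 1, ‖φ z‖ ≤ (1 : NNReal) := by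
    intro z hz
    have := hmaps hz
    rw [mem_ball_zero_iff] at this
    exact_mod_cast this.le
  filter_upwards [fatou hφ hb] with θ hθ
  constructor
  · rintro ⟨w, hw, h⟩
    have := h.norm
    rw [hw] at this
    exact this
  · intro h
    obtain ⟨w, hw⟩ := hθ
    exact ⟨w, tendsto_nhds_unique hw.norm h, hw⟩

end

lemma Mz_pow_apply_add (n k : ℕ) (f : H2) : ((Mz ^ n) f) (k + n) = f k := by
  induction n generalizing k with
  | zero => simp
  | succ n ih =>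
    rw [pow_succ', mul_apply_eq_comp, show k + (n + 1) = (k + n) + 1 by ring, Mz_succ, ih]

lemma isSAT_of_eq_one {C : H2 →L[ℂ] H2} (hC : ∀ f, C f = f) : IsSAT C := by
  refine ⟨1, fun f => ?_⟩
  refine tendsto_const_nhds.congr (fun n => ?_)
  apply lp.ext
  funext k
  rw [Tn_apply, adjoint_Mz_pow_apply, hC, Mz_pow_apply_add]
  rfl

lemma isSAT_of_id {φ : ℂ → ℂ} {C : H2 →L[ℂ] H2} (hC : IsCompOp φ C)
    (hid : ∀ z ∈ ball (0 : ℂ) 1, φ z = z) : IsSAT C := by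
  refine isSAT_of_eq_one (fun f => ev_injective (fun z hz => ?_))
  rw [hC f z hz, hid z (by rwa [mem_ball_zero_iff])]

lemma eq_one_of_isSAT {φ : ℂ → ℂ} {C : H2 →L[ℂ] H2} (hC : IsCompOp φ C) {l : ℂ} (hl : ‖l‖ = 1)
    (h : ∀ z ∈ ball (0 : ℂ) 1, φ z = l * z) (hS : IsSAT C) : l = 1 := by
  obtain ⟨A, hA⟩ := hS
  have h1 : ∀ n : ℕ, C (mono n) = (l ^ n) • mono n := by
    intro n
    refine ev_injective (fun z hz => ?_)
    have hz' : ‖φ z‖ < 1 := by
      rw [h z (by rwa [mem_ball_zero_iff]), norm_mul, hl, one_mul]; exact hz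
    rw [hC _ z hz, ev_mono n hz', ev_smul _ _ hz, ev_mono n hz,
      h z (by rwa [mem_ball_zero_iff]), mul_pow]
  have h2 : ∀ n : ℕ, (Tn C n (mono 0)) 0 = l ^ n := by
    intro n
    rw [Tn_mono_apply, add_zero, zero_add, h1]
    rw [lp.coeFn_smul, Pi.smul_apply, mono_apply]
    simp
  have h3 : Tendsto (fun n : ℕ => l ^ n) atTop (𝓝 ((A (mono 0)) 0)) := by
    have h4 : Tendsto (fun n => ‖Tn C n (mono 0) - A (mono 0)‖) atTop (𝓝 0) :=
      tendsto_iff_norm_sub_tendsto_zero.1 (hA (mono 0))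
    rw [tendsto_iff_norm_sub_tendsto_zero]
    refine squeeze_zero (fun _ => norm_nonneg _) (fun n => ?_) h4
    rw [← h2]
    have := norm_coeff_le (Tn C n (mono 0) - A (mono 0)) 0
    rw [lp.coeFn_sub, Pi.sub_apply] at this
    exact this
  set L := (A (mono 0)) 0 with hL
  have h4 : Tendsto (fun n : ℕ => l ^ (n + 1)) atTop (𝓝 L) :=
    h3.comp (tendsto_add_atTop_nat 1)
  have h5 : Tendsto (fun n : ℕ => l ^ (n + 1)) atTop (𝓝 (l * L)) := by
    simp_rw [pow_succ']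
    exact h3.const_mul l
  have h6 : L = l * L := tendsto_nhds_unique h4 h5
  have h7 : ‖L‖ = 1 := by
    have h8 : Tendsto (fun n : ℕ => ‖l ^ n‖) atTop (𝓝 ‖L‖) := h3.norm
    simp only [norm_pow, hl, one_pow] at h8
    exact (tendsto_nhds_unique h8 tendsto_const_nhds)
  have h8 : L ≠ 0 := by
    intro h0
    rw [h0, norm_zero] at h7
    exact zero_ne_one h7
  have h9 : (l - 1) * L = 0 := by rw [sub_mul, one_mul, ← h6, sub_self]
  exact sub_eq_zero.1 ((mul_eq_zero.1 h9).resolve_right h8)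

/-- **Main theorem**, in terms of `Y = exp (-2 D)`. -/
theorem isSAT_iff {φ : ℂ → ℂ} (hφ : DifferentiableOn ℂ φ (ball 0 1))
    (hmaps : MapsTo φ (ball 0 1) (ball 0 1)) {C : H2 →L[ℂ] H2} (hC : IsCompOp φ C) :
    IsSAT C ↔ (∀ z ∈ ball (0 : ℂ) 1, φ z = z) ∨
      ∀ᵐ (θ : ℝ) ∂(volume.restrict (Ioc 0 (2 * π))), (∃ w : ℂ, ‖w‖ = 1 ∧
        Tendsto (fun r : ℝ => φ (r * cexp (θ * I))) (𝓝[<] 1) (𝓝 w)) →
        angD φ (cexp (θ * I)) < 1 := by
  have hiff : (∀ᵐ (θ : ℝ) ∂(volume.restrict (Ioc 0 (2 * π))), (∃ w : ℂ, ‖w‖ = 1 ∧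
        Tendsto (fun r : ℝ => φ (r * cexp (θ * I))) (𝓝[<] 1) (𝓝 w)) →
        angD φ (cexp (θ * I)) < 1) ↔
      ∀ᵐ θ ∂(volume.restrict (Ioc 0 (2 * π))), θ ∈ Eset φ → Real.exp (-2) < Y φ θ := by
    refine eventually_congr ?_
    filter_upwards [ae_restrict_of_ae (ae_radial_iff hφ hmaps)] with θ hθ
    rw [hθ, angD_lt_one_iff hφ hmaps (norm_cexp θ)]
    rfl
  rw [hiff]
  constructor
  · intro hS
    by_cases hN : volume {θ : ℝ | θ ∈ Ioc 0 (2 * π) ∧ Y φ θ = Real.exp (-2)} = 0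
    · right
      have h1 := ae_le_of_isSAT hφ hmaps hC hS
      have h2 : ∀ᵐ θ ∂(volume.restrict (Ioc 0 (2 * π))), Y φ θ ≠ Real.exp (-2) := by
        rw [ae_restrict_iff' measurableSet_Ioc, ae_iff]
        convert hN using 2
        ext θ
        simp [and_assoc]
      filter_upwards [h1, h2] with θ h3 h4 h5
      exact lt_of_le_of_ne (h3 h5) (Ne.symm h4)
    · left
      obtain ⟨l, hl, h⟩ := rotation_of_Y_eq hφ hmaps hN
      have := eq_one_of_isSAT hC hl h hS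
      intro z hz
      rw [h z hz, this, one_mul]
  · rintro (h | h)
    · exact isSAT_of_id hC h
    · exact isSAT_of_ae hφ hmaps hC h

end Pool.Agent.Pa5725d
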